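import Pool.Agent.Lib.MP_9b2593_an.DP

namespace Pool.Agent.Lib.MP_9b2593_an

def c0 : Cls := ⟨0,6144,0,6144,.nil,.nil,.nil,.nil⟩
def c1 : Cls := ⟨0,6144,0,6144,.nil,(.cons 6144 3232 .nil),.nil,.nil⟩
def c2 : Cls := ⟨0,6144,0,6144,(.cons 6144 3232 .nil),.nil,.nil,.nil⟩
def c3 : Cls := ⟨0,6144,0,5064,(.cons 6144 3232 .nil),.nil,.nil,.nil⟩
def c4 : Cls := ⟨0,6144,5064,6144,(.cons 6144 3232 .nil),.nil,.nil,.nil⟩
def c5 : Cls := ⟨0,6144,5064,6144,(.cons 6144 3232 .nil),(.cons 4480 512 (.cons 4416 2176 (.cons 4160 2304 (.cons 3328 2432 (.cons 2048 2560 .nil))))),.nil,.nil⟩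
def c6 : Cls := ⟨0,6144,5064,6144,(.cons 6144 3232 .nil),(.cons 4672 2176 (.cons 4608 2432 (.cons 2560 2560 .nil))),.nil,.nil⟩
def c7 : Cls := ⟨0,6144,5064,6144,(.cons 6144 3232 .nil),(.cons 4864 2048 (.cons 4800 2176 (.cons 4608 2432 (.cons 2560 2560 .nil)))),.nil,.nil⟩
def c8 : Cls := ⟨0,6144,5064,6144,(.cons 6144 3232 .nil),(.cons 5064 2176 (.cons 5056 2432 (.cons 4992 2944 (.cons 4928 3072 (.cons 4864 3200 (.cons 4800 3232 (.cons 4480 3328 (.cons 3328 3456 (.cons 1024 3584 .nil))))))))),.nil,.nil⟩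
def c9 : Cls := ⟨0,4504,5064,6144,(.cons 6144 3232 .nil),(.cons 5064 2176 (.cons 5056 2432 (.cons 4992 2944 (.cons 4928 3072 (.cons 4864 3200 (.cons 4800 3232 (.cons 4480 3328 (.cons 3328 3456 (.cons 1024 3584 .nil))))))))),.nil,.nil⟩
def c10 : Cls := ⟨4504,6144,5064,6144,(.cons 6144 3232 .nil),(.cons 5064 2176 (.cons 5056 2432 (.cons 4992 2944 (.cons 4928 3072 (.cons 4864 3200 (.cons 4800 3232 (.cons 4480 3328 (.cons 3328 3456 (.cons 1024 3584 .nil))))))))),.nil,.nil⟩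
def c11 : Cls := ⟨4504,6144,5064,6144,(.cons 6144 3232 .nil),(.cons 6144 2760 (.cons 4992 2944 (.cons 4928 3072 (.cons 4864 3200 (.cons 4800 3232 (.cons 4480 3328 (.cons 3328 3456 (.cons 1024 3584 .nil)))))))),.nil,.nil⟩
def c12 : Cls := ⟨4504,6144,5064,6144,(.cons 6144 2760 .nil),(.cons 5064 2176 (.cons 5056 2432 (.cons 4992 2944 (.cons 4928 3072 (.cons 4864 3200 (.cons 4800 3232 (.cons 4480 3328 (.cons 3328 3456 (.cons 1024 3584 .nil))))))))),.nil,.nil⟩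
def c13 : Cls := ⟨4504,6144,5064,5384,(.cons 6144 2760 .nil),(.cons 5064 2176 (.cons 5056 2432 (.cons 4992 2944 (.cons 4928 3072 (.cons 4864 3200 (.cons 4800 3232 (.cons 4480 3328 (.cons 3328 3456 (.cons 1024 3584 .nil))))))))),.nil,.nil⟩
def c14 : Cls := ⟨4504,6144,5384,6144,(.cons 6144 2760 .nil),(.cons 5064 2176 (.cons 5056 2432 (.cons 4992 2944 (.cons 4928 3072 (.cons 4864 3200 (.cons 4800 3232 (.cons 4480 3328 (.cons 3328 3456 (.cons 1024 3584 .nil))))))))),.nil,.nil⟩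
def c15 : Cls := ⟨4504,6144,5384,6144,(.cons 6144 2760 .nil),(.cons 5120 2304 (.cons 5056 3328 (.cons 4992 3456 (.cons 1024 3584 .nil)))),.nil,.nil⟩
def c16 : Cls := ⟨4504,6144,5384,6144,(.cons 6144 2760 .nil),(.cons 5384 1536 (.cons 5376 1920 (.cons 5312 2560 (.cons 5248 2688 (.cons 5056 3328 (.cons 4992 3456 (.cons 1024 3584 .nil))))))),.nil,.nil⟩
def c17 : Cls := ⟨4504,4672,5384,6144,(.cons 6144 2760 .nil),(.cons 5384 1536 (.cons 5376 1920 (.cons 5312 2560 (.cons 5248 2688 (.cons 5056 3328 (.cons 4992 3456 (.cons 1024 3584 .nil))))))),.nil,.nil⟩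
def c18 : Cls := ⟨4672,6144,5384,6144,(.cons 6144 2760 .nil),(.cons 5384 1536 (.cons 5376 1920 (.cons 5312 2560 (.cons 5248 2688 (.cons 5056 3328 (.cons 4992 3456 (.cons 1024 3584 .nil))))))),.nil,.nil⟩
def c19 : Cls := ⟨5992,6144,5384,6144,(.cons 6144 2760 .nil),(.cons 5384 1536 (.cons 5376 1920 (.cons 5312 2560 (.cons 5248 2688 (.cons 5056 3328 (.cons 4992 3456 (.cons 1024 3584 .nil))))))),.nil,.nil⟩
def c20 : Cls := ⟨4672,5992,5384,6144,(.cons 6144 2760 .nil),(.cons 5384 1536 (.cons 5376 1920 (.cons 5312 2560 (.cons 5248 2688 (.cons 5056 3328 (.cons 4992 3456 (.cons 1024 3584 .nil))))))),.nil,.nil⟩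
def c21 : Cls := ⟨4672,5992,5384,6144,(.cons 6144 2760 .nil),(.cons 6144 2560 (.cons 5248 2688 (.cons 5056 3328 (.cons 4992 3456 (.cons 1024 3584 .nil))))),.nil,.nil⟩
def c22 : Cls := ⟨4672,5992,5384,6144,(.cons 6144 2560 .nil),(.cons 5384 1536 (.cons 5376 1920 (.cons 5312 2560 (.cons 5248 2688 (.cons 5056 3328 (.cons 4992 3456 (.cons 1024 3584 .nil))))))),.nil,.nil⟩
def c23 : Cls := ⟨4672,5992,5384,5464,(.cons 6144 2560 .nil),(.cons 5384 1536 (.cons 5376 1920 (.cons 5312 2560 (.cons 5248 2688 (.cons 5056 3328 (.cons 4992 3456 (.cons 1024 3584 .nil))))))),.nil,.nil⟩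
def c24 : Cls := ⟨4672,5992,5464,6144,(.cons 6144 2560 .nil),(.cons 5384 1536 (.cons 5376 1920 (.cons 5312 2560 (.cons 5248 2688 (.cons 5056 3328 (.cons 4992 3456 (.cons 1024 3584 .nil))))))),.nil,.nil⟩
def c25 : Cls := ⟨4672,5992,5464,6144,(.cons 6144 2560 .nil),(.cons 5464 1024 (.cons 5440 2176 (.cons 5376 2432 (.cons 5312 2816 (.cons 5056 3328 (.cons 4992 3456 (.cons 1024 3584 .nil))))))),.nil,.nil⟩
def c26 : Cls := ⟨4672,4768,5464,6144,(.cons 6144 2560 .nil),(.cons 5464 1024 (.cons 5440 2176 (.cons 5376 2432 (.cons 5312 2816 (.cons 5056 3328 (.cons 4992 3456 (.cons 1024 3584 .nil))))))),.nil,.nil⟩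
def c27 : Cls := ⟨4768,5992,5464,6144,(.cons 6144 2560 .nil),(.cons 5464 1024 (.cons 5440 2176 (.cons 5376 2432 (.cons 5312 2816 (.cons 5056 3328 (.cons 4992 3456 (.cons 1024 3584 .nil))))))),.nil,.nil⟩
def c28 : Cls := ⟨4768,5992,5464,6144,(.cons 6144 1504 .nil),(.cons 5464 1024 (.cons 5440 2176 (.cons 5376 2432 (.cons 5312 2816 (.cons 5056 3328 (.cons 4992 3456 (.cons 1024 3584 .nil))))))),.nil,.nil⟩
def c29 : Cls := ⟨4768,5992,5464,6144,(.cons 6144 2560 .nil),(.cons 6144 1504 (.cons 5440 2176 (.cons 5376 2432 (.cons 5312 2816 (.cons 5056 3328 (.cons 4992 3456 (.cons 1024 3584 .nil))))))),.nil,.nil⟩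
def c30 : Cls := ⟨4768,5992,5464,6144,(.cons 6144 2560 .nil),(.cons 6144 2448 (.cons 5312 2816 (.cons 5056 3328 (.cons 4992 3456 (.cons 1024 3584 .nil))))),.nil,.nil⟩
def c31 : Cls := ⟨4768,5992,5464,6144,(.cons 6144 2448 .nil),(.cons 6144 1504 (.cons 5440 2176 (.cons 5376 2432 (.cons 5312 2816 (.cons 5056 3328 (.cons 4992 3456 (.cons 1024 3584 .nil))))))),.nil,.nil⟩
def c32 : Cls := ⟨4768,5992,5464,5560,(.cons 6144 2448 .nil),(.cons 6144 1504 (.cons 5440 2176 (.cons 5376 2432 (.cons 5312 2816 (.cons 5056 3328 (.cons 4992 3456 (.cons 1024 3584 .nil))))))),.nil,.nil⟩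
def c33 : Cls := ⟨4768,5992,5560,6144,(.cons 6144 2448 .nil),(.cons 6144 1504 (.cons 5440 2176 (.cons 5376 2432 (.cons 5312 2816 (.cons 5056 3328 (.cons 4992 3456 (.cons 1024 3584 .nil))))))),.nil,.nil⟩
def c34 : Cls := ⟨4768,5992,5560,6144,(.cons 6144 2448 .nil),(.cons 6144 1504 (.cons 5440 2176 (.cons 5376 2432 (.cons 5312 2816 (.cons 5184 2944 (.cons 5120 3776 (.cons 5056 3904 .nil))))))),.nil,.nil⟩
def c35 : Cls := ⟨4768,5992,5560,6144,(.cons 6144 2448 .nil),(.cons 6144 1504 (.cons 5560 1792 (.cons 5504 2304 (.cons 5440 2432 (.cons 5376 2560 (.cons 5312 2816 (.cons 5184 2944 (.cons 5120 3776 (.cons 5056 3904 .nil))))))))),.nil,.nil⟩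
def c36 : Cls := ⟨4768,4944,5560,6144,(.cons 6144 2448 .nil),(.cons 6144 1504 (.cons 5560 1792 (.cons 5504 2304 (.cons 5440 2432 (.cons 5376 2560 (.cons 5312 2816 (.cons 5184 2944 (.cons 5120 3776 (.cons 5056 3904 .nil))))))))),.nil,.nil⟩
def c37 : Cls := ⟨4944,5992,5560,6144,(.cons 6144 2448 .nil),(.cons 6144 1504 (.cons 5560 1792 (.cons 5504 2304 (.cons 5440 2432 (.cons 5376 2560 (.cons 5312 2816 (.cons 5184 2944 (.cons 5120 3776 (.cons 5056 3904 .nil))))))))),.nil,.nil⟩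
def c38 : Cls := ⟨4944,5992,5560,6144,(.cons 6144 1896 .nil),(.cons 6144 1504 (.cons 5560 1792 (.cons 5504 2304 (.cons 5440 2432 (.cons 5376 2560 (.cons 5312 2816 (.cons 5184 2944 (.cons 5120 3776 (.cons 5056 3904 .nil))))))))),.nil,.nil⟩
def c39 : Cls := ⟨4944,5992,5560,6144,(.cons 6144 2448 .nil),(.cons 6144 1896 (.cons 5504 2304 (.cons 5440 2432 (.cons 5376 2560 (.cons 5312 2816 (.cons 5184 2944 (.cons 5120 3776 (.cons 5056 3904 .nil)))))))),.nil,.nil⟩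
def c40 : Cls := ⟨4944,5992,5560,6144,(.cons 6144 2448 .nil),(.cons 6144 2392 (.cons 5440 2432 (.cons 5376 2560 (.cons 5312 2816 (.cons 5184 2944 (.cons 5120 3776 (.cons 5056 3904 .nil))))))),.nil,.nil⟩
def c41 : Cls := ⟨4944,5992,5560,6144,(.cons 6144 2392 .nil),(.cons 6144 1896 (.cons 5504 2304 (.cons 5440 2432 (.cons 5376 2560 (.cons 5312 2816 (.cons 5184 2944 (.cons 5120 3776 (.cons 5056 3904 .nil)))))))),.nil,.nil⟩
def c42 : Cls := ⟨4944,5992,5560,5616,(.cons 6144 2392 .nil),(.cons 6144 1896 (.cons 5504 2304 (.cons 5440 2432 (.cons 5376 2560 (.cons 5312 2816 (.cons 5184 2944 (.cons 5120 3776 (.cons 5056 3904 .nil)))))))),.nil,.nil⟩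
def c43 : Cls := ⟨4944,5992,5616,6144,(.cons 6144 2392 .nil),(.cons 6144 1896 (.cons 5504 2304 (.cons 5440 2432 (.cons 5376 2560 (.cons 5312 2816 (.cons 5184 2944 (.cons 5120 3776 (.cons 5056 3904 .nil)))))))),.nil,.nil⟩
def c44 : Cls := ⟨4944,5992,5616,6144,(.cons 6144 2392 .nil),(.cons 6144 1896 (.cons 5504 2304 (.cons 5440 2432 (.cons 5376 2560 (.cons 5312 2816 (.cons 5248 3456 (.cons 5184 3712 (.cons 5120 3904 .nil)))))))),.nil,.nil⟩
def c45 : Cls := ⟨4944,5992,5616,6144,(.cons 6144 2392 .nil),(.cons 6144 1896 (.cons 5504 2304 (.cons 5440 2944 (.cons 5376 3072 (.cons 5312 3200 (.cons 5248 3456 (.cons 5184 3712 (.cons 5120 3904 .nil)))))))),.nil,.nil⟩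
def c46 : Cls := ⟨4944,5992,5616,6144,(.cons 6144 2392 .nil),(.cons 6144 1896 (.cons 5616 2176 (.cons 5568 2304 (.cons 5504 2432 (.cons 5440 2944 (.cons 5376 3072 (.cons 5312 3200 (.cons 5248 3456 (.cons 5184 3712 (.cons 5120 3904 .nil)))))))))),.nil,.nil⟩
def c47 : Cls := ⟨4944,5048,5616,6144,(.cons 6144 2392 .nil),(.cons 6144 1896 (.cons 5616 2176 (.cons 5568 2304 (.cons 5504 2432 (.cons 5440 2944 (.cons 5376 3072 (.cons 5312 3200 (.cons 5248 3456 (.cons 5184 3712 (.cons 5120 3904 .nil)))))))))),.nil,.nil⟩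
def c48 : Cls := ⟨5048,5992,5616,6144,(.cons 6144 2392 .nil),(.cons 6144 1896 (.cons 5616 2176 (.cons 5568 2304 (.cons 5504 2432 (.cons 5440 2944 (.cons 5376 3072 (.cons 5312 3200 (.cons 5248 3456 (.cons 5184 3712 (.cons 5120 3904 .nil)))))))))),.nil,.nil⟩
def c49 : Cls := ⟨5792,5992,5616,6144,(.cons 6144 2392 .nil),(.cons 6144 1896 (.cons 5616 2176 (.cons 5568 2304 (.cons 5504 2432 (.cons 5440 2944 (.cons 5376 3072 (.cons 5312 3200 (.cons 5248 3456 (.cons 5184 3712 (.cons 5120 3904 .nil)))))))))),.nil,.nil⟩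
def c50 : Cls := ⟨5048,5792,5616,6144,(.cons 6144 2392 .nil),(.cons 6144 1896 (.cons 5616 2176 (.cons 5568 2304 (.cons 5504 2432 (.cons 5440 2944 (.cons 5376 3072 (.cons 5312 3200 (.cons 5248 3456 (.cons 5184 3712 (.cons 5120 3904 .nil)))))))))),.nil,.nil⟩
def c51 : Cls := ⟨5048,5792,5616,6144,(.cons 6144 2040 .nil),(.cons 6144 1896 (.cons 5616 2176 (.cons 5568 2304 (.cons 5504 2432 (.cons 5440 2944 (.cons 5376 3072 (.cons 5312 3200 (.cons 5248 3456 (.cons 5184 3712 (.cons 5120 3904 .nil)))))))))),.nil,.nil⟩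
def c52 : Cls := ⟨5048,5792,5616,6144,(.cons 6144 2392 .nil),(.cons 6144 2040 (.cons 5616 2176 (.cons 5568 2304 (.cons 5504 2432 (.cons 5440 2944 (.cons 5376 3072 (.cons 5312 3200 (.cons 5248 3456 (.cons 5184 3712 (.cons 5120 3904 .nil)))))))))),.nil,.nil⟩
def c53 : Cls := ⟨5048,5792,5616,6144,(.cons 6144 2392 .nil),(.cons 6144 2360 (.cons 5504 2432 (.cons 5440 2944 (.cons 5376 3072 (.cons 5312 3200 (.cons 5248 3456 (.cons 5184 3712 (.cons 5120 3904 .nil)))))))),.nil,.nil⟩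
def c54 : Cls := ⟨5048,5792,5616,6144,(.cons 6144 2360 .nil),(.cons 6144 2040 (.cons 5616 2176 (.cons 5568 2304 (.cons 5504 2432 (.cons 5440 2944 (.cons 5376 3072 (.cons 5312 3200 (.cons 5248 3456 (.cons 5184 3712 (.cons 5120 3904 .nil)))))))))),.nil,.nil⟩
def c55 : Cls := ⟨5048,5792,5616,5656,(.cons 6144 2360 .nil),(.cons 6144 2040 (.cons 5616 2176 (.cons 5568 2304 (.cons 5504 2432 (.cons 5440 2944 (.cons 5376 3072 (.cons 5312 3200 (.cons 5248 3456 (.cons 5184 3712 (.cons 5120 3904 .nil)))))))))),.nil,.nil⟩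
def c56 : Cls := ⟨5048,5792,5656,6144,(.cons 6144 2360 .nil),(.cons 6144 2040 (.cons 5616 2176 (.cons 5568 2304 (.cons 5504 2432 (.cons 5440 2944 (.cons 5376 3072 (.cons 5312 3200 (.cons 5248 3456 (.cons 5184 3712 (.cons 5120 3904 .nil)))))))))),.nil,.nil⟩
def c57 : Cls := ⟨5048,5152,5656,6144,(.cons 6144 2360 .nil),(.cons 6144 2040 (.cons 5616 2176 (.cons 5568 2304 (.cons 5504 2432 (.cons 5440 2944 (.cons 5376 3072 (.cons 5312 3200 (.cons 5248 3456 (.cons 5184 3712 (.cons 5120 3904 .nil)))))))))),.nil,.nil⟩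
def c58 : Cls := ⟨5152,5792,5656,6144,(.cons 6144 2360 .nil),(.cons 6144 2040 (.cons 5616 2176 (.cons 5568 2304 (.cons 5504 2432 (.cons 5440 2944 (.cons 5376 3072 (.cons 5312 3200 (.cons 5248 3456 (.cons 5184 3712 (.cons 5120 3904 .nil)))))))))),.nil,.nil⟩
def c59 : Cls := ⟨5152,5792,5656,6144,(.cons 6144 2088 .nil),(.cons 6144 2040 (.cons 5616 2176 (.cons 5568 2304 (.cons 5504 2432 (.cons 5440 2944 (.cons 5376 3072 (.cons 5312 3200 (.cons 5248 3456 (.cons 5184 3712 (.cons 5120 3904 .nil)))))))))),.nil,.nil⟩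
def c60 : Cls := ⟨5152,5792,5656,6144,(.cons 6144 2360 .nil),(.cons 6144 2088 (.cons 5616 2176 (.cons 5568 2304 (.cons 5504 2432 (.cons 5440 2944 (.cons 5376 3072 (.cons 5312 3200 (.cons 5248 3456 (.cons 5184 3712 (.cons 5120 3904 .nil)))))))))),.nil,.nil⟩
def c61 : Cls := ⟨5152,5792,5656,5688,(.cons 6144 2360 .nil),(.cons 6144 2088 (.cons 5616 2176 (.cons 5568 2304 (.cons 5504 2432 (.cons 5440 2944 (.cons 5376 3072 (.cons 5312 3200 (.cons 5248 3456 (.cons 5184 3712 (.cons 5120 3904 .nil)))))))))),.nil,.nil⟩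
def c62 : Cls := ⟨5152,5792,5688,6144,(.cons 6144 2360 .nil),(.cons 6144 2088 (.cons 5616 2176 (.cons 5568 2304 (.cons 5504 2432 (.cons 5440 2944 (.cons 5376 3072 (.cons 5312 3200 (.cons 5248 3456 (.cons 5184 3712 (.cons 5120 3904 .nil)))))))))),.nil,.nil⟩
def c63 : Cls := ⟨5696,5792,5688,6144,(.cons 6144 2360 .nil),(.cons 6144 2088 (.cons 5616 2176 (.cons 5568 2304 (.cons 5504 2432 (.cons 5440 2944 (.cons 5376 3072 (.cons 5312 3200 (.cons 5248 3456 (.cons 5184 3712 (.cons 5120 3904 .nil)))))))))),.nil,.nil⟩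
def c64 : Cls := ⟨5152,5696,5688,6144,(.cons 6144 2360 .nil),(.cons 6144 2088 (.cons 5616 2176 (.cons 5568 2304 (.cons 5504 2432 (.cons 5440 2944 (.cons 5376 3072 (.cons 5312 3200 (.cons 5248 3456 (.cons 5184 3712 (.cons 5120 3904 .nil)))))))))),.nil,.nil⟩
def c65 : Cls := ⟨5152,5696,5688,6144,(.cons 6144 2112 .nil),(.cons 6144 2088 (.cons 5616 2176 (.cons 5568 2304 (.cons 5504 2432 (.cons 5440 2944 (.cons 5376 3072 (.cons 5312 3200 (.cons 5248 3456 (.cons 5184 3712 (.cons 5120 3904 .nil)))))))))),.nil,.nil⟩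
def c66 : Cls := ⟨5152,5696,5688,6144,(.cons 6144 2360 .nil),(.cons 6144 2112 (.cons 5616 2176 (.cons 5568 2304 (.cons 5504 2432 (.cons 5440 2944 (.cons 5376 3072 (.cons 5312 3200 (.cons 5248 3456 (.cons 5184 3712 (.cons 5120 3904 .nil)))))))))),.nil,.nil⟩
def c67 : Cls := ⟨5152,5696,5688,6144,(.cons 6144 2360 .nil),(.cons 6144 2352 (.cons 5504 2432 (.cons 5440 2944 (.cons 5376 3072 (.cons 5312 3200 (.cons 5248 3456 (.cons 5184 3712 (.cons 5120 3904 .nil)))))))),.nil,.nil⟩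
def c68 : Cls := ⟨5152,5696,5688,6144,(.cons 6144 2352 .nil),(.cons 6144 2112 (.cons 5616 2176 (.cons 5568 2304 (.cons 5504 2432 (.cons 5440 2944 (.cons 5376 3072 (.cons 5312 3200 (.cons 5248 3456 (.cons 5184 3712 (.cons 5120 3904 .nil)))))))))),.nil,.nil⟩
def c69 : Cls := ⟨5152,5696,5688,6144,(.cons 6144 2232 .nil),(.cons 6144 2112 (.cons 5616 2176 (.cons 5568 2304 (.cons 5504 2432 (.cons 5440 2944 (.cons 5376 3072 (.cons 5312 3200 (.cons 5248 3456 (.cons 5184 3712 (.cons 5120 3904 .nil)))))))))),.nil,.nil⟩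
def c70 : Cls := ⟨5152,5696,5688,6144,(.cons 6144 2352 .nil),(.cons 6144 2232 (.cons 5568 2304 (.cons 5504 2432 (.cons 5440 2944 (.cons 5376 3072 (.cons 5312 3200 (.cons 5248 3456 (.cons 5184 3712 (.cons 5120 3904 .nil))))))))),.nil,.nil⟩
def c71 : Cls := ⟨5152,5312,5688,6144,(.cons 6144 2232 .nil),(.cons 6144 2112 (.cons 5616 2176 (.cons 5568 2304 (.cons 5504 2432 (.cons 5440 2944 (.cons 5376 3072 (.cons 5312 3200 (.cons 5248 3456 (.cons 5184 3712 (.cons 5120 3904 .nil)))))))))),.nil,.nil⟩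
def c72 : Cls := ⟨5312,5696,5688,6144,(.cons 6144 2232 .nil),(.cons 6144 2112 (.cons 5616 2176 (.cons 5568 2304 (.cons 5504 2432 (.cons 5440 2944 (.cons 5376 3072 (.cons 5312 3200 (.cons 5248 3456 (.cons 5184 3712 (.cons 5120 3904 .nil)))))))))),.nil,.nil⟩
def c73 : Cls := ⟨5656,5696,5688,6144,(.cons 6144 2232 .nil),(.cons 6144 2112 (.cons 5616 2176 (.cons 5568 2304 (.cons 5504 2432 (.cons 5440 2944 (.cons 5376 3072 (.cons 5312 3200 (.cons 5248 3456 (.cons 5184 3712 (.cons 5120 3904 .nil)))))))))),.nil,.nil⟩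
def c74 : Cls := ⟨5312,5656,5688,6144,(.cons 6144 2232 .nil),(.cons 6144 2112 (.cons 5616 2176 (.cons 5568 2304 (.cons 5504 2432 (.cons 5440 2944 (.cons 5376 3072 (.cons 5312 3200 (.cons 5248 3456 (.cons 5184 3712 (.cons 5120 3904 .nil)))))))))),.nil,.nil⟩
def c75 : Cls := ⟨5312,5656,5688,6144,(.cons 6144 2128 .nil),(.cons 6144 2112 (.cons 5616 2176 (.cons 5568 2304 (.cons 5504 2432 (.cons 5440 2944 (.cons 5376 3072 (.cons 5312 3200 (.cons 5248 3456 (.cons 5184 3712 (.cons 5120 3904 .nil)))))))))),.nil,.nil⟩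
def c76 : Cls := ⟨5312,5656,5688,6144,(.cons 6144 2232 .nil),(.cons 6144 2128 (.cons 5616 2176 (.cons 5568 2304 (.cons 5504 2432 (.cons 5440 2944 (.cons 5376 3072 (.cons 5312 3200 (.cons 5248 3456 (.cons 5184 3712 (.cons 5120 3904 .nil)))))))))),.nil,.nil⟩
def c77 : Cls := ⟨5312,5656,5688,5824,(.cons 6144 2232 .nil),(.cons 6144 2128 (.cons 5616 2176 (.cons 5568 2304 (.cons 5504 2432 (.cons 5440 2944 (.cons 5376 3072 (.cons 5312 3200 (.cons 5248 3456 (.cons 5184 3712 (.cons 5120 3904 .nil)))))))))),.nil,.nil⟩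
def c78 : Cls := ⟨5312,5656,5824,6144,(.cons 6144 2232 .nil),(.cons 6144 2128 (.cons 5616 2176 (.cons 5568 2304 (.cons 5504 2432 (.cons 5440 2944 (.cons 5376 3072 (.cons 5312 3200 (.cons 5248 3456 (.cons 5184 3712 (.cons 5120 3904 .nil)))))))))),.nil,.nil⟩
def c79 : Cls := ⟨5312,5656,5824,6144,(.cons 6144 2232 .nil),(.cons 6144 2128 (.cons 5616 2176 (.cons 5568 2304 (.cons 5504 2432 (.cons 5440 3456 (.cons 5376 3584 (.cons 5184 3712 (.cons 5120 3904 .nil)))))))),.nil,.nil⟩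
def c80 : Cls := ⟨5312,5656,5824,6144,(.cons 6144 2232 .nil),(.cons 6144 2128 (.cons 5616 2176 (.cons 5568 2688 (.cons 5504 2816 (.cons 5440 3456 (.cons 5376 3584 (.cons 5184 3712 (.cons 5120 3904 .nil)))))))),.nil,.nil⟩
def c81 : Cls := ⟨5312,5656,5824,6144,(.cons 6144 2232 .nil),(.cons 6144 2128 (.cons 5696 2432 (.cons 5568 2688 (.cons 5504 2816 (.cons 5440 3456 (.cons 5376 3584 (.cons 5184 3712 (.cons 5120 3904 .nil)))))))),.nil,.nil⟩
def c82 : Cls := ⟨5312,5656,5824,6144,(.cons 5760 3072 (.cons 6144 2232 .nil)),(.cons 6144 2128 (.cons 5696 2432 (.cons 5568 2688 (.cons 5504 2816 (.cons 5440 3456 (.cons 5376 3584 (.cons 5184 3712 (.cons 5120 3904 .nil)))))))),.nil,.nil⟩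
def c83 : Cls := ⟨5312,5336,5824,6144,(.cons 5760 3072 (.cons 6144 2232 .nil)),(.cons 6144 2128 (.cons 5696 2432 (.cons 5568 2688 (.cons 5504 2816 (.cons 5440 3456 (.cons 5376 3584 (.cons 5184 3712 (.cons 5120 3904 .nil)))))))),.nil,.nil⟩
def c84 : Cls := ⟨5336,5656,5824,6144,(.cons 5760 3072 (.cons 6144 2232 .nil)),(.cons 6144 2128 (.cons 5696 2432 (.cons 5568 2688 (.cons 5504 2816 (.cons 5440 3456 (.cons 5376 3584 (.cons 5184 3712 (.cons 5120 3904 .nil)))))))),.nil,.nil⟩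
def c85 : Cls := ⟨5336,5656,5824,6144,(.cons 5760 3072 (.cons 6144 2136 .nil)),(.cons 6144 2128 (.cons 5696 2432 (.cons 5568 2688 (.cons 5504 2816 (.cons 5440 3456 (.cons 5376 3584 (.cons 5184 3712 (.cons 5120 3904 .nil)))))))),.nil,.nil⟩
def c86 : Cls := ⟨5336,5656,5824,6144,(.cons 5760 3072 (.cons 6144 2232 .nil)),(.cons 6144 2136 (.cons 5696 2432 (.cons 5568 2688 (.cons 5504 2816 (.cons 5440 3456 (.cons 5376 3584 (.cons 5184 3712 (.cons 5120 3904 .nil)))))))),.nil,.nil⟩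
def c87 : Cls := ⟨5336,5656,5824,5872,(.cons 5760 3072 (.cons 6144 2232 .nil)),(.cons 6144 2136 (.cons 5696 2432 (.cons 5568 2688 (.cons 5504 2816 (.cons 5440 3456 (.cons 5376 3584 (.cons 5184 3712 (.cons 5120 3904 .nil)))))))),.nil,.nil⟩
def c88 : Cls := ⟨5336,5656,5872,6144,(.cons 5760 3072 (.cons 6144 2232 .nil)),(.cons 6144 2136 (.cons 5696 2432 (.cons 5568 2688 (.cons 5504 2816 (.cons 5440 3456 (.cons 5376 3584 (.cons 5184 3712 (.cons 5120 3904 .nil)))))))),.nil,.nil⟩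
def c89 : Cls := ⟨5640,5656,5872,6144,(.cons 5760 3072 (.cons 6144 2232 .nil)),(.cons 6144 2136 (.cons 5696 2432 (.cons 5568 2688 (.cons 5504 2816 (.cons 5440 3456 (.cons 5376 3584 (.cons 5184 3712 (.cons 5120 3904 .nil)))))))),.nil,.nil⟩
def c90 : Cls := ⟨5336,5640,5872,6144,(.cons 5760 3072 (.cons 6144 2232 .nil)),(.cons 6144 2136 (.cons 5696 2432 (.cons 5568 2688 (.cons 5504 2816 (.cons 5440 3456 (.cons 5376 3584 (.cons 5184 3712 (.cons 5120 3904 .nil)))))))),.nil,.nil⟩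
def c91 : Cls := ⟨5336,5640,5872,6144,(.cons 5760 3072 (.cons 6144 2144 .nil)),(.cons 6144 2136 (.cons 5696 2432 (.cons 5568 2688 (.cons 5504 2816 (.cons 5440 3456 (.cons 5376 3584 (.cons 5184 3712 (.cons 5120 3904 .nil)))))))),.nil,.nil⟩
def c92 : Cls := ⟨5336,5640,5872,6144,(.cons 5760 3072 (.cons 6144 2232 .nil)),(.cons 6144 2144 (.cons 5696 2432 (.cons 5568 2688 (.cons 5504 2816 (.cons 5440 3456 (.cons 5376 3584 (.cons 5184 3712 (.cons 5120 3904 .nil)))))))),.nil,.nil⟩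
def c93 : Cls := ⟨5336,5640,5872,6144,(.cons 5760 3072 (.cons 6144 2192 .nil)),(.cons 6144 2144 (.cons 5696 2432 (.cons 5568 2688 (.cons 5504 2816 (.cons 5440 3456 (.cons 5376 3584 (.cons 5184 3712 (.cons 5120 3904 .nil)))))))),.nil,.nil⟩
def c94 : Cls := ⟨5336,5640,5872,6144,(.cons 5760 3072 (.cons 6144 2232 .nil)),(.cons 6144 2192 (.cons 5696 2432 (.cons 5568 2688 (.cons 5504 2816 (.cons 5440 3456 (.cons 5376 3584 (.cons 5184 3712 (.cons 5120 3904 .nil)))))))),.nil,.nil⟩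
def c95 : Cls := ⟨5336,5400,5872,6144,(.cons 5760 3072 (.cons 6144 2192 .nil)),(.cons 6144 2144 (.cons 5696 2432 (.cons 5568 2688 (.cons 5504 2816 (.cons 5440 3456 (.cons 5376 3584 (.cons 5184 3712 (.cons 5120 3904 .nil)))))))),.nil,.nil⟩
def c96 : Cls := ⟨5400,5640,5872,6144,(.cons 5760 3072 (.cons 6144 2192 .nil)),(.cons 6144 2144 (.cons 5696 2432 (.cons 5568 2688 (.cons 5504 2816 (.cons 5440 3456 (.cons 5376 3584 (.cons 5184 3712 (.cons 5120 3904 .nil)))))))),.nil,.nil⟩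
def c97 : Cls := ⟨5624,5640,5872,6144,(.cons 5760 3072 (.cons 6144 2192 .nil)),(.cons 6144 2144 (.cons 5696 2432 (.cons 5568 2688 (.cons 5504 2816 (.cons 5440 3456 (.cons 5376 3584 (.cons 5184 3712 (.cons 5120 3904 .nil)))))))),.nil,.nil⟩
def c98 : Cls := ⟨5400,5624,5872,6144,(.cons 5760 3072 (.cons 6144 2192 .nil)),(.cons 6144 2144 (.cons 5696 2432 (.cons 5568 2688 (.cons 5504 2816 (.cons 5440 3456 (.cons 5376 3584 (.cons 5184 3712 (.cons 5120 3904 .nil)))))))),.nil,.nil⟩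
def c99 : Cls := ⟨5400,5624,5872,5952,(.cons 5760 3072 (.cons 6144 2192 .nil)),(.cons 6144 2144 (.cons 5696 2432 (.cons 5568 2688 (.cons 5504 2816 (.cons 5440 3456 (.cons 5376 3584 (.cons 5184 3712 (.cons 5120 3904 .nil)))))))),.nil,.nil⟩
def c100 : Cls := ⟨5400,5624,5952,6144,(.cons 5760 3072 (.cons 6144 2192 .nil)),(.cons 6144 2144 (.cons 5696 2432 (.cons 5568 2688 (.cons 5504 2816 (.cons 5440 3456 (.cons 5376 3584 (.cons 5184 3712 (.cons 5120 3904 .nil)))))))),.nil,.nil⟩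
def c101 : Cls := ⟨5400,5624,5952,6144,(.cons 5760 3072 (.cons 6144 2192 .nil)),(.cons 6144 2144 (.cons 5696 2432 (.cons 5568 2688 (.cons 5504 3456 (.cons 5440 3776 (.cons 5120 3904 .nil)))))),.nil,.nil⟩
def c102 : Cls := ⟨5400,5624,5952,6144,(.cons 5696 3776 (.cons 5760 2944 (.cons 6144 2192 .nil))),(.cons 6144 2144 (.cons 5696 2432 (.cons 5568 2688 (.cons 5504 3456 (.cons 5440 3776 (.cons 5120 3904 .nil)))))),.nil,.nil⟩
def c103 : Cls := ⟨5400,5624,5952,6144,(.cons 5696 3776 (.cons 5760 2944 (.cons 5824 2688 (.cons 6144 2192 .nil)))),(.cons 6144 2144 (.cons 5696 2432 (.cons 5568 2688 (.cons 5504 3456 (.cons 5440 3776 (.cons 5120 3904 .nil)))))),.nil,.nil⟩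
def c104 : Cls := ⟨5400,5416,5952,6144,(.cons 5696 3776 (.cons 5760 2944 (.cons 5824 2688 (.cons 6144 2192 .nil)))),(.cons 6144 2144 (.cons 5696 2432 (.cons 5568 2688 (.cons 5504 3456 (.cons 5440 3776 (.cons 5120 3904 .nil)))))),.nil,.nil⟩
def c105 : Cls := ⟨5416,5624,5952,6144,(.cons 5696 3776 (.cons 5760 2944 (.cons 5824 2688 (.cons 6144 2192 .nil)))),(.cons 6144 2144 (.cons 5696 2432 (.cons 5568 2688 (.cons 5504 3456 (.cons 5440 3776 (.cons 5120 3904 .nil)))))),.nil,.nil⟩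
def c106 : Cls := ⟨5416,5624,5952,5976,(.cons 5696 3776 (.cons 5760 2944 (.cons 5824 2688 (.cons 6144 2192 .nil)))),(.cons 6144 2144 (.cons 5696 2432 (.cons 5568 2688 (.cons 5504 3456 (.cons 5440 3776 (.cons 5120 3904 .nil)))))),.nil,.nil⟩
def c107 : Cls := ⟨5416,5624,5976,6144,(.cons 5696 3776 (.cons 5760 2944 (.cons 5824 2688 (.cons 6144 2192 .nil)))),(.cons 6144 2144 (.cons 5696 2432 (.cons 5568 2688 (.cons 5504 3456 (.cons 5440 3776 (.cons 5120 3904 .nil)))))),.nil,.nil⟩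
def c108 : Cls := ⟨5416,5624,5976,6144,(.cons 5696 3776 (.cons 5760 2944 (.cons 5824 2688 (.cons 6144 2192 .nil)))),(.cons 6144 2144 (.cons 5824 2240 (.cons 5760 2304 (.cons 5696 2432 (.cons 5568 2688 (.cons 5504 3456 (.cons 5440 3776 (.cons 5120 3904 .nil)))))))),.nil,.nil⟩
def c109 : Cls := ⟨5416,5624,5976,6144,(.cons 5696 3776 (.cons 5760 2944 (.cons 5824 2688 (.cons 6144 2168 .nil)))),(.cons 6144 2144 (.cons 5824 2240 (.cons 5760 2304 (.cons 5696 2432 (.cons 5568 2688 (.cons 5504 3456 (.cons 5440 3776 (.cons 5120 3904 .nil)))))))),.nil,.nil⟩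
def c110 : Cls := ⟨5416,5624,5976,6144,(.cons 5696 3776 (.cons 5760 2944 (.cons 5824 2688 (.cons 6144 2192 .nil)))),(.cons 6144 2168 (.cons 5824 2240 (.cons 5760 2304 (.cons 5696 2432 (.cons 5568 2688 (.cons 5504 3456 (.cons 5440 3776 (.cons 5120 3904 .nil)))))))),.nil,.nil⟩
def c111 : Cls := ⟨5416,5480,5976,6144,(.cons 5696 3776 (.cons 5760 2944 (.cons 5824 2688 (.cons 6144 2168 .nil)))),(.cons 6144 2144 (.cons 5824 2240 (.cons 5760 2304 (.cons 5696 2432 (.cons 5568 2688 (.cons 5504 3456 (.cons 5440 3776 (.cons 5120 3904 .nil)))))))),.nil,.nil⟩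
def c112 : Cls := ⟨5480,5624,5976,6144,(.cons 5696 3776 (.cons 5760 2944 (.cons 5824 2688 (.cons 6144 2168 .nil)))),(.cons 6144 2144 (.cons 5824 2240 (.cons 5760 2304 (.cons 5696 2432 (.cons 5568 2688 (.cons 5504 3456 (.cons 5440 3776 (.cons 5120 3904 .nil)))))))),.nil,.nil⟩
def c113 : Cls := ⟨5592,5624,5976,6144,(.cons 5696 3776 (.cons 5760 2944 (.cons 5824 2688 (.cons 6144 2168 .nil)))),(.cons 6144 2144 (.cons 5824 2240 (.cons 5760 2304 (.cons 5696 2432 (.cons 5568 2688 (.cons 5504 3456 (.cons 5440 3776 (.cons 5120 3904 .nil)))))))),.nil,.nil⟩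
def c114 : Cls := ⟨5480,5592,5976,6144,(.cons 5696 3776 (.cons 5760 2944 (.cons 5824 2688 (.cons 6144 2168 .nil)))),(.cons 6144 2144 (.cons 5824 2240 (.cons 5760 2304 (.cons 5696 2432 (.cons 5568 2688 (.cons 5504 3456 (.cons 5440 3776 (.cons 5120 3904 .nil)))))))),.nil,.nil⟩
def c115 : Cls := ⟨5480,5592,5976,6144,(.cons 5696 3776 (.cons 5760 2944 (.cons 5824 2688 (.cons 6144 2152 .nil)))),(.cons 6144 2144 (.cons 5824 2240 (.cons 5760 2304 (.cons 5696 2432 (.cons 5568 2688 (.cons 5504 3456 (.cons 5440 3776 (.cons 5120 3904 .nil)))))))),.nil,.nil⟩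
def c116 : Cls := ⟨5480,5592,5976,6144,(.cons 5696 3776 (.cons 5760 2944 (.cons 5824 2688 (.cons 6144 2168 .nil)))),(.cons 6144 2152 (.cons 5824 2240 (.cons 5760 2304 (.cons 5696 2432 (.cons 5568 2688 (.cons 5504 3456 (.cons 5440 3776 (.cons 5120 3904 .nil)))))))),.nil,.nil⟩
def c117 : Cls := ⟨5480,5592,5976,6072,(.cons 5696 3776 (.cons 5760 2944 (.cons 5824 2688 (.cons 6144 2168 .nil)))),(.cons 6144 2152 (.cons 5824 2240 (.cons 5760 2304 (.cons 5696 2432 (.cons 5568 2688 (.cons 5504 3456 (.cons 5440 3776 (.cons 5120 3904 .nil)))))))),.nil,.nil⟩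
def c118 : Cls := ⟨5480,5592,6072,6144,(.cons 5696 3776 (.cons 5760 2944 (.cons 5824 2688 (.cons 6144 2168 .nil)))),(.cons 6144 2152 (.cons 5824 2240 (.cons 5760 2304 (.cons 5696 2432 (.cons 5568 2688 (.cons 5504 3456 (.cons 5440 3776 (.cons 5120 3904 .nil)))))))),.nil,.nil⟩
def c119 : Cls := ⟨5480,5592,6072,6144,(.cons 5696 3776 (.cons 5760 2944 (.cons 5824 2688 (.cons 6144 2168 .nil)))),(.cons 6144 2152 (.cons 5824 2240 (.cons 5760 2304 (.cons 5696 2432 (.cons 5600 2688 (.cons 5568 2944 (.cons 5504 3584 (.cons 5440 3776 (.cons 5120 3904 .nil))))))))),.nil,.nil⟩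
def c120 : Cls := ⟨5480,5592,6072,6144,(.cons 5696 3776 (.cons 5760 2944 (.cons 5824 2688 (.cons 6144 2168 .nil)))),(.cons 6144 2152 (.cons 5824 2240 (.cons 5760 2368 (.cons 5696 2560 (.cons 5600 2688 (.cons 5568 2944 (.cons 5504 3584 (.cons 5440 3776 (.cons 5120 3904 .nil))))))))),.nil,.nil⟩
def c121 : Cls := ⟨5480,5592,6072,6144,(.cons 5696 3776 (.cons 5760 2944 (.cons 5824 2688 (.cons 6144 2168 .nil)))),(.cons 6144 2152 (.cons 5888 2304 (.cons 5824 2368 (.cons 5696 2560 (.cons 5600 2688 (.cons 5568 2944 (.cons 5504 3584 (.cons 5440 3776 (.cons 5120 3904 .nil))))))))),.nil,.nil⟩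
def c122 : Cls := ⟨5416,5440,5976,6144,(.cons 5696 3776 (.cons 5760 2944 (.cons 5824 2688 (.cons 6144 2192 .nil)))),(.cons 6144 2168 (.cons 5824 2240 (.cons 5760 2304 (.cons 5696 2432 (.cons 5568 2688 (.cons 5504 3456 (.cons 5440 3776 (.cons 5120 3904 .nil)))))))),.nil,.nil⟩
def c123 : Cls := ⟨5440,5624,5976,6144,(.cons 5696 3776 (.cons 5760 2944 (.cons 5824 2688 (.cons 6144 2192 .nil)))),(.cons 6144 2168 (.cons 5824 2240 (.cons 5760 2304 (.cons 5696 2432 (.cons 5568 2688 (.cons 5504 3456 (.cons 5440 3776 (.cons 5120 3904 .nil)))))))),.nil,.nil⟩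
def c124 : Cls := ⟨5600,5624,5976,6144,(.cons 5696 3776 (.cons 5760 2944 (.cons 5824 2688 (.cons 6144 2192 .nil)))),(.cons 6144 2168 (.cons 5824 2240 (.cons 5760 2304 (.cons 5696 2432 (.cons 5568 2688 (.cons 5504 3456 (.cons 5440 3776 (.cons 5120 3904 .nil)))))))),.nil,.nil⟩
def c125 : Cls := ⟨5440,5600,5976,6144,(.cons 5696 3776 (.cons 5760 2944 (.cons 5824 2688 (.cons 6144 2192 .nil)))),(.cons 6144 2168 (.cons 5824 2240 (.cons 5760 2304 (.cons 5696 2432 (.cons 5568 2688 (.cons 5504 3456 (.cons 5440 3776 (.cons 5120 3904 .nil)))))))),.nil,.nil⟩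
def c126 : Cls := ⟨5440,5600,5976,6008,(.cons 5696 3776 (.cons 5760 2944 (.cons 5824 2688 (.cons 6144 2192 .nil)))),(.cons 6144 2168 (.cons 5824 2240 (.cons 5760 2304 (.cons 5696 2432 (.cons 5568 2688 (.cons 5504 3456 (.cons 5440 3776 (.cons 5120 3904 .nil)))))))),.nil,.nil⟩
def c127 : Cls := ⟨5440,5600,6008,6144,(.cons 5696 3776 (.cons 5760 2944 (.cons 5824 2688 (.cons 6144 2192 .nil)))),(.cons 6144 2168 (.cons 5824 2240 (.cons 5760 2304 (.cons 5696 2432 (.cons 5568 2688 (.cons 5504 3456 (.cons 5440 3776 (.cons 5120 3904 .nil)))))))),.nil,.nil⟩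
def c128 : Cls := ⟨5440,5600,6008,6144,(.cons 5600 3968 (.cons 5632 3840 (.cons 5696 3712 (.cons 5760 2944 (.cons 5824 2688 (.cons 6144 2192 .nil)))))),(.cons 6144 2168 (.cons 5824 2240 (.cons 5760 2304 (.cons 5696 2432 (.cons 5568 2688 (.cons 5504 3456 (.cons 5440 3776 (.cons 5120 3904 .nil)))))))),.nil,.nil⟩
def c129 : Cls := ⟨5440,5600,6008,6144,(.cons 5600 3968 (.cons 5632 3840 (.cons 5696 3712 (.cons 5760 2944 (.cons 5824 2688 (.cons 5888 2432 (.cons 6144 2192 .nil))))))),(.cons 6144 2168 (.cons 5824 2240 (.cons 5760 2304 (.cons 5696 2432 (.cons 5568 2688 (.cons 5504 3456 (.cons 5440 3776 (.cons 5120 3904 .nil)))))))),.nil,.nil⟩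
def c130 : Cls := ⟨5440,5456,6008,6144,(.cons 5600 3968 (.cons 5632 3840 (.cons 5696 3712 (.cons 5760 2944 (.cons 5824 2688 (.cons 5888 2432 (.cons 6144 2192 .nil))))))),(.cons 6144 2168 (.cons 5824 2240 (.cons 5760 2304 (.cons 5696 2432 (.cons 5568 2688 (.cons 5504 3456 (.cons 5440 3776 (.cons 5120 3904 .nil)))))))),.nil,.nil⟩
def c131 : Cls := ⟨5456,5600,6008,6144,(.cons 5600 3968 (.cons 5632 3840 (.cons 5696 3712 (.cons 5760 2944 (.cons 5824 2688 (.cons 5888 2432 (.cons 6144 2192 .nil))))))),(.cons 6144 2168 (.cons 5824 2240 (.cons 5760 2304 (.cons 5696 2432 (.cons 5568 2688 (.cons 5504 3456 (.cons 5440 3776 (.cons 5120 3904 .nil)))))))),.nil,.nil⟩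
def c132 : Cls := ⟨5456,5600,6008,6016,(.cons 5600 3968 (.cons 5632 3840 (.cons 5696 3712 (.cons 5760 2944 (.cons 5824 2688 (.cons 5888 2432 (.cons 6144 2192 .nil))))))),(.cons 6144 2168 (.cons 5824 2240 (.cons 5760 2304 (.cons 5696 2432 (.cons 5568 2688 (.cons 5504 3456 (.cons 5440 3776 (.cons 5120 3904 .nil)))))))),.nil,.nil⟩
def c133 : Cls := ⟨5456,5600,6016,6144,(.cons 5600 3968 (.cons 5632 3840 (.cons 5696 3712 (.cons 5760 2944 (.cons 5824 2688 (.cons 5888 2432 (.cons 6144 2192 .nil))))))),(.cons 6144 2168 (.cons 5824 2240 (.cons 5760 2304 (.cons 5696 2432 (.cons 5568 2688 (.cons 5504 3456 (.cons 5440 3776 (.cons 5120 3904 .nil)))))))),.nil,.nil⟩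
def c134 : Cls := ⟨5456,5600,6016,6144,(.cons 5600 3968 (.cons 5632 3840 (.cons 5696 3712 (.cons 5760 2944 (.cons 5824 2688 (.cons 5888 2432 (.cons 6144 2192 .nil))))))),(.cons 6144 2168 (.cons 5824 2240 (.cons 5760 2304 (.cons 5696 2560 (.cons 5568 2688 (.cons 5504 3456 (.cons 5440 3776 (.cons 5120 3904 .nil)))))))),.nil,.nil⟩
def c135 : Cls := ⟨5456,5600,6016,6144,(.cons 5600 3840 (.cons 5632 3776 (.cons 5664 3712 (.cons 5696 3584 (.cons 5760 2944 (.cons 5824 2688 (.cons 5888 2432 (.cons 6144 2192 .nil)))))))),(.cons 6144 2168 (.cons 5824 2240 (.cons 5760 2304 (.cons 5696 2560 (.cons 5568 2688 (.cons 5504 3456 (.cons 5440 3776 (.cons 5120 3904 .nil)))))))),.nil,.nil⟩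
def c136 : Cls := ⟨5456,5600,6016,6024,(.cons 5600 3840 (.cons 5632 3776 (.cons 5664 3712 (.cons 5696 3584 (.cons 5760 2944 (.cons 5824 2688 (.cons 5888 2432 (.cons 6144 2192 .nil)))))))),(.cons 6144 2168 (.cons 5824 2240 (.cons 5760 2304 (.cons 5696 2560 (.cons 5568 2688 (.cons 5504 3456 (.cons 5440 3776 (.cons 5120 3904 .nil)))))))),.nil,.nil⟩
def c137 : Cls := ⟨5456,5600,6024,6144,(.cons 5600 3840 (.cons 5632 3776 (.cons 5664 3712 (.cons 5696 3584 (.cons 5760 2944 (.cons 5824 2688 (.cons 5888 2432 (.cons 6144 2192 .nil)))))))),(.cons 6144 2168 (.cons 5824 2240 (.cons 5760 2304 (.cons 5696 2560 (.cons 5568 2688 (.cons 5504 3456 (.cons 5440 3776 (.cons 5120 3904 .nil)))))))),.nil,.nil⟩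
def c138 : Cls := ⟨5456,5600,6024,6144,(.cons 5600 3840 (.cons 5632 3776 (.cons 5664 3712 (.cons 5696 3584 (.cons 5760 2944 (.cons 5824 2688 (.cons 5888 2432 (.cons 5920 2240 (.cons 6144 2192 .nil))))))))),(.cons 6144 2168 (.cons 5824 2240 (.cons 5760 2304 (.cons 5696 2560 (.cons 5568 2688 (.cons 5504 3456 (.cons 5440 3776 (.cons 5120 3904 .nil)))))))),.nil,.nil⟩
def c139 : Cls := ⟨5456,5600,6024,6144,(.cons 5600 3840 (.cons 5632 3776 (.cons 5664 3712 (.cons 5696 3584 (.cons 5760 2944 (.cons 5824 2688 (.cons 5888 2432 (.cons 6144 2192 .nil)))))))),(.cons 6144 2168 (.cons 5920 2240 (.cons 5760 2304 (.cons 5696 2560 (.cons 5568 2688 (.cons 5504 3456 (.cons 5440 3776 (.cons 5120 3904 .nil)))))))),.nil,.nil⟩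
def c140 : Cls := ⟨5456,5464,6024,6144,(.cons 5600 3840 (.cons 5632 3776 (.cons 5664 3712 (.cons 5696 3584 (.cons 5760 2944 (.cons 5824 2688 (.cons 5888 2432 (.cons 6144 2192 .nil)))))))),(.cons 6144 2168 (.cons 5920 2240 (.cons 5760 2304 (.cons 5696 2560 (.cons 5568 2688 (.cons 5504 3456 (.cons 5440 3776 (.cons 5120 3904 .nil)))))))),.nil,.nil⟩
def c141 : Cls := ⟨5464,5600,6024,6144,(.cons 5600 3840 (.cons 5632 3776 (.cons 5664 3712 (.cons 5696 3584 (.cons 5760 2944 (.cons 5824 2688 (.cons 5888 2432 (.cons 6144 2192 .nil)))))))),(.cons 6144 2168 (.cons 5920 2240 (.cons 5760 2304 (.cons 5696 2560 (.cons 5568 2688 (.cons 5504 3456 (.cons 5440 3776 (.cons 5120 3904 .nil)))))))),.nil,.nil⟩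
def c142 : Cls := ⟨5584,5600,6024,6144,(.cons 5600 3840 (.cons 5632 3776 (.cons 5664 3712 (.cons 5696 3584 (.cons 5760 2944 (.cons 5824 2688 (.cons 5888 2432 (.cons 6144 2192 .nil)))))))),(.cons 6144 2168 (.cons 5920 2240 (.cons 5760 2304 (.cons 5696 2560 (.cons 5568 2688 (.cons 5504 3456 (.cons 5440 3776 (.cons 5120 3904 .nil)))))))),.nil,.nil⟩
def c143 : Cls := ⟨5464,5584,6024,6144,(.cons 5600 3840 (.cons 5632 3776 (.cons 5664 3712 (.cons 5696 3584 (.cons 5760 2944 (.cons 5824 2688 (.cons 5888 2432 (.cons 6144 2192 .nil)))))))),(.cons 6144 2168 (.cons 5920 2240 (.cons 5760 2304 (.cons 5696 2560 (.cons 5568 2688 (.cons 5504 3456 (.cons 5440 3776 (.cons 5120 3904 .nil)))))))),.nil,.nil⟩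
def c144 : Cls := ⟨5464,5584,6024,6144,(.cons 5600 3840 (.cons 5632 3776 (.cons 5664 3712 (.cons 5696 3584 (.cons 5760 2944 (.cons 5824 2688 (.cons 5888 2432 (.cons 6144 2176 .nil)))))))),(.cons 6144 2168 (.cons 5920 2240 (.cons 5760 2304 (.cons 5696 2560 (.cons 5568 2688 (.cons 5504 3456 (.cons 5440 3776 (.cons 5120 3904 .nil)))))))),.nil,.nil⟩
def c145 : Cls := ⟨5464,5584,6024,6144,(.cons 5600 3840 (.cons 5632 3776 (.cons 5664 3712 (.cons 5696 3584 (.cons 5760 2944 (.cons 5824 2688 (.cons 5888 2432 (.cons 6144 2192 .nil)))))))),(.cons 6144 2176 (.cons 5920 2240 (.cons 5760 2304 (.cons 5696 2560 (.cons 5568 2688 (.cons 5504 3456 (.cons 5440 3776 (.cons 5120 3904 .nil)))))))),.nil,.nil⟩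
def c146 : Cls := ⟨5464,5584,6024,6048,(.cons 5600 3840 (.cons 5632 3776 (.cons 5664 3712 (.cons 5696 3584 (.cons 5760 2944 (.cons 5824 2688 (.cons 5888 2432 (.cons 6144 2192 .nil)))))))),(.cons 6144 2176 (.cons 5920 2240 (.cons 5760 2304 (.cons 5696 2560 (.cons 5568 2688 (.cons 5504 3456 (.cons 5440 3776 (.cons 5120 3904 .nil)))))))),.nil,.nil⟩
def c147 : Cls := ⟨5464,5584,6048,6144,(.cons 5600 3840 (.cons 5632 3776 (.cons 5664 3712 (.cons 5696 3584 (.cons 5760 2944 (.cons 5824 2688 (.cons 5888 2432 (.cons 6144 2192 .nil)))))))),(.cons 6144 2176 (.cons 5920 2240 (.cons 5760 2304 (.cons 5696 2560 (.cons 5568 2688 (.cons 5504 3456 (.cons 5440 3776 (.cons 5120 3904 .nil)))))))),.nil,.nil⟩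
def c148 : Cls := ⟨5464,5584,6048,6144,(.cons 5600 3840 (.cons 5632 3456 (.cons 5696 3328 (.cons 5760 2944 (.cons 5824 2688 (.cons 5888 2432 (.cons 6144 2192 .nil))))))),(.cons 6144 2176 (.cons 5920 2240 (.cons 5760 2304 (.cons 5696 2560 (.cons 5568 2688 (.cons 5504 3456 (.cons 5440 3776 (.cons 5120 3904 .nil)))))))),.nil,.nil⟩
def c149 : Cls := ⟨5464,5584,6048,6144,(.cons 5600 3840 (.cons 5632 3456 (.cons 5696 3328 (.cons 5760 2944 (.cons 5824 2688 (.cons 5888 2432 (.cons 5952 2304 (.cons 6144 2192 .nil)))))))),(.cons 6144 2176 (.cons 5920 2240 (.cons 5760 2304 (.cons 5696 2560 (.cons 5568 2688 (.cons 5504 3456 (.cons 5440 3776 (.cons 5120 3904 .nil)))))))),.nil,.nil⟩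
def c150 : Cls := ⟨5464,5480,6048,6144,(.cons 5600 3840 (.cons 5632 3456 (.cons 5696 3328 (.cons 5760 2944 (.cons 5824 2688 (.cons 5888 2432 (.cons 5952 2304 (.cons 6144 2192 .nil)))))))),(.cons 6144 2176 (.cons 5920 2240 (.cons 5760 2304 (.cons 5696 2560 (.cons 5568 2688 (.cons 5504 3456 (.cons 5440 3776 (.cons 5120 3904 .nil)))))))),.nil,.nil⟩
def c151 : Cls := ⟨5480,5584,6048,6144,(.cons 5600 3840 (.cons 5632 3456 (.cons 5696 3328 (.cons 5760 2944 (.cons 5824 2688 (.cons 5888 2432 (.cons 5952 2304 (.cons 6144 2192 .nil)))))))),(.cons 6144 2176 (.cons 5920 2240 (.cons 5760 2304 (.cons 5696 2560 (.cons 5568 2688 (.cons 5504 3456 (.cons 5440 3776 (.cons 5120 3904 .nil)))))))),.nil,.nil⟩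
def c152 : Cls := ⟨5576,5584,6048,6144,(.cons 5600 3840 (.cons 5632 3456 (.cons 5696 3328 (.cons 5760 2944 (.cons 5824 2688 (.cons 5888 2432 (.cons 5952 2304 (.cons 6144 2192 .nil)))))))),(.cons 6144 2176 (.cons 5920 2240 (.cons 5760 2304 (.cons 5696 2560 (.cons 5568 2688 (.cons 5504 3456 (.cons 5440 3776 (.cons 5120 3904 .nil)))))))),.nil,.nil⟩
def c153 : Cls := ⟨5480,5576,6048,6144,(.cons 5600 3840 (.cons 5632 3456 (.cons 5696 3328 (.cons 5760 2944 (.cons 5824 2688 (.cons 5888 2432 (.cons 5952 2304 (.cons 6144 2192 .nil)))))))),(.cons 6144 2176 (.cons 5920 2240 (.cons 5760 2304 (.cons 5696 2560 (.cons 5568 2688 (.cons 5504 3456 (.cons 5440 3776 (.cons 5120 3904 .nil)))))))),.nil,.nil⟩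
def c154 : Cls := ⟨5480,5576,6048,6144,(.cons 5600 3840 (.cons 5632 3456 (.cons 5696 3328 (.cons 5760 2944 (.cons 5824 2688 (.cons 5888 2432 (.cons 5952 2304 (.cons 6144 2184 .nil)))))))),(.cons 6144 2176 (.cons 5920 2240 (.cons 5760 2304 (.cons 5696 2560 (.cons 5568 2688 (.cons 5504 3456 (.cons 5440 3776 (.cons 5120 3904 .nil)))))))),.nil,.nil⟩
def c155 : Cls := ⟨5480,5576,6048,6144,(.cons 5600 3840 (.cons 5632 3456 (.cons 5696 3328 (.cons 5760 2944 (.cons 5824 2688 (.cons 5888 2432 (.cons 5952 2304 (.cons 6144 2192 .nil)))))))),(.cons 6144 2184 (.cons 5920 2240 (.cons 5760 2304 (.cons 5696 2560 (.cons 5568 2688 (.cons 5504 3456 (.cons 5440 3776 (.cons 5120 3904 .nil)))))))),.nil,.nil⟩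
def c156 : Cls := ⟨5480,5576,6048,6064,(.cons 5600 3840 (.cons 5632 3456 (.cons 5696 3328 (.cons 5760 2944 (.cons 5824 2688 (.cons 5888 2432 (.cons 5952 2304 (.cons 6144 2192 .nil)))))))),(.cons 6144 2184 (.cons 5920 2240 (.cons 5760 2304 (.cons 5696 2560 (.cons 5568 2688 (.cons 5504 3456 (.cons 5440 3776 (.cons 5120 3904 .nil)))))))),.nil,.nil⟩
def c157 : Cls := ⟨5480,5576,6064,6144,(.cons 5600 3840 (.cons 5632 3456 (.cons 5696 3328 (.cons 5760 2944 (.cons 5824 2688 (.cons 5888 2432 (.cons 5952 2304 (.cons 6144 2192 .nil)))))))),(.cons 6144 2184 (.cons 5920 2240 (.cons 5760 2304 (.cons 5696 2560 (.cons 5568 2688 (.cons 5504 3456 (.cons 5440 3776 (.cons 5120 3904 .nil)))))))),.nil,.nil⟩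
def c158 : Cls := ⟨5480,5576,6064,6144,(.cons 5600 3840 (.cons 5632 3328 (.cons 5696 3200 (.cons 5760 2816 (.cons 5824 2688 (.cons 5888 2432 (.cons 5952 2304 (.cons 6144 2192 .nil)))))))),(.cons 6144 2184 (.cons 5920 2240 (.cons 5760 2304 (.cons 5696 2560 (.cons 5568 2688 (.cons 5504 3456 (.cons 5440 3776 (.cons 5120 3904 .nil)))))))),.nil,.nil⟩
def c159 : Cls := ⟨5480,5576,6064,6144,(.cons 5600 3840 (.cons 5632 3328 (.cons 5696 3200 (.cons 5760 2816 (.cons 5824 2688 (.cons 5888 2432 (.cons 5952 2240 (.cons 6144 2192 .nil)))))))),(.cons 6144 2184 (.cons 5920 2240 (.cons 5760 2304 (.cons 5696 2560 (.cons 5568 2688 (.cons 5536 2816 (.cons 5504 3456 (.cons 5440 3776 (.cons 5120 3904 .nil))))))))),.nil,.nil⟩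
def c160 : Cls := ⟨5336,5384,5872,6144,(.cons 5760 3072 (.cons 6144 2232 .nil)),(.cons 6144 2192 (.cons 5696 2432 (.cons 5568 2688 (.cons 5504 2816 (.cons 5440 3456 (.cons 5376 3584 (.cons 5184 3712 (.cons 5120 3904 .nil)))))))),.nil,.nil⟩
def c161 : Cls := ⟨5384,5640,5872,6144,(.cons 5760 3072 (.cons 6144 2232 .nil)),(.cons 6144 2192 (.cons 5696 2432 (.cons 5568 2688 (.cons 5504 2816 (.cons 5440 3456 (.cons 5376 3584 (.cons 5184 3712 (.cons 5120 3904 .nil)))))))),.nil,.nil⟩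
def c162 : Cls := ⟨5616,5640,5872,6144,(.cons 5760 3072 (.cons 6144 2232 .nil)),(.cons 6144 2192 (.cons 5696 2432 (.cons 5568 2688 (.cons 5504 2816 (.cons 5440 3456 (.cons 5376 3584 (.cons 5184 3712 (.cons 5120 3904 .nil)))))))),.nil,.nil⟩
def c163 : Cls := ⟨5384,5616,5872,6144,(.cons 5760 3072 (.cons 6144 2232 .nil)),(.cons 6144 2192 (.cons 5696 2432 (.cons 5568 2688 (.cons 5504 2816 (.cons 5440 3456 (.cons 5376 3584 (.cons 5184 3712 (.cons 5120 3904 .nil)))))))),.nil,.nil⟩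
def c164 : Cls := ⟨5384,5616,5872,5928,(.cons 5760 3072 (.cons 6144 2232 .nil)),(.cons 6144 2192 (.cons 5696 2432 (.cons 5568 2688 (.cons 5504 2816 (.cons 5440 3456 (.cons 5376 3584 (.cons 5184 3712 (.cons 5120 3904 .nil)))))))),.nil,.nil⟩
def c165 : Cls := ⟨5384,5616,5928,6144,(.cons 5760 3072 (.cons 6144 2232 .nil)),(.cons 6144 2192 (.cons 5696 2432 (.cons 5568 2688 (.cons 5504 2816 (.cons 5440 3456 (.cons 5376 3584 (.cons 5184 3712 (.cons 5120 3904 .nil)))))))),.nil,.nil⟩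
def c166 : Cls := ⟨5384,5616,5928,6144,(.cons 5760 3072 (.cons 6144 2232 .nil)),(.cons 6144 2192 (.cons 5696 2432 (.cons 5568 2688 (.cons 5504 3200 (.cons 5440 3584 (.cons 5184 3712 (.cons 5120 3904 .nil))))))),.nil,.nil⟩
def c167 : Cls := ⟨5384,5616,5928,6144,(.cons 5696 3712 (.cons 5760 2944 (.cons 6144 2232 .nil))),(.cons 6144 2192 (.cons 5696 2432 (.cons 5568 2688 (.cons 5504 3200 (.cons 5440 3584 (.cons 5184 3712 (.cons 5120 3904 .nil))))))),.nil,.nil⟩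
def c168 : Cls := ⟨5384,5616,5928,6144,(.cons 5696 3712 (.cons 5760 2944 (.cons 5824 2688 (.cons 6144 2232 .nil)))),(.cons 6144 2192 (.cons 5696 2432 (.cons 5568 2688 (.cons 5504 3200 (.cons 5440 3584 (.cons 5184 3712 (.cons 5120 3904 .nil))))))),.nil,.nil⟩
def c169 : Cls := ⟨5384,5616,5928,5944,(.cons 5696 3712 (.cons 5760 2944 (.cons 5824 2688 (.cons 6144 2232 .nil)))),(.cons 6144 2192 (.cons 5696 2432 (.cons 5568 2688 (.cons 5504 3200 (.cons 5440 3584 (.cons 5184 3712 (.cons 5120 3904 .nil))))))),.nil,.nil⟩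
def c170 : Cls := ⟨5384,5616,5944,6144,(.cons 5696 3712 (.cons 5760 2944 (.cons 5824 2688 (.cons 6144 2232 .nil)))),(.cons 6144 2192 (.cons 5696 2432 (.cons 5568 2688 (.cons 5504 3200 (.cons 5440 3584 (.cons 5184 3712 (.cons 5120 3904 .nil))))))),.nil,.nil⟩
def c171 : Cls := ⟨5384,5616,5944,6144,(.cons 5696 3712 (.cons 5760 2944 (.cons 5824 2368 (.cons 6144 2232 .nil)))),(.cons 6144 2192 (.cons 5696 2432 (.cons 5568 2688 (.cons 5504 3200 (.cons 5440 3584 (.cons 5184 3712 (.cons 5120 3904 .nil))))))),.nil,.nil⟩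
def c172 : Cls := ⟨5384,5616,5944,6144,(.cons 5696 3712 (.cons 5760 2944 (.cons 5824 2688 (.cons 6144 2232 .nil)))),(.cons 6144 2192 (.cons 5824 2368 (.cons 5696 2432 (.cons 5568 2688 (.cons 5504 3200 (.cons 5440 3584 (.cons 5184 3712 (.cons 5120 3904 .nil)))))))),.nil,.nil⟩
def c173 : Cls := ⟨5384,5456,5944,6144,(.cons 5696 3712 (.cons 5760 2944 (.cons 5824 2368 (.cons 6144 2232 .nil)))),(.cons 6144 2192 (.cons 5696 2432 (.cons 5568 2688 (.cons 5504 3200 (.cons 5440 3584 (.cons 5184 3712 (.cons 5120 3904 .nil))))))),.nil,.nil⟩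
def c174 : Cls := ⟨5456,5616,5944,6144,(.cons 5696 3712 (.cons 5760 2944 (.cons 5824 2368 (.cons 6144 2232 .nil)))),(.cons 6144 2192 (.cons 5696 2432 (.cons 5568 2688 (.cons 5504 3200 (.cons 5440 3584 (.cons 5184 3712 (.cons 5120 3904 .nil))))))),.nil,.nil⟩
def c175 : Cls := ⟨5584,5616,5944,6144,(.cons 5696 3712 (.cons 5760 2944 (.cons 5824 2368 (.cons 6144 2232 .nil)))),(.cons 6144 2192 (.cons 5696 2432 (.cons 5568 2688 (.cons 5504 3200 (.cons 5440 3584 (.cons 5184 3712 (.cons 5120 3904 .nil))))))),.nil,.nil⟩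
def c176 : Cls := ⟨5456,5584,5944,6144,(.cons 5696 3712 (.cons 5760 2944 (.cons 5824 2368 (.cons 6144 2232 .nil)))),(.cons 6144 2192 (.cons 5696 2432 (.cons 5568 2688 (.cons 5504 3200 (.cons 5440 3584 (.cons 5184 3712 (.cons 5120 3904 .nil))))))),.nil,.nil⟩
def c177 : Cls := ⟨5456,5584,5944,6144,(.cons 5696 3712 (.cons 5760 2944 (.cons 5824 2368 (.cons 6144 2208 .nil)))),(.cons 6144 2192 (.cons 5696 2432 (.cons 5568 2688 (.cons 5504 3200 (.cons 5440 3584 (.cons 5184 3712 (.cons 5120 3904 .nil))))))),.nil,.nil⟩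
def c178 : Cls := ⟨5456,5584,5944,6144,(.cons 5696 3712 (.cons 5760 2944 (.cons 5824 2368 (.cons 6144 2232 .nil)))),(.cons 6144 2208 (.cons 5696 2432 (.cons 5568 2688 (.cons 5504 3200 (.cons 5440 3584 (.cons 5184 3712 (.cons 5120 3904 .nil))))))),.nil,.nil⟩
def c179 : Cls := ⟨5456,5584,5944,6144,(.cons 5696 3712 (.cons 5760 2944 (.cons 5824 2368 (.cons 6144 2232 .nil)))),(.cons 6144 2224 (.cons 5696 2432 (.cons 5568 2688 (.cons 5504 3200 (.cons 5440 3584 (.cons 5184 3712 (.cons 5120 3904 .nil))))))),.nil,.nil⟩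
def c180 : Cls := ⟨5456,5584,5944,6144,(.cons 5696 3712 (.cons 5760 2944 (.cons 5824 2368 (.cons 6144 2224 .nil)))),(.cons 6144 2208 (.cons 5696 2432 (.cons 5568 2688 (.cons 5504 3200 (.cons 5440 3584 (.cons 5184 3712 (.cons 5120 3904 .nil))))))),.nil,.nil⟩
def c181 : Cls := ⟨5456,5584,5944,6104,(.cons 5696 3712 (.cons 5760 2944 (.cons 5824 2368 (.cons 6144 2224 .nil)))),(.cons 6144 2208 (.cons 5696 2432 (.cons 5568 2688 (.cons 5504 3200 (.cons 5440 3584 (.cons 5184 3712 (.cons 5120 3904 .nil))))))),.nil,.nil⟩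
def c182 : Cls := ⟨5456,5584,6104,6144,(.cons 5696 3712 (.cons 5760 2944 (.cons 5824 2368 (.cons 6144 2224 .nil)))),(.cons 6144 2208 (.cons 5696 2432 (.cons 5568 2688 (.cons 5504 3200 (.cons 5440 3584 (.cons 5184 3712 (.cons 5120 3904 .nil))))))),.nil,.nil⟩
def c183 : Cls := ⟨5456,5584,6128,6144,(.cons 5696 3712 (.cons 5760 2944 (.cons 5824 2368 (.cons 6144 2224 .nil)))),(.cons 6144 2208 (.cons 5696 2432 (.cons 5568 2688 (.cons 5504 3200 (.cons 5440 3584 (.cons 5184 3712 (.cons 5120 3904 .nil))))))),.nil,.nil⟩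
def c184 : Cls := ⟨5456,5584,6104,6128,(.cons 5696 3712 (.cons 5760 2944 (.cons 5824 2368 (.cons 6144 2224 .nil)))),(.cons 6144 2208 (.cons 5696 2432 (.cons 5568 2688 (.cons 5504 3200 (.cons 5440 3584 (.cons 5184 3712 (.cons 5120 3904 .nil))))))),.nil,.nil⟩
def c185 : Cls := ⟨5384,5400,5944,6144,(.cons 5696 3712 (.cons 5760 2944 (.cons 5824 2688 (.cons 6144 2232 .nil)))),(.cons 6144 2192 (.cons 5824 2368 (.cons 5696 2432 (.cons 5568 2688 (.cons 5504 3200 (.cons 5440 3584 (.cons 5184 3712 (.cons 5120 3904 .nil)))))))),.nil,.nil⟩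
def c186 : Cls := ⟨5400,5616,5944,6144,(.cons 5696 3712 (.cons 5760 2944 (.cons 5824 2688 (.cons 6144 2232 .nil)))),(.cons 6144 2192 (.cons 5824 2368 (.cons 5696 2432 (.cons 5568 2688 (.cons 5504 3200 (.cons 5440 3584 (.cons 5184 3712 (.cons 5120 3904 .nil)))))))),.nil,.nil⟩
def c187 : Cls := ⟨5600,5616,5944,6144,(.cons 5696 3712 (.cons 5760 2944 (.cons 5824 2688 (.cons 6144 2232 .nil)))),(.cons 6144 2192 (.cons 5824 2368 (.cons 5696 2432 (.cons 5568 2688 (.cons 5504 3200 (.cons 5440 3584 (.cons 5184 3712 (.cons 5120 3904 .nil)))))))),.nil,.nil⟩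
def c188 : Cls := ⟨5400,5600,5944,6144,(.cons 5696 3712 (.cons 5760 2944 (.cons 5824 2688 (.cons 6144 2232 .nil)))),(.cons 6144 2192 (.cons 5824 2368 (.cons 5696 2432 (.cons 5568 2688 (.cons 5504 3200 (.cons 5440 3584 (.cons 5184 3712 (.cons 5120 3904 .nil)))))))),.nil,.nil⟩
def c189 : Cls := ⟨5400,5600,5944,6144,(.cons 5696 3712 (.cons 5760 2944 (.cons 5824 2688 (.cons 6144 2216 .nil)))),(.cons 6144 2192 (.cons 5824 2368 (.cons 5696 2432 (.cons 5568 2688 (.cons 5504 3200 (.cons 5440 3584 (.cons 5184 3712 (.cons 5120 3904 .nil)))))))),.nil,.nil⟩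
def c190 : Cls := ⟨5400,5600,5944,6144,(.cons 5696 3712 (.cons 5760 2944 (.cons 5824 2688 (.cons 6144 2232 .nil)))),(.cons 6144 2216 (.cons 5824 2368 (.cons 5696 2432 (.cons 5568 2688 (.cons 5504 3200 (.cons 5440 3584 (.cons 5184 3712 (.cons 5120 3904 .nil)))))))),.nil,.nil⟩
def c191 : Cls := ⟨5400,5432,5944,6144,(.cons 5696 3712 (.cons 5760 2944 (.cons 5824 2688 (.cons 6144 2216 .nil)))),(.cons 6144 2192 (.cons 5824 2368 (.cons 5696 2432 (.cons 5568 2688 (.cons 5504 3200 (.cons 5440 3584 (.cons 5184 3712 (.cons 5120 3904 .nil)))))))),.nil,.nil⟩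
def c192 : Cls := ⟨5432,5600,5944,6144,(.cons 5696 3712 (.cons 5760 2944 (.cons 5824 2688 (.cons 6144 2216 .nil)))),(.cons 6144 2192 (.cons 5824 2368 (.cons 5696 2432 (.cons 5568 2688 (.cons 5504 3200 (.cons 5440 3584 (.cons 5184 3712 (.cons 5120 3904 .nil)))))))),.nil,.nil⟩
def c193 : Cls := ⟨5432,5600,5944,5984,(.cons 5696 3712 (.cons 5760 2944 (.cons 5824 2688 (.cons 6144 2216 .nil)))),(.cons 6144 2192 (.cons 5824 2368 (.cons 5696 2432 (.cons 5568 2688 (.cons 5504 3200 (.cons 5440 3584 (.cons 5184 3712 (.cons 5120 3904 .nil)))))))),.nil,.nil⟩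
def c194 : Cls := ⟨5432,5600,5984,6144,(.cons 5696 3712 (.cons 5760 2944 (.cons 5824 2688 (.cons 6144 2216 .nil)))),(.cons 6144 2192 (.cons 5824 2368 (.cons 5696 2432 (.cons 5568 2688 (.cons 5504 3200 (.cons 5440 3584 (.cons 5184 3712 (.cons 5120 3904 .nil)))))))),.nil,.nil⟩
def c195 : Cls := ⟨5432,5600,5984,6144,(.cons 5600 3776 (.cons 5632 3712 (.cons 5696 3456 (.cons 5760 2944 (.cons 5824 2688 (.cons 6144 2216 .nil)))))),(.cons 6144 2192 (.cons 5824 2368 (.cons 5696 2432 (.cons 5568 2688 (.cons 5504 3200 (.cons 5440 3584 (.cons 5184 3712 (.cons 5120 3904 .nil)))))))),.nil,.nil⟩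
def c196 : Cls := ⟨5432,5600,5984,6144,(.cons 5600 3776 (.cons 5632 3712 (.cons 5696 3456 (.cons 5760 2944 (.cons 5824 2688 (.cons 5888 2560 (.cons 6144 2216 .nil))))))),(.cons 6144 2192 (.cons 5824 2368 (.cons 5696 2432 (.cons 5568 2688 (.cons 5504 3200 (.cons 5440 3584 (.cons 5184 3712 (.cons 5120 3904 .nil)))))))),.nil,.nil⟩
def c197 : Cls := ⟨5592,5600,5984,6144,(.cons 5600 3776 (.cons 5632 3712 (.cons 5696 3456 (.cons 5760 2944 (.cons 5824 2688 (.cons 5888 2560 (.cons 6144 2216 .nil))))))),(.cons 6144 2192 (.cons 5824 2368 (.cons 5696 2432 (.cons 5568 2688 (.cons 5504 3200 (.cons 5440 3584 (.cons 5184 3712 (.cons 5120 3904 .nil)))))))),.nil,.nil⟩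
def c198 : Cls := ⟨5432,5592,5984,6144,(.cons 5600 3776 (.cons 5632 3712 (.cons 5696 3456 (.cons 5760 2944 (.cons 5824 2688 (.cons 5888 2560 (.cons 6144 2216 .nil))))))),(.cons 6144 2192 (.cons 5824 2368 (.cons 5696 2432 (.cons 5568 2688 (.cons 5504 3200 (.cons 5440 3584 (.cons 5184 3712 (.cons 5120 3904 .nil)))))))),.nil,.nil⟩
def c199 : Cls := ⟨5432,5592,5984,5992,(.cons 5600 3776 (.cons 5632 3712 (.cons 5696 3456 (.cons 5760 2944 (.cons 5824 2688 (.cons 5888 2560 (.cons 6144 2216 .nil))))))),(.cons 6144 2192 (.cons 5824 2368 (.cons 5696 2432 (.cons 5568 2688 (.cons 5504 3200 (.cons 5440 3584 (.cons 5184 3712 (.cons 5120 3904 .nil)))))))),.nil,.nil⟩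
def c200 : Cls := ⟨5432,5592,5992,6144,(.cons 5600 3776 (.cons 5632 3712 (.cons 5696 3456 (.cons 5760 2944 (.cons 5824 2688 (.cons 5888 2560 (.cons 6144 2216 .nil))))))),(.cons 6144 2192 (.cons 5824 2368 (.cons 5696 2432 (.cons 5568 2688 (.cons 5504 3200 (.cons 5440 3584 (.cons 5184 3712 (.cons 5120 3904 .nil)))))))),.nil,.nil⟩
def c201 : Cls := ⟨5432,5592,5992,6144,(.cons 5600 3776 (.cons 5632 3712 (.cons 5696 3456 (.cons 5760 2944 (.cons 5824 2688 (.cons 5888 2304 (.cons 6144 2216 .nil))))))),(.cons 6144 2192 (.cons 5824 2368 (.cons 5696 2432 (.cons 5568 2688 (.cons 5504 3200 (.cons 5440 3584 (.cons 5184 3712 (.cons 5120 3904 .nil)))))))),.nil,.nil⟩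
def c202 : Cls := ⟨5432,5592,5992,6144,(.cons 5600 3776 (.cons 5632 3712 (.cons 5696 3456 (.cons 5760 2944 (.cons 5824 2688 (.cons 5888 2560 (.cons 6144 2216 .nil))))))),(.cons 6144 2192 (.cons 5888 2304 (.cons 5824 2368 (.cons 5696 2432 (.cons 5568 2688 (.cons 5504 3200 (.cons 5440 3584 (.cons 5184 3712 (.cons 5120 3904 .nil))))))))),.nil,.nil⟩
def c203 : Cls := ⟨5432,5560,5992,6144,(.cons 5600 3776 (.cons 5632 3712 (.cons 5696 3456 (.cons 5760 2944 (.cons 5824 2688 (.cons 5888 2304 (.cons 6144 2216 .nil))))))),(.cons 6144 2192 (.cons 5824 2368 (.cons 5696 2432 (.cons 5568 2688 (.cons 5504 3200 (.cons 5440 3584 (.cons 5184 3712 (.cons 5120 3904 .nil)))))))),.nil,.nil⟩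
def c204 : Cls := ⟨5560,5592,5992,6144,(.cons 5600 3776 (.cons 5632 3712 (.cons 5696 3456 (.cons 5760 2944 (.cons 5824 2688 (.cons 5888 2304 (.cons 6144 2216 .nil))))))),(.cons 6144 2192 (.cons 5824 2368 (.cons 5696 2432 (.cons 5568 2688 (.cons 5504 3200 (.cons 5440 3584 (.cons 5184 3712 (.cons 5120 3904 .nil)))))))),.nil,.nil⟩
def c205 : Cls := ⟨5576,5592,5992,6144,(.cons 5600 3776 (.cons 5632 3712 (.cons 5696 3456 (.cons 5760 2944 (.cons 5824 2688 (.cons 5888 2304 (.cons 6144 2216 .nil))))))),(.cons 6144 2192 (.cons 5824 2368 (.cons 5696 2432 (.cons 5568 2688 (.cons 5504 3200 (.cons 5440 3584 (.cons 5184 3712 (.cons 5120 3904 .nil)))))))),.nil,.nil⟩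
def c206 : Cls := ⟨5560,5576,5992,6144,(.cons 5600 3776 (.cons 5632 3712 (.cons 5696 3456 (.cons 5760 2944 (.cons 5824 2688 (.cons 5888 2304 (.cons 6144 2216 .nil))))))),(.cons 6144 2192 (.cons 5824 2368 (.cons 5696 2432 (.cons 5568 2688 (.cons 5504 3200 (.cons 5440 3584 (.cons 5184 3712 (.cons 5120 3904 .nil)))))))),.nil,.nil⟩
def c207 : Cls := ⟨5560,5576,5992,6144,(.cons 5600 3776 (.cons 5632 3712 (.cons 5696 3456 (.cons 5760 2944 (.cons 5824 2688 (.cons 5888 2304 (.cons 6144 2200 .nil))))))),(.cons 6144 2192 (.cons 5824 2368 (.cons 5696 2432 (.cons 5568 2688 (.cons 5504 3200 (.cons 5440 3584 (.cons 5184 3712 (.cons 5120 3904 .nil)))))))),.nil,.nil⟩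
def c208 : Cls := ⟨5560,5576,5992,6144,(.cons 5600 3776 (.cons 5632 3712 (.cons 5696 3456 (.cons 5760 2944 (.cons 5824 2688 (.cons 5888 2304 (.cons 6144 2216 .nil))))))),(.cons 6144 2200 (.cons 5824 2368 (.cons 5696 2432 (.cons 5568 2688 (.cons 5504 3200 (.cons 5440 3584 (.cons 5184 3712 (.cons 5120 3904 .nil)))))))),.nil,.nil⟩
def c209 : Cls := ⟨5560,5576,5992,6144,(.cons 5600 3776 (.cons 5632 3712 (.cons 5696 3456 (.cons 5760 2944 (.cons 5824 2688 (.cons 5888 2304 (.cons 6144 2216 .nil))))))),(.cons 6144 2208 (.cons 5824 2368 (.cons 5696 2432 (.cons 5568 2688 (.cons 5504 3200 (.cons 5440 3584 (.cons 5184 3712 (.cons 5120 3904 .nil)))))))),.nil,.nil⟩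
def c210 : Cls := ⟨5560,5576,5992,6144,(.cons 5600 3776 (.cons 5632 3712 (.cons 5696 3456 (.cons 5760 2944 (.cons 5824 2688 (.cons 5888 2304 (.cons 6144 2208 .nil))))))),(.cons 6144 2200 (.cons 5824 2368 (.cons 5696 2432 (.cons 5568 2688 (.cons 5504 3200 (.cons 5440 3584 (.cons 5184 3712 (.cons 5120 3904 .nil)))))))),.nil,.nil⟩
def c211 : Cls := ⟨5560,5576,5992,6112,(.cons 5600 3776 (.cons 5632 3712 (.cons 5696 3456 (.cons 5760 2944 (.cons 5824 2688 (.cons 5888 2304 (.cons 6144 2208 .nil))))))),(.cons 6144 2200 (.cons 5824 2368 (.cons 5696 2432 (.cons 5568 2688 (.cons 5504 3200 (.cons 5440 3584 (.cons 5184 3712 (.cons 5120 3904 .nil)))))))),.nil,.nil⟩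
def c212 : Cls := ⟨5560,5576,6112,6144,(.cons 5600 3776 (.cons 5632 3712 (.cons 5696 3456 (.cons 5760 2944 (.cons 5824 2688 (.cons 5888 2304 (.cons 6144 2208 .nil))))))),(.cons 6144 2200 (.cons 5824 2368 (.cons 5696 2432 (.cons 5568 2688 (.cons 5504 3200 (.cons 5440 3584 (.cons 5184 3712 (.cons 5120 3904 .nil)))))))),.nil,.nil⟩
def c213 : Cls := ⟨5560,5576,6128,6144,(.cons 5600 3776 (.cons 5632 3712 (.cons 5696 3456 (.cons 5760 2944 (.cons 5824 2688 (.cons 5888 2304 (.cons 6144 2208 .nil))))))),(.cons 6144 2200 (.cons 5824 2368 (.cons 5696 2432 (.cons 5568 2688 (.cons 5504 3200 (.cons 5440 3584 (.cons 5184 3712 (.cons 5120 3904 .nil)))))))),.nil,.nil⟩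
def c214 : Cls := ⟨5560,5576,6112,6128,(.cons 5600 3776 (.cons 5632 3712 (.cons 5696 3456 (.cons 5760 2944 (.cons 5824 2688 (.cons 5888 2304 (.cons 6144 2208 .nil))))))),(.cons 6144 2200 (.cons 5824 2368 (.cons 5696 2432 (.cons 5568 2688 (.cons 5504 3200 (.cons 5440 3584 (.cons 5184 3712 (.cons 5120 3904 .nil)))))))),.nil,.nil⟩
def c215 : Cls := ⟨5432,5440,5992,6144,(.cons 5600 3776 (.cons 5632 3712 (.cons 5696 3456 (.cons 5760 2944 (.cons 5824 2688 (.cons 5888 2560 (.cons 6144 2216 .nil))))))),(.cons 6144 2192 (.cons 5888 2304 (.cons 5824 2368 (.cons 5696 2432 (.cons 5568 2688 (.cons 5504 3200 (.cons 5440 3584 (.cons 5184 3712 (.cons 5120 3904 .nil))))))))),.nil,.nil⟩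
def c216 : Cls := ⟨5440,5592,5992,6144,(.cons 5600 3776 (.cons 5632 3712 (.cons 5696 3456 (.cons 5760 2944 (.cons 5824 2688 (.cons 5888 2560 (.cons 6144 2216 .nil))))))),(.cons 6144 2192 (.cons 5888 2304 (.cons 5824 2368 (.cons 5696 2432 (.cons 5568 2688 (.cons 5504 3200 (.cons 5440 3584 (.cons 5184 3712 (.cons 5120 3904 .nil))))))))),.nil,.nil⟩
def c217 : Cls := ⟨5584,5592,5992,6144,(.cons 5600 3776 (.cons 5632 3712 (.cons 5696 3456 (.cons 5760 2944 (.cons 5824 2688 (.cons 5888 2560 (.cons 6144 2216 .nil))))))),(.cons 6144 2192 (.cons 5888 2304 (.cons 5824 2368 (.cons 5696 2432 (.cons 5568 2688 (.cons 5504 3200 (.cons 5440 3584 (.cons 5184 3712 (.cons 5120 3904 .nil))))))))),.nil,.nil⟩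
def c218 : Cls := ⟨5440,5584,5992,6144,(.cons 5600 3776 (.cons 5632 3712 (.cons 5696 3456 (.cons 5760 2944 (.cons 5824 2688 (.cons 5888 2560 (.cons 6144 2216 .nil))))))),(.cons 6144 2192 (.cons 5888 2304 (.cons 5824 2368 (.cons 5696 2432 (.cons 5568 2688 (.cons 5504 3200 (.cons 5440 3584 (.cons 5184 3712 (.cons 5120 3904 .nil))))))))),.nil,.nil⟩
def c219 : Cls := ⟨5440,5584,5992,6000,(.cons 5600 3776 (.cons 5632 3712 (.cons 5696 3456 (.cons 5760 2944 (.cons 5824 2688 (.cons 5888 2560 (.cons 6144 2216 .nil))))))),(.cons 6144 2192 (.cons 5888 2304 (.cons 5824 2368 (.cons 5696 2432 (.cons 5568 2688 (.cons 5504 3200 (.cons 5440 3584 (.cons 5184 3712 (.cons 5120 3904 .nil))))))))),.nil,.nil⟩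
def c220 : Cls := ⟨5440,5584,6000,6144,(.cons 5600 3776 (.cons 5632 3712 (.cons 5696 3456 (.cons 5760 2944 (.cons 5824 2688 (.cons 5888 2560 (.cons 6144 2216 .nil))))))),(.cons 6144 2192 (.cons 5888 2304 (.cons 5824 2368 (.cons 5696 2432 (.cons 5568 2688 (.cons 5504 3200 (.cons 5440 3584 (.cons 5184 3712 (.cons 5120 3904 .nil))))))))),.nil,.nil⟩
def c221 : Cls := ⟨5440,5584,6000,6144,(.cons 5600 3776 (.cons 5632 3712 (.cons 5696 3456 (.cons 5760 2944 (.cons 5824 2688 (.cons 5888 2560 (.cons 6144 2216 .nil))))))),(.cons 6144 2192 (.cons 5888 2304 (.cons 5824 2368 (.cons 5696 2560 (.cons 5568 2688 (.cons 5504 3200 (.cons 5440 3584 (.cons 5184 3712 (.cons 5120 3904 .nil))))))))),.nil,.nil⟩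
def c222 : Cls := ⟨5440,5584,6000,6144,(.cons 5600 3776 (.cons 5632 3712 (.cons 5696 3456 (.cons 5760 2944 (.cons 5824 2688 (.cons 5888 2432 (.cons 6144 2216 .nil))))))),(.cons 6144 2192 (.cons 5888 2304 (.cons 5824 2368 (.cons 5696 2560 (.cons 5568 2688 (.cons 5504 3200 (.cons 5440 3584 (.cons 5184 3712 (.cons 5120 3904 .nil))))))))),.nil,.nil⟩
def c223 : Cls := ⟨5440,5456,6000,6144,(.cons 5600 3776 (.cons 5632 3712 (.cons 5696 3456 (.cons 5760 2944 (.cons 5824 2688 (.cons 5888 2432 (.cons 6144 2216 .nil))))))),(.cons 6144 2192 (.cons 5888 2304 (.cons 5824 2368 (.cons 5696 2560 (.cons 5568 2688 (.cons 5504 3200 (.cons 5440 3584 (.cons 5184 3712 (.cons 5120 3904 .nil))))))))),.nil,.nil⟩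
def c224 : Cls := ⟨5456,5584,6000,6144,(.cons 5600 3776 (.cons 5632 3712 (.cons 5696 3456 (.cons 5760 2944 (.cons 5824 2688 (.cons 5888 2432 (.cons 6144 2216 .nil))))))),(.cons 6144 2192 (.cons 5888 2304 (.cons 5824 2368 (.cons 5696 2560 (.cons 5568 2688 (.cons 5504 3200 (.cons 5440 3584 (.cons 5184 3712 (.cons 5120 3904 .nil))))))))),.nil,.nil⟩
def c225 : Cls := ⟨5456,5584,6000,6008,(.cons 5600 3776 (.cons 5632 3712 (.cons 5696 3456 (.cons 5760 2944 (.cons 5824 2688 (.cons 5888 2432 (.cons 6144 2216 .nil))))))),(.cons 6144 2192 (.cons 5888 2304 (.cons 5824 2368 (.cons 5696 2560 (.cons 5568 2688 (.cons 5504 3200 (.cons 5440 3584 (.cons 5184 3712 (.cons 5120 3904 .nil))))))))),.nil,.nil⟩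
def c226 : Cls := ⟨5456,5584,6008,6144,(.cons 5600 3776 (.cons 5632 3712 (.cons 5696 3456 (.cons 5760 2944 (.cons 5824 2688 (.cons 5888 2432 (.cons 6144 2216 .nil))))))),(.cons 6144 2192 (.cons 5888 2304 (.cons 5824 2368 (.cons 5696 2560 (.cons 5568 2688 (.cons 5504 3200 (.cons 5440 3584 (.cons 5184 3712 (.cons 5120 3904 .nil))))))))),.nil,.nil⟩
def c227 : Cls := ⟨5456,5472,6008,6144,(.cons 5600 3776 (.cons 5632 3712 (.cons 5696 3456 (.cons 5760 2944 (.cons 5824 2688 (.cons 5888 2432 (.cons 6144 2216 .nil))))))),(.cons 6144 2192 (.cons 5888 2304 (.cons 5824 2368 (.cons 5696 2560 (.cons 5568 2688 (.cons 5504 3200 (.cons 5440 3584 (.cons 5184 3712 (.cons 5120 3904 .nil))))))))),.nil,.nil⟩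
def c228 : Cls := ⟨5472,5584,6008,6144,(.cons 5600 3776 (.cons 5632 3712 (.cons 5696 3456 (.cons 5760 2944 (.cons 5824 2688 (.cons 5888 2432 (.cons 6144 2216 .nil))))))),(.cons 6144 2192 (.cons 5888 2304 (.cons 5824 2368 (.cons 5696 2560 (.cons 5568 2688 (.cons 5504 3200 (.cons 5440 3584 (.cons 5184 3712 (.cons 5120 3904 .nil))))))))),.nil,.nil⟩
def c229 : Cls := ⟨5576,5584,6008,6144,(.cons 5600 3776 (.cons 5632 3712 (.cons 5696 3456 (.cons 5760 2944 (.cons 5824 2688 (.cons 5888 2432 (.cons 6144 2216 .nil))))))),(.cons 6144 2192 (.cons 5888 2304 (.cons 5824 2368 (.cons 5696 2560 (.cons 5568 2688 (.cons 5504 3200 (.cons 5440 3584 (.cons 5184 3712 (.cons 5120 3904 .nil))))))))),.nil,.nil⟩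
def c230 : Cls := ⟨5472,5576,6008,6144,(.cons 5600 3776 (.cons 5632 3712 (.cons 5696 3456 (.cons 5760 2944 (.cons 5824 2688 (.cons 5888 2432 (.cons 6144 2216 .nil))))))),(.cons 6144 2192 (.cons 5888 2304 (.cons 5824 2368 (.cons 5696 2560 (.cons 5568 2688 (.cons 5504 3200 (.cons 5440 3584 (.cons 5184 3712 (.cons 5120 3904 .nil))))))))),.nil,.nil⟩
def c231 : Cls := ⟨5472,5576,6008,6144,(.cons 5600 3776 (.cons 5632 3712 (.cons 5696 3456 (.cons 5760 2944 (.cons 5824 2688 (.cons 5888 2432 (.cons 6144 2200 .nil))))))),(.cons 6144 2192 (.cons 5888 2304 (.cons 5824 2368 (.cons 5696 2560 (.cons 5568 2688 (.cons 5504 3200 (.cons 5440 3584 (.cons 5184 3712 (.cons 5120 3904 .nil))))))))),.nil,.nil⟩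
def c232 : Cls := ⟨5472,5576,6008,6144,(.cons 5600 3776 (.cons 5632 3712 (.cons 5696 3456 (.cons 5760 2944 (.cons 5824 2688 (.cons 5888 2432 (.cons 6144 2216 .nil))))))),(.cons 6144 2200 (.cons 5888 2304 (.cons 5824 2368 (.cons 5696 2560 (.cons 5568 2688 (.cons 5504 3200 (.cons 5440 3584 (.cons 5184 3712 (.cons 5120 3904 .nil))))))))),.nil,.nil⟩
def c233 : Cls := ⟨5472,5576,6008,6144,(.cons 5600 3776 (.cons 5632 3712 (.cons 5696 3456 (.cons 5760 2944 (.cons 5824 2688 (.cons 5888 2432 (.cons 6144 2216 .nil))))))),(.cons 6144 2212 (.cons 5888 2304 (.cons 5824 2368 (.cons 5696 2560 (.cons 5568 2688 (.cons 5504 3200 (.cons 5440 3584 (.cons 5184 3712 (.cons 5120 3904 .nil))))))))),.nil,.nil⟩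
def c234 : Cls := ⟨5472,5576,6008,6144,(.cons 5600 3776 (.cons 5632 3712 (.cons 5696 3456 (.cons 5760 2944 (.cons 5824 2688 (.cons 5888 2432 (.cons 6144 2212 .nil))))))),(.cons 6144 2200 (.cons 5888 2304 (.cons 5824 2368 (.cons 5696 2560 (.cons 5568 2688 (.cons 5504 3200 (.cons 5440 3584 (.cons 5184 3712 (.cons 5120 3904 .nil))))))))),.nil,.nil⟩
def c235 : Cls := ⟨5472,5576,6008,6060,(.cons 5600 3776 (.cons 5632 3712 (.cons 5696 3456 (.cons 5760 2944 (.cons 5824 2688 (.cons 5888 2432 (.cons 6144 2212 .nil))))))),(.cons 6144 2200 (.cons 5888 2304 (.cons 5824 2368 (.cons 5696 2560 (.cons 5568 2688 (.cons 5504 3200 (.cons 5440 3584 (.cons 5184 3712 (.cons 5120 3904 .nil))))))))),.nil,.nil⟩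
def c236 : Cls := ⟨5472,5576,6060,6144,(.cons 5600 3776 (.cons 5632 3712 (.cons 5696 3456 (.cons 5760 2944 (.cons 5824 2688 (.cons 5888 2432 (.cons 6144 2212 .nil))))))),(.cons 6144 2200 (.cons 5888 2304 (.cons 5824 2368 (.cons 5696 2560 (.cons 5568 2688 (.cons 5504 3200 (.cons 5440 3584 (.cons 5184 3712 (.cons 5120 3904 .nil))))))))),.nil,.nil⟩
def c237 : Cls := ⟨5472,5576,6132,6144,(.cons 5600 3776 (.cons 5632 3712 (.cons 5696 3456 (.cons 5760 2944 (.cons 5824 2688 (.cons 5888 2432 (.cons 6144 2212 .nil))))))),(.cons 6144 2200 (.cons 5888 2304 (.cons 5824 2368 (.cons 5696 2560 (.cons 5568 2688 (.cons 5504 3200 (.cons 5440 3584 (.cons 5184 3712 (.cons 5120 3904 .nil))))))))),.nil,.nil⟩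
def c238 : Cls := ⟨5472,5576,6060,6132,(.cons 5600 3776 (.cons 5632 3712 (.cons 5696 3456 (.cons 5760 2944 (.cons 5824 2688 (.cons 5888 2432 (.cons 6144 2212 .nil))))))),(.cons 6144 2200 (.cons 5888 2304 (.cons 5824 2368 (.cons 5696 2560 (.cons 5568 2688 (.cons 5504 3200 (.cons 5440 3584 (.cons 5184 3712 (.cons 5120 3904 .nil))))))))),.nil,.nil⟩
def c239 : Cls := ⟨5472,5576,6060,6132,(.cons 5600 3776 (.cons 5632 3712 (.cons 5696 3456 (.cons 5760 2944 (.cons 5824 2688 (.cons 5888 2432 (.cons 6144 2212 .nil))))))),(.cons 6144 2200 (.cons 5888 2304 (.cons 5824 2368 (.cons 5696 2560 (.cons 5600 2752 (.cons 5576 2880 (.cons 5568 2944 (.cons 5536 3008 (.cons 5504 3328 (.cons 5440 3584 (.cons 5184 3712 (.cons 5120 3904 .nil)))))))))))),(.cons 6132 2688 .nil),.nil⟩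
def c240 : Cls := ⟨5472,5576,6064,6132,(.cons 5600 3776 (.cons 5632 3712 (.cons 5696 3456 (.cons 5760 2944 (.cons 5824 2688 (.cons 5888 2432 (.cons 6144 2212 .nil))))))),(.cons 6144 2200 (.cons 6060 2240 (.cons 5888 2304 (.cons 5824 2368 (.cons 5696 2560 (.cons 5600 2752 (.cons 5576 2880 (.cons 5568 2944 (.cons 5536 3008 (.cons 5504 3328 (.cons 5440 3584 (.cons 5184 3712 (.cons 5120 3904 .nil))))))))))))),(.cons 6132 2496 .nil),.nil⟩
def c241 : Cls := ⟨5400,5432,5944,6144,(.cons 5696 3712 (.cons 5760 2944 (.cons 5824 2688 (.cons 6144 2232 .nil)))),(.cons 6144 2216 (.cons 5824 2368 (.cons 5696 2432 (.cons 5568 2688 (.cons 5504 3200 (.cons 5440 3584 (.cons 5184 3712 (.cons 5120 3904 .nil)))))))),.nil,.nil⟩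
def c242 : Cls := ⟨5432,5600,5944,6144,(.cons 5696 3712 (.cons 5760 2944 (.cons 5824 2688 (.cons 6144 2232 .nil)))),(.cons 6144 2216 (.cons 5824 2368 (.cons 5696 2432 (.cons 5568 2688 (.cons 5504 3200 (.cons 5440 3584 (.cons 5184 3712 (.cons 5120 3904 .nil)))))))),.nil,.nil⟩
def c243 : Cls := ⟨5584,5600,5944,6144,(.cons 5696 3712 (.cons 5760 2944 (.cons 5824 2688 (.cons 6144 2232 .nil)))),(.cons 6144 2216 (.cons 5824 2368 (.cons 5696 2432 (.cons 5568 2688 (.cons 5504 3200 (.cons 5440 3584 (.cons 5184 3712 (.cons 5120 3904 .nil)))))))),.nil,.nil⟩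
def c244 : Cls := ⟨5432,5584,5944,6144,(.cons 5696 3712 (.cons 5760 2944 (.cons 5824 2688 (.cons 6144 2232 .nil)))),(.cons 6144 2216 (.cons 5824 2368 (.cons 5696 2432 (.cons 5568 2688 (.cons 5504 3200 (.cons 5440 3584 (.cons 5184 3712 (.cons 5120 3904 .nil)))))))),.nil,.nil⟩
def c245 : Cls := ⟨5432,5584,5944,5984,(.cons 5696 3712 (.cons 5760 2944 (.cons 5824 2688 (.cons 6144 2232 .nil)))),(.cons 6144 2216 (.cons 5824 2368 (.cons 5696 2432 (.cons 5568 2688 (.cons 5504 3200 (.cons 5440 3584 (.cons 5184 3712 (.cons 5120 3904 .nil)))))))),.nil,.nil⟩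
def c246 : Cls := ⟨5432,5584,5984,6144,(.cons 5696 3712 (.cons 5760 2944 (.cons 5824 2688 (.cons 6144 2232 .nil)))),(.cons 6144 2216 (.cons 5824 2368 (.cons 5696 2432 (.cons 5568 2688 (.cons 5504 3200 (.cons 5440 3584 (.cons 5184 3712 (.cons 5120 3904 .nil)))))))),.nil,.nil⟩
def c247 : Cls := ⟨5432,5584,5984,6144,(.cons 5584 3968 (.cons 5600 3904 (.cons 5632 3776 (.cons 5696 3584 (.cons 5760 2944 (.cons 5824 2688 (.cons 6144 2232 .nil))))))),(.cons 6144 2216 (.cons 5824 2368 (.cons 5696 2432 (.cons 5568 2688 (.cons 5504 3200 (.cons 5440 3584 (.cons 5184 3712 (.cons 5120 3904 .nil)))))))),.nil,.nil⟩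
def c248 : Cls := ⟨5432,5584,5984,6144,(.cons 5584 3968 (.cons 5600 3904 (.cons 5632 3776 (.cons 5696 3584 (.cons 5760 2944 (.cons 5824 2688 (.cons 5888 2560 (.cons 6144 2232 .nil)))))))),(.cons 6144 2216 (.cons 5824 2368 (.cons 5696 2432 (.cons 5568 2688 (.cons 5504 3200 (.cons 5440 3584 (.cons 5184 3712 (.cons 5120 3904 .nil)))))))),.nil,.nil⟩
def c249 : Cls := ⟨5432,5584,5984,6144,(.cons 5584 3968 (.cons 5600 3904 (.cons 5632 3776 (.cons 5696 3584 (.cons 5760 2944 (.cons 5824 2688 (.cons 5888 2304 (.cons 6144 2232 .nil)))))))),(.cons 6144 2216 (.cons 5824 2368 (.cons 5696 2432 (.cons 5568 2688 (.cons 5504 3200 (.cons 5440 3584 (.cons 5184 3712 (.cons 5120 3904 .nil)))))))),.nil,.nil⟩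
def c250 : Cls := ⟨5432,5584,5984,6144,(.cons 5584 3968 (.cons 5600 3904 (.cons 5632 3776 (.cons 5696 3584 (.cons 5760 2944 (.cons 5824 2688 (.cons 5888 2560 (.cons 6144 2232 .nil)))))))),(.cons 6144 2216 (.cons 5888 2304 (.cons 5824 2368 (.cons 5696 2432 (.cons 5568 2688 (.cons 5504 3200 (.cons 5440 3584 (.cons 5184 3712 (.cons 5120 3904 .nil))))))))),.nil,.nil⟩
def c251 : Cls := ⟨5432,5584,5984,6144,(.cons 5584 3968 (.cons 5600 3904 (.cons 5632 3776 (.cons 5696 3584 (.cons 5760 2944 (.cons 5824 2688 (.cons 5888 2432 (.cons 6144 2232 .nil)))))))),(.cons 6144 2216 (.cons 5888 2304 (.cons 5824 2368 (.cons 5696 2432 (.cons 5568 2688 (.cons 5504 3200 (.cons 5440 3584 (.cons 5184 3712 (.cons 5120 3904 .nil))))))))),.nil,.nil⟩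
def c252 : Cls := ⟨5432,5584,5984,6144,(.cons 5584 3968 (.cons 5600 3904 (.cons 5632 3776 (.cons 5696 3584 (.cons 5760 2944 (.cons 5824 2688 (.cons 5888 2560 (.cons 6144 2232 .nil)))))))),(.cons 6144 2216 (.cons 5888 2432 (.cons 5568 2688 (.cons 5504 3200 (.cons 5440 3584 (.cons 5184 3712 (.cons 5120 3904 .nil))))))),.nil,.nil⟩
def c253 : Cls := ⟨5432,5448,5984,6144,(.cons 5584 3968 (.cons 5600 3904 (.cons 5632 3776 (.cons 5696 3584 (.cons 5760 2944 (.cons 5824 2688 (.cons 5888 2432 (.cons 6144 2232 .nil)))))))),(.cons 6144 2216 (.cons 5888 2304 (.cons 5824 2368 (.cons 5696 2432 (.cons 5568 2688 (.cons 5504 3200 (.cons 5440 3584 (.cons 5184 3712 (.cons 5120 3904 .nil))))))))),.nil,.nil⟩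
def c254 : Cls := ⟨5448,5584,5984,6144,(.cons 5584 3968 (.cons 5600 3904 (.cons 5632 3776 (.cons 5696 3584 (.cons 5760 2944 (.cons 5824 2688 (.cons 5888 2432 (.cons 6144 2232 .nil)))))))),(.cons 6144 2216 (.cons 5888 2304 (.cons 5824 2368 (.cons 5696 2432 (.cons 5568 2688 (.cons 5504 3200 (.cons 5440 3584 (.cons 5184 3712 (.cons 5120 3904 .nil))))))))),.nil,.nil⟩
def c255 : Cls := ⟨5576,5584,5984,6144,(.cons 5584 3968 (.cons 5600 3904 (.cons 5632 3776 (.cons 5696 3584 (.cons 5760 2944 (.cons 5824 2688 (.cons 5888 2432 (.cons 6144 2232 .nil)))))))),(.cons 6144 2216 (.cons 5888 2304 (.cons 5824 2368 (.cons 5696 2432 (.cons 5568 2688 (.cons 5504 3200 (.cons 5440 3584 (.cons 5184 3712 (.cons 5120 3904 .nil))))))))),.nil,.nil⟩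
def c256 : Cls := ⟨5448,5576,5984,6144,(.cons 5584 3968 (.cons 5600 3904 (.cons 5632 3776 (.cons 5696 3584 (.cons 5760 2944 (.cons 5824 2688 (.cons 5888 2432 (.cons 6144 2232 .nil)))))))),(.cons 6144 2216 (.cons 5888 2304 (.cons 5824 2368 (.cons 5696 2432 (.cons 5568 2688 (.cons 5504 3200 (.cons 5440 3584 (.cons 5184 3712 (.cons 5120 3904 .nil))))))))),.nil,.nil⟩
def c257 : Cls := ⟨5448,5576,5984,6000,(.cons 5584 3968 (.cons 5600 3904 (.cons 5632 3776 (.cons 5696 3584 (.cons 5760 2944 (.cons 5824 2688 (.cons 5888 2432 (.cons 6144 2232 .nil)))))))),(.cons 6144 2216 (.cons 5888 2304 (.cons 5824 2368 (.cons 5696 2432 (.cons 5568 2688 (.cons 5504 3200 (.cons 5440 3584 (.cons 5184 3712 (.cons 5120 3904 .nil))))))))),.nil,.nil⟩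
def c258 : Cls := ⟨5448,5576,6000,6144,(.cons 5584 3968 (.cons 5600 3904 (.cons 5632 3776 (.cons 5696 3584 (.cons 5760 2944 (.cons 5824 2688 (.cons 5888 2432 (.cons 6144 2232 .nil)))))))),(.cons 6144 2216 (.cons 5888 2304 (.cons 5824 2368 (.cons 5696 2432 (.cons 5568 2688 (.cons 5504 3200 (.cons 5440 3584 (.cons 5184 3712 (.cons 5120 3904 .nil))))))))),.nil,.nil⟩
def c259 : Cls := ⟨5448,5576,6000,6144,(.cons 5584 3968 (.cons 5600 3904 (.cons 5632 3776 (.cons 5696 3584 (.cons 5760 2944 (.cons 5824 2688 (.cons 5888 2432 (.cons 6144 2232 .nil)))))))),(.cons 6144 2216 (.cons 5888 2304 (.cons 5824 2368 (.cons 5696 2560 (.cons 5568 2688 (.cons 5504 3200 (.cons 5440 3584 (.cons 5184 3712 (.cons 5120 3904 .nil))))))))),.nil,.nil⟩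
def c260 : Cls := ⟨5448,5576,6000,6144,(.cons 5584 3968 (.cons 5600 3584 (.cons 5632 3456 (.cons 5760 2944 (.cons 5824 2688 (.cons 5888 2432 (.cons 6144 2232 .nil))))))),(.cons 6144 2216 (.cons 5888 2304 (.cons 5824 2368 (.cons 5696 2560 (.cons 5568 2688 (.cons 5504 3200 (.cons 5440 3584 (.cons 5184 3712 (.cons 5120 3904 .nil))))))))),.nil,.nil⟩
def c261 : Cls := ⟨5448,5472,6000,6144,(.cons 5584 3968 (.cons 5600 3584 (.cons 5632 3456 (.cons 5760 2944 (.cons 5824 2688 (.cons 5888 2432 (.cons 6144 2232 .nil))))))),(.cons 6144 2216 (.cons 5888 2304 (.cons 5824 2368 (.cons 5696 2560 (.cons 5568 2688 (.cons 5504 3200 (.cons 5440 3584 (.cons 5184 3712 (.cons 5120 3904 .nil))))))))),.nil,.nil⟩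
def c262 : Cls := ⟨5472,5576,6000,6144,(.cons 5584 3968 (.cons 5600 3584 (.cons 5632 3456 (.cons 5760 2944 (.cons 5824 2688 (.cons 5888 2432 (.cons 6144 2232 .nil))))))),(.cons 6144 2216 (.cons 5888 2304 (.cons 5824 2368 (.cons 5696 2560 (.cons 5568 2688 (.cons 5504 3200 (.cons 5440 3584 (.cons 5184 3712 (.cons 5120 3904 .nil))))))))),.nil,.nil⟩
def c263 : Cls := ⟨5568,5576,6000,6144,(.cons 5584 3968 (.cons 5600 3584 (.cons 5632 3456 (.cons 5760 2944 (.cons 5824 2688 (.cons 5888 2432 (.cons 6144 2232 .nil))))))),(.cons 6144 2216 (.cons 5888 2304 (.cons 5824 2368 (.cons 5696 2560 (.cons 5568 2688 (.cons 5504 3200 (.cons 5440 3584 (.cons 5184 3712 (.cons 5120 3904 .nil))))))))),.nil,.nil⟩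
def c264 : Cls := ⟨5472,5568,6000,6144,(.cons 5584 3968 (.cons 5600 3584 (.cons 5632 3456 (.cons 5760 2944 (.cons 5824 2688 (.cons 5888 2432 (.cons 6144 2232 .nil))))))),(.cons 6144 2216 (.cons 5888 2304 (.cons 5824 2368 (.cons 5696 2560 (.cons 5568 2688 (.cons 5504 3200 (.cons 5440 3584 (.cons 5184 3712 (.cons 5120 3904 .nil))))))))),.nil,.nil⟩
def c265 : Cls := ⟨5472,5568,6000,6020,(.cons 5584 3968 (.cons 5600 3584 (.cons 5632 3456 (.cons 5760 2944 (.cons 5824 2688 (.cons 5888 2432 (.cons 6144 2232 .nil))))))),(.cons 6144 2216 (.cons 5888 2304 (.cons 5824 2368 (.cons 5696 2560 (.cons 5568 2688 (.cons 5504 3200 (.cons 5440 3584 (.cons 5184 3712 (.cons 5120 3904 .nil))))))))),.nil,.nil⟩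
def c266 : Cls := ⟨5472,5568,6020,6144,(.cons 5584 3968 (.cons 5600 3584 (.cons 5632 3456 (.cons 5760 2944 (.cons 5824 2688 (.cons 5888 2432 (.cons 6144 2232 .nil))))))),(.cons 6144 2216 (.cons 5888 2304 (.cons 5824 2368 (.cons 5696 2560 (.cons 5568 2688 (.cons 5504 3200 (.cons 5440 3584 (.cons 5184 3712 (.cons 5120 3904 .nil))))))))),.nil,.nil⟩
def c267 : Cls := ⟨5472,5568,6020,6144,(.cons 5584 3968 (.cons 5600 3584 (.cons 5632 3456 (.cons 5760 2944 (.cons 5824 2688 (.cons 5888 2432 (.cons 6144 2232 .nil))))))),(.cons 6144 2216 (.cons 5888 2304 (.cons 5824 2368 (.cons 5696 2560 (.cons 5600 2688 (.cons 5568 2880 (.cons 5504 3264 (.cons 5440 3584 (.cons 5184 3712 (.cons 5120 3904 .nil)))))))))),.nil,.nil⟩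
def c268 : Cls := ⟨5472,5568,6020,6144,(.cons 5584 3968 (.cons 5600 3584 (.cons 5632 3264 (.cons 5696 3200 (.cons 5760 2944 (.cons 5824 2688 (.cons 5888 2432 (.cons 6144 2232 .nil)))))))),(.cons 6144 2216 (.cons 5888 2304 (.cons 5824 2368 (.cons 5696 2560 (.cons 5600 2688 (.cons 5568 2880 (.cons 5504 3264 (.cons 5440 3584 (.cons 5184 3712 (.cons 5120 3904 .nil)))))))))),.nil,.nil⟩
def c269 : Cls := ⟨5472,5568,6020,6144,(.cons 5584 3968 (.cons 5600 3584 (.cons 5632 3264 (.cons 5696 3200 (.cons 5760 2816 (.cons 5824 2624 (.cons 5888 2432 (.cons 6144 2232 .nil)))))))),(.cons 6144 2216 (.cons 5888 2304 (.cons 5824 2368 (.cons 5696 2560 (.cons 5600 2688 (.cons 5568 2880 (.cons 5504 3264 (.cons 5440 3584 (.cons 5184 3712 (.cons 5120 3904 .nil)))))))))),.nil,.nil⟩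
def c270 : Cls := ⟨5472,5568,6020,6144,(.cons 5584 3968 (.cons 5600 3584 (.cons 5632 3264 (.cons 5696 3200 (.cons 5760 2816 (.cons 5824 2624 (.cons 5888 2432 (.cons 5920 2304 (.cons 6144 2232 .nil))))))))),(.cons 6144 2216 (.cons 5888 2304 (.cons 5824 2368 (.cons 5696 2560 (.cons 5600 2688 (.cons 5568 2880 (.cons 5504 3264 (.cons 5440 3584 (.cons 5184 3712 (.cons 5120 3904 .nil)))))))))),.nil,.nil⟩
def c271 : Cls := ⟨5472,5568,6020,6144,(.cons 5584 3968 (.cons 5600 3584 (.cons 5632 3264 (.cons 5696 3200 (.cons 5760 2816 (.cons 5824 2624 (.cons 5888 2432 (.cons 6144 2232 .nil)))))))),(.cons 6144 2216 (.cons 5920 2304 (.cons 5824 2368 (.cons 5696 2560 (.cons 5600 2688 (.cons 5568 2880 (.cons 5504 3264 (.cons 5440 3584 (.cons 5184 3712 (.cons 5120 3904 .nil)))))))))),.nil,.nil⟩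
def c272 : Cls := ⟨5472,5484,6020,6144,(.cons 5584 3968 (.cons 5600 3584 (.cons 5632 3264 (.cons 5696 3200 (.cons 5760 2816 (.cons 5824 2624 (.cons 5888 2432 (.cons 6144 2232 .nil)))))))),(.cons 6144 2216 (.cons 5920 2304 (.cons 5824 2368 (.cons 5696 2560 (.cons 5600 2688 (.cons 5568 2880 (.cons 5504 3264 (.cons 5440 3584 (.cons 5184 3712 (.cons 5120 3904 .nil)))))))))),.nil,.nil⟩
def c273 : Cls := ⟨5484,5568,6020,6144,(.cons 5584 3968 (.cons 5600 3584 (.cons 5632 3264 (.cons 5696 3200 (.cons 5760 2816 (.cons 5824 2624 (.cons 5888 2432 (.cons 6144 2232 .nil)))))))),(.cons 6144 2216 (.cons 5920 2304 (.cons 5824 2368 (.cons 5696 2560 (.cons 5600 2688 (.cons 5568 2880 (.cons 5504 3264 (.cons 5440 3584 (.cons 5184 3712 (.cons 5120 3904 .nil)))))))))),.nil,.nil⟩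
def c274 : Cls := ⟨5560,5568,6020,6144,(.cons 5584 3968 (.cons 5600 3584 (.cons 5632 3264 (.cons 5696 3200 (.cons 5760 2816 (.cons 5824 2624 (.cons 5888 2432 (.cons 6144 2232 .nil)))))))),(.cons 6144 2216 (.cons 5920 2304 (.cons 5824 2368 (.cons 5696 2560 (.cons 5600 2688 (.cons 5568 2880 (.cons 5504 3264 (.cons 5440 3584 (.cons 5184 3712 (.cons 5120 3904 .nil)))))))))),.nil,.nil⟩
def c275 : Cls := ⟨5484,5560,6020,6144,(.cons 5584 3968 (.cons 5600 3584 (.cons 5632 3264 (.cons 5696 3200 (.cons 5760 2816 (.cons 5824 2624 (.cons 5888 2432 (.cons 6144 2232 .nil)))))))),(.cons 6144 2216 (.cons 5920 2304 (.cons 5824 2368 (.cons 5696 2560 (.cons 5600 2688 (.cons 5568 2880 (.cons 5504 3264 (.cons 5440 3584 (.cons 5184 3712 (.cons 5120 3904 .nil)))))))))),.nil,.nil⟩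
def c276 : Cls := ⟨5484,5560,6020,6144,(.cons 5584 3968 (.cons 5600 3584 (.cons 5632 3264 (.cons 5696 3200 (.cons 5760 2816 (.cons 5824 2624 (.cons 5888 2432 (.cons 6144 2224 .nil)))))))),(.cons 6144 2216 (.cons 5920 2304 (.cons 5824 2368 (.cons 5696 2560 (.cons 5600 2688 (.cons 5568 2880 (.cons 5504 3264 (.cons 5440 3584 (.cons 5184 3712 (.cons 5120 3904 .nil)))))))))),.nil,.nil⟩
def c277 : Cls := ⟨5484,5560,6020,6144,(.cons 5584 3968 (.cons 5600 3584 (.cons 5632 3264 (.cons 5696 3200 (.cons 5760 2816 (.cons 5824 2624 (.cons 5888 2432 (.cons 6144 2232 .nil)))))))),(.cons 6144 2224 (.cons 5920 2304 (.cons 5824 2368 (.cons 5696 2560 (.cons 5600 2688 (.cons 5568 2880 (.cons 5504 3264 (.cons 5440 3584 (.cons 5184 3712 (.cons 5120 3904 .nil)))))))))),.nil,.nil⟩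
def c278 : Cls := ⟨5484,5560,6020,6144,(.cons 5584 3968 (.cons 5600 3584 (.cons 5632 3264 (.cons 5696 3200 (.cons 5760 2816 (.cons 5824 2624 (.cons 5888 2432 (.cons 6144 2232 .nil)))))))),(.cons 6144 2228 (.cons 5920 2304 (.cons 5824 2368 (.cons 5696 2560 (.cons 5600 2688 (.cons 5568 2880 (.cons 5504 3264 (.cons 5440 3584 (.cons 5184 3712 (.cons 5120 3904 .nil)))))))))),.nil,.nil⟩
def c279 : Cls := ⟨5484,5560,6020,6144,(.cons 5584 3968 (.cons 5600 3584 (.cons 5632 3264 (.cons 5696 3200 (.cons 5760 2816 (.cons 5824 2624 (.cons 5888 2432 (.cons 6144 2228 .nil)))))))),(.cons 6144 2224 (.cons 5920 2304 (.cons 5824 2368 (.cons 5696 2560 (.cons 5600 2688 (.cons 5568 2880 (.cons 5504 3264 (.cons 5440 3584 (.cons 5184 3712 (.cons 5120 3904 .nil)))))))))),.nil,.nil⟩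
def c280 : Cls := ⟨5484,5560,6020,6120,(.cons 5584 3968 (.cons 5600 3584 (.cons 5632 3264 (.cons 5696 3200 (.cons 5760 2816 (.cons 5824 2624 (.cons 5888 2432 (.cons 6144 2228 .nil)))))))),(.cons 6144 2224 (.cons 5920 2304 (.cons 5824 2368 (.cons 5696 2560 (.cons 5600 2688 (.cons 5568 2880 (.cons 5504 3264 (.cons 5440 3584 (.cons 5184 3712 (.cons 5120 3904 .nil)))))))))),.nil,.nil⟩
def c281 : Cls := ⟨5484,5560,6120,6144,(.cons 5584 3968 (.cons 5600 3584 (.cons 5632 3264 (.cons 5696 3200 (.cons 5760 2816 (.cons 5824 2624 (.cons 5888 2432 (.cons 6144 2228 .nil)))))))),(.cons 6144 2224 (.cons 5920 2304 (.cons 5824 2368 (.cons 5696 2560 (.cons 5600 2688 (.cons 5568 2880 (.cons 5504 3264 (.cons 5440 3584 (.cons 5184 3712 (.cons 5120 3904 .nil)))))))))),.nil,.nil⟩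
def c282 : Cls := ⟨5484,5560,6124,6144,(.cons 5584 3968 (.cons 5600 3584 (.cons 5632 3264 (.cons 5696 3200 (.cons 5760 2816 (.cons 5824 2624 (.cons 5888 2432 (.cons 6144 2228 .nil)))))))),(.cons 6144 2224 (.cons 5920 2304 (.cons 5824 2368 (.cons 5696 2560 (.cons 5600 2688 (.cons 5568 2880 (.cons 5504 3264 (.cons 5440 3584 (.cons 5184 3712 (.cons 5120 3904 .nil)))))))))),.nil,.nil⟩
def c283 : Cls := ⟨5484,5560,6120,6124,(.cons 5584 3968 (.cons 5600 3584 (.cons 5632 3264 (.cons 5696 3200 (.cons 5760 2816 (.cons 5824 2624 (.cons 5888 2432 (.cons 6144 2228 .nil)))))))),(.cons 6144 2224 (.cons 5920 2304 (.cons 5824 2368 (.cons 5696 2560 (.cons 5600 2688 (.cons 5568 2880 (.cons 5504 3264 (.cons 5440 3584 (.cons 5184 3712 (.cons 5120 3904 .nil)))))))))),.nil,.nil⟩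
def c284 : Cls := ⟨5432,5552,5984,6144,(.cons 5584 3968 (.cons 5600 3904 (.cons 5632 3776 (.cons 5696 3584 (.cons 5760 2944 (.cons 5824 2688 (.cons 5888 2560 (.cons 6144 2232 .nil)))))))),(.cons 6144 2216 (.cons 5888 2432 (.cons 5568 2688 (.cons 5504 3200 (.cons 5440 3584 (.cons 5184 3712 (.cons 5120 3904 .nil))))))),.nil,.nil⟩
def c285 : Cls := ⟨5552,5584,5984,6144,(.cons 5584 3968 (.cons 5600 3904 (.cons 5632 3776 (.cons 5696 3584 (.cons 5760 2944 (.cons 5824 2688 (.cons 5888 2560 (.cons 6144 2232 .nil)))))))),(.cons 6144 2216 (.cons 5888 2432 (.cons 5568 2688 (.cons 5504 3200 (.cons 5440 3584 (.cons 5184 3712 (.cons 5120 3904 .nil))))))),.nil,.nil⟩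
def c286 : Cls := ⟨5568,5584,5984,6144,(.cons 5584 3968 (.cons 5600 3904 (.cons 5632 3776 (.cons 5696 3584 (.cons 5760 2944 (.cons 5824 2688 (.cons 5888 2560 (.cons 6144 2232 .nil)))))))),(.cons 6144 2216 (.cons 5888 2432 (.cons 5568 2688 (.cons 5504 3200 (.cons 5440 3584 (.cons 5184 3712 (.cons 5120 3904 .nil))))))),.nil,.nil⟩
def c287 : Cls := ⟨5552,5568,5984,6144,(.cons 5584 3968 (.cons 5600 3904 (.cons 5632 3776 (.cons 5696 3584 (.cons 5760 2944 (.cons 5824 2688 (.cons 5888 2560 (.cons 6144 2232 .nil)))))))),(.cons 6144 2216 (.cons 5888 2432 (.cons 5568 2688 (.cons 5504 3200 (.cons 5440 3584 (.cons 5184 3712 (.cons 5120 3904 .nil))))))),.nil,.nil⟩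
def c288 : Cls := ⟨5552,5568,5984,6144,(.cons 5584 3968 (.cons 5600 3904 (.cons 5632 3776 (.cons 5696 3584 (.cons 5760 2944 (.cons 5824 2688 (.cons 5888 2560 (.cons 6144 2224 .nil)))))))),(.cons 6144 2216 (.cons 5888 2432 (.cons 5568 2688 (.cons 5504 3200 (.cons 5440 3584 (.cons 5184 3712 (.cons 5120 3904 .nil))))))),.nil,.nil⟩
def c289 : Cls := ⟨5552,5568,5984,6144,(.cons 5584 3968 (.cons 5600 3904 (.cons 5632 3776 (.cons 5696 3584 (.cons 5760 2944 (.cons 5824 2688 (.cons 5888 2560 (.cons 6144 2232 .nil)))))))),(.cons 6144 2224 (.cons 5888 2432 (.cons 5568 2688 (.cons 5504 3200 (.cons 5440 3584 (.cons 5184 3712 (.cons 5120 3904 .nil))))))),.nil,.nil⟩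
def c290 : Cls := ⟨5552,5568,5984,6112,(.cons 5584 3968 (.cons 5600 3904 (.cons 5632 3776 (.cons 5696 3584 (.cons 5760 2944 (.cons 5824 2688 (.cons 5888 2560 (.cons 6144 2232 .nil)))))))),(.cons 6144 2224 (.cons 5888 2432 (.cons 5568 2688 (.cons 5504 3200 (.cons 5440 3584 (.cons 5184 3712 (.cons 5120 3904 .nil))))))),.nil,.nil⟩
def c291 : Cls := ⟨5552,5568,6112,6144,(.cons 5584 3968 (.cons 5600 3904 (.cons 5632 3776 (.cons 5696 3584 (.cons 5760 2944 (.cons 5824 2688 (.cons 5888 2560 (.cons 6144 2232 .nil)))))))),(.cons 6144 2224 (.cons 5888 2432 (.cons 5568 2688 (.cons 5504 3200 (.cons 5440 3584 (.cons 5184 3712 (.cons 5120 3904 .nil))))))),.nil,.nil⟩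
def c292 : Cls := ⟨5552,5568,6128,6144,(.cons 5584 3968 (.cons 5600 3904 (.cons 5632 3776 (.cons 5696 3584 (.cons 5760 2944 (.cons 5824 2688 (.cons 5888 2560 (.cons 6144 2232 .nil)))))))),(.cons 6144 2224 (.cons 5888 2432 (.cons 5568 2688 (.cons 5504 3200 (.cons 5440 3584 (.cons 5184 3712 (.cons 5120 3904 .nil))))))),.nil,.nil⟩
def c293 : Cls := ⟨5552,5568,6112,6128,(.cons 5584 3968 (.cons 5600 3904 (.cons 5632 3776 (.cons 5696 3584 (.cons 5760 2944 (.cons 5824 2688 (.cons 5888 2560 (.cons 6144 2232 .nil)))))))),(.cons 6144 2224 (.cons 5888 2432 (.cons 5568 2688 (.cons 5504 3200 (.cons 5440 3584 (.cons 5184 3712 (.cons 5120 3904 .nil))))))),.nil,.nil⟩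
def c294 : Cls := ⟨5152,5264,5688,6144,(.cons 6144 2352 .nil),(.cons 6144 2232 (.cons 5568 2304 (.cons 5504 2432 (.cons 5440 2944 (.cons 5376 3072 (.cons 5312 3200 (.cons 5248 3456 (.cons 5184 3712 (.cons 5120 3904 .nil))))))))),.nil,.nil⟩
def c295 : Cls := ⟨5264,5696,5688,6144,(.cons 6144 2352 .nil),(.cons 6144 2232 (.cons 5568 2304 (.cons 5504 2432 (.cons 5440 2944 (.cons 5376 3072 (.cons 5312 3200 (.cons 5248 3456 (.cons 5184 3712 (.cons 5120 3904 .nil))))))))),.nil,.nil⟩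
def c296 : Cls := ⟨5632,5696,5688,6144,(.cons 6144 2352 .nil),(.cons 6144 2232 (.cons 5568 2304 (.cons 5504 2432 (.cons 5440 2944 (.cons 5376 3072 (.cons 5312 3200 (.cons 5248 3456 (.cons 5184 3712 (.cons 5120 3904 .nil))))))))),.nil,.nil⟩
def c297 : Cls := ⟨5264,5632,5688,6144,(.cons 6144 2352 .nil),(.cons 6144 2232 (.cons 5568 2304 (.cons 5504 2432 (.cons 5440 2944 (.cons 5376 3072 (.cons 5312 3200 (.cons 5248 3456 (.cons 5184 3712 (.cons 5120 3904 .nil))))))))),.nil,.nil⟩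
def c298 : Cls := ⟨5264,5632,5688,6144,(.cons 6144 2352 .nil),(.cons 6144 2344 (.cons 5504 2432 (.cons 5440 2944 (.cons 5376 3072 (.cons 5312 3200 (.cons 5248 3456 (.cons 5184 3712 (.cons 5120 3904 .nil)))))))),.nil,.nil⟩
def c299 : Cls := ⟨5264,5632,5688,6144,(.cons 6144 2344 .nil),(.cons 6144 2232 (.cons 5568 2304 (.cons 5504 2432 (.cons 5440 2944 (.cons 5376 3072 (.cons 5312 3200 (.cons 5248 3456 (.cons 5184 3712 (.cons 5120 3904 .nil))))))))),.nil,.nil⟩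
def c300 : Cls := ⟨5264,5632,5688,5784,(.cons 6144 2344 .nil),(.cons 6144 2232 (.cons 5568 2304 (.cons 5504 2432 (.cons 5440 2944 (.cons 5376 3072 (.cons 5312 3200 (.cons 5248 3456 (.cons 5184 3712 (.cons 5120 3904 .nil))))))))),.nil,.nil⟩
def c301 : Cls := ⟨5264,5632,5784,6144,(.cons 6144 2344 .nil),(.cons 6144 2232 (.cons 5568 2304 (.cons 5504 2432 (.cons 5440 2944 (.cons 5376 3072 (.cons 5312 3200 (.cons 5248 3456 (.cons 5184 3712 (.cons 5120 3904 .nil))))))))),.nil,.nil⟩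
def c302 : Cls := ⟨5264,5632,5784,6144,(.cons 6144 2344 .nil),(.cons 6144 2232 (.cons 5568 2304 (.cons 5504 2432 (.cons 5440 2944 (.cons 5376 3584 (.cons 5184 3712 (.cons 5120 3904 .nil))))))),.nil,.nil⟩
def c303 : Cls := ⟨5264,5632,5784,6144,(.cons 6144 2344 .nil),(.cons 6144 2232 (.cons 5568 2304 (.cons 5504 2816 (.cons 5440 3200 (.cons 5376 3584 (.cons 5184 3712 (.cons 5120 3904 .nil))))))),.nil,.nil⟩
def c304 : Cls := ⟨5264,5632,5784,6144,(.cons 6144 2344 .nil),(.cons 6144 2232 (.cons 5632 2560 (.cons 5504 2816 (.cons 5440 3200 (.cons 5376 3584 (.cons 5184 3712 (.cons 5120 3904 .nil))))))),.nil,.nil⟩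
def c305 : Cls := ⟨5264,5632,5784,6144,(.cons 5696 3456 (.cons 5760 3328 (.cons 6144 2344 .nil))),(.cons 6144 2232 (.cons 5632 2560 (.cons 5504 2816 (.cons 5440 3200 (.cons 5376 3584 (.cons 5184 3712 (.cons 5120 3904 .nil))))))),.nil,.nil⟩
def c306 : Cls := ⟨5264,5288,5784,6144,(.cons 5696 3456 (.cons 5760 3328 (.cons 6144 2344 .nil))),(.cons 6144 2232 (.cons 5632 2560 (.cons 5504 2816 (.cons 5440 3200 (.cons 5376 3584 (.cons 5184 3712 (.cons 5120 3904 .nil))))))),.nil,.nil⟩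
def c307 : Cls := ⟨5288,5632,5784,6144,(.cons 5696 3456 (.cons 5760 3328 (.cons 6144 2344 .nil))),(.cons 6144 2232 (.cons 5632 2560 (.cons 5504 2816 (.cons 5440 3200 (.cons 5376 3584 (.cons 5184 3712 (.cons 5120 3904 .nil))))))),.nil,.nil⟩
def c308 : Cls := ⟨5288,5632,5784,5800,(.cons 5696 3456 (.cons 5760 3328 (.cons 6144 2344 .nil))),(.cons 6144 2232 (.cons 5632 2560 (.cons 5504 2816 (.cons 5440 3200 (.cons 5376 3584 (.cons 5184 3712 (.cons 5120 3904 .nil))))))),.nil,.nil⟩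
def c309 : Cls := ⟨5288,5632,5800,6144,(.cons 5696 3456 (.cons 5760 3328 (.cons 6144 2344 .nil))),(.cons 6144 2232 (.cons 5632 2560 (.cons 5504 2816 (.cons 5440 3200 (.cons 5376 3584 (.cons 5184 3712 (.cons 5120 3904 .nil))))))),.nil,.nil⟩
def c310 : Cls := ⟨5288,5632,5800,6144,(.cons 5696 3456 (.cons 5760 3328 (.cons 6144 2288 .nil))),(.cons 6144 2232 (.cons 5632 2560 (.cons 5504 2816 (.cons 5440 3200 (.cons 5376 3584 (.cons 5184 3712 (.cons 5120 3904 .nil))))))),.nil,.nil⟩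
def c311 : Cls := ⟨5288,5632,5800,6144,(.cons 5696 3456 (.cons 5760 3328 (.cons 6144 2344 .nil))),(.cons 6144 2288 (.cons 5632 2560 (.cons 5504 2816 (.cons 5440 3200 (.cons 5376 3584 (.cons 5184 3712 (.cons 5120 3904 .nil))))))),.nil,.nil⟩
def c312 : Cls := ⟨5288,5336,5800,6144,(.cons 5696 3456 (.cons 5760 3328 (.cons 6144 2288 .nil))),(.cons 6144 2232 (.cons 5632 2560 (.cons 5504 2816 (.cons 5440 3200 (.cons 5376 3584 (.cons 5184 3712 (.cons 5120 3904 .nil))))))),.nil,.nil⟩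
def c313 : Cls := ⟨5336,5632,5800,6144,(.cons 5696 3456 (.cons 5760 3328 (.cons 6144 2288 .nil))),(.cons 6144 2232 (.cons 5632 2560 (.cons 5504 2816 (.cons 5440 3200 (.cons 5376 3584 (.cons 5184 3712 (.cons 5120 3904 .nil))))))),.nil,.nil⟩
def c314 : Cls := ⟨5608,5632,5800,6144,(.cons 5696 3456 (.cons 5760 3328 (.cons 6144 2288 .nil))),(.cons 6144 2232 (.cons 5632 2560 (.cons 5504 2816 (.cons 5440 3200 (.cons 5376 3584 (.cons 5184 3712 (.cons 5120 3904 .nil))))))),.nil,.nil⟩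
def c315 : Cls := ⟨5336,5608,5800,6144,(.cons 5696 3456 (.cons 5760 3328 (.cons 6144 2288 .nil))),(.cons 6144 2232 (.cons 5632 2560 (.cons 5504 2816 (.cons 5440 3200 (.cons 5376 3584 (.cons 5184 3712 (.cons 5120 3904 .nil))))))),.nil,.nil⟩
def c316 : Cls := ⟨5336,5608,5800,5872,(.cons 5696 3456 (.cons 5760 3328 (.cons 6144 2288 .nil))),(.cons 6144 2232 (.cons 5632 2560 (.cons 5504 2816 (.cons 5440 3200 (.cons 5376 3584 (.cons 5184 3712 (.cons 5120 3904 .nil))))))),.nil,.nil⟩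
def c317 : Cls := ⟨5336,5608,5872,6144,(.cons 5696 3456 (.cons 5760 3328 (.cons 6144 2288 .nil))),(.cons 6144 2232 (.cons 5632 2560 (.cons 5504 2816 (.cons 5440 3200 (.cons 5376 3584 (.cons 5184 3712 (.cons 5120 3904 .nil))))))),.nil,.nil⟩
def c318 : Cls := ⟨5336,5608,5872,6144,(.cons 5696 3456 (.cons 5760 3328 (.cons 6144 2288 .nil))),(.cons 6144 2232 (.cons 5632 2560 (.cons 5504 2816 (.cons 5440 3584 (.cons 5376 3840 (.cons 5120 3904 .nil)))))),.nil,.nil⟩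
def c319 : Cls := ⟨5336,5608,5872,6144,(.cons 5696 3456 (.cons 5760 2944 (.cons 6144 2288 .nil))),(.cons 6144 2232 (.cons 5632 2560 (.cons 5504 2816 (.cons 5440 3584 (.cons 5376 3840 (.cons 5120 3904 .nil)))))),.nil,.nil⟩
def c320 : Cls := ⟨5336,5608,5872,5888,(.cons 5696 3456 (.cons 5760 2944 (.cons 6144 2288 .nil))),(.cons 6144 2232 (.cons 5632 2560 (.cons 5504 2816 (.cons 5440 3584 (.cons 5376 3840 (.cons 5120 3904 .nil)))))),.nil,.nil⟩
def c321 : Cls := ⟨5336,5608,5888,6144,(.cons 5696 3456 (.cons 5760 2944 (.cons 6144 2288 .nil))),(.cons 6144 2232 (.cons 5632 2560 (.cons 5504 2816 (.cons 5440 3584 (.cons 5376 3840 (.cons 5120 3904 .nil)))))),.nil,.nil⟩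
def c322 : Cls := ⟨5336,5608,5888,6144,(.cons 5632 3840 (.cons 5696 3328 (.cons 5760 2944 (.cons 6144 2288 .nil)))),(.cons 6144 2232 (.cons 5632 2560 (.cons 5504 2816 (.cons 5440 3584 (.cons 5376 3840 (.cons 5120 3904 .nil)))))),.nil,.nil⟩
def c323 : Cls := ⟨5336,5608,5888,6144,(.cons 5632 3840 (.cons 5696 3328 (.cons 5760 2432 (.cons 6144 2288 .nil)))),(.cons 6144 2232 (.cons 5632 2560 (.cons 5504 2816 (.cons 5440 3584 (.cons 5376 3840 (.cons 5120 3904 .nil)))))),.nil,.nil⟩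
def c324 : Cls := ⟨5336,5608,5888,6144,(.cons 5632 3840 (.cons 5696 3328 (.cons 5760 2944 (.cons 6144 2288 .nil)))),(.cons 6144 2232 (.cons 5760 2432 (.cons 5632 2560 (.cons 5504 2816 (.cons 5440 3584 (.cons 5376 3840 (.cons 5120 3904 .nil))))))),.nil,.nil⟩
def c325 : Cls := ⟨5336,5448,5888,6144,(.cons 5632 3840 (.cons 5696 3328 (.cons 5760 2432 (.cons 6144 2288 .nil)))),(.cons 6144 2232 (.cons 5632 2560 (.cons 5504 2816 (.cons 5440 3584 (.cons 5376 3840 (.cons 5120 3904 .nil)))))),.nil,.nil⟩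
def c326 : Cls := ⟨5448,5608,5888,6144,(.cons 5632 3840 (.cons 5696 3328 (.cons 5760 2432 (.cons 6144 2288 .nil)))),(.cons 6144 2232 (.cons 5632 2560 (.cons 5504 2816 (.cons 5440 3584 (.cons 5376 3840 (.cons 5120 3904 .nil)))))),.nil,.nil⟩
def c327 : Cls := ⟨5584,5608,5888,6144,(.cons 5632 3840 (.cons 5696 3328 (.cons 5760 2432 (.cons 6144 2288 .nil)))),(.cons 6144 2232 (.cons 5632 2560 (.cons 5504 2816 (.cons 5440 3584 (.cons 5376 3840 (.cons 5120 3904 .nil)))))),.nil,.nil⟩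
def c328 : Cls := ⟨5448,5584,5888,6144,(.cons 5632 3840 (.cons 5696 3328 (.cons 5760 2432 (.cons 6144 2288 .nil)))),(.cons 6144 2232 (.cons 5632 2560 (.cons 5504 2816 (.cons 5440 3584 (.cons 5376 3840 (.cons 5120 3904 .nil)))))),.nil,.nil⟩
def c329 : Cls := ⟨5448,5584,5888,6144,(.cons 5632 3840 (.cons 5696 3328 (.cons 5760 2432 (.cons 6144 2240 .nil)))),(.cons 6144 2232 (.cons 5632 2560 (.cons 5504 2816 (.cons 5440 3584 (.cons 5376 3840 (.cons 5120 3904 .nil)))))),.nil,.nil⟩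
def c330 : Cls := ⟨5448,5584,5888,6144,(.cons 5632 3840 (.cons 5696 3328 (.cons 5760 2432 (.cons 6144 2288 .nil)))),(.cons 6144 2240 (.cons 5632 2560 (.cons 5504 2816 (.cons 5440 3584 (.cons 5376 3840 (.cons 5120 3904 .nil)))))),.nil,.nil⟩
def c331 : Cls := ⟨5448,5584,5888,6144,(.cons 5632 3840 (.cons 5696 3328 (.cons 5760 2432 (.cons 6144 2288 .nil)))),(.cons 6144 2256 (.cons 5632 2560 (.cons 5504 2816 (.cons 5440 3584 (.cons 5376 3840 (.cons 5120 3904 .nil)))))),.nil,.nil⟩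
def c332 : Cls := ⟨5448,5584,5888,6144,(.cons 5632 3840 (.cons 5696 3328 (.cons 5760 2432 (.cons 6144 2256 .nil)))),(.cons 6144 2240 (.cons 5632 2560 (.cons 5504 2816 (.cons 5440 3584 (.cons 5376 3840 (.cons 5120 3904 .nil)))))),.nil,.nil⟩
def c333 : Cls := ⟨5448,5584,5888,6096,(.cons 5632 3840 (.cons 5696 3328 (.cons 5760 2432 (.cons 6144 2256 .nil)))),(.cons 6144 2240 (.cons 5632 2560 (.cons 5504 2816 (.cons 5440 3584 (.cons 5376 3840 (.cons 5120 3904 .nil)))))),.nil,.nil⟩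
def c334 : Cls := ⟨5448,5584,6096,6144,(.cons 5632 3840 (.cons 5696 3328 (.cons 5760 2432 (.cons 6144 2256 .nil)))),(.cons 6144 2240 (.cons 5632 2560 (.cons 5504 2816 (.cons 5440 3584 (.cons 5376 3840 (.cons 5120 3904 .nil)))))),.nil,.nil⟩
def c335 : Cls := ⟨5448,5584,6104,6144,(.cons 5632 3840 (.cons 5696 3328 (.cons 5760 2432 (.cons 6144 2256 .nil)))),(.cons 6144 2240 (.cons 5632 2560 (.cons 5504 2816 (.cons 5440 3584 (.cons 5376 3840 (.cons 5120 3904 .nil)))))),.nil,.nil⟩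
def c336 : Cls := ⟨5448,5584,6096,6104,(.cons 5632 3840 (.cons 5696 3328 (.cons 5760 2432 (.cons 6144 2256 .nil)))),(.cons 6144 2240 (.cons 5632 2560 (.cons 5504 2816 (.cons 5440 3584 (.cons 5376 3840 (.cons 5120 3904 .nil)))))),.nil,.nil⟩
def c337 : Cls := ⟨5336,5352,5888,6144,(.cons 5632 3840 (.cons 5696 3328 (.cons 5760 2944 (.cons 6144 2288 .nil)))),(.cons 6144 2232 (.cons 5760 2432 (.cons 5632 2560 (.cons 5504 2816 (.cons 5440 3584 (.cons 5376 3840 (.cons 5120 3904 .nil))))))),.nil,.nil⟩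
def c338 : Cls := ⟨5352,5608,5888,6144,(.cons 5632 3840 (.cons 5696 3328 (.cons 5760 2944 (.cons 6144 2288 .nil)))),(.cons 6144 2232 (.cons 5760 2432 (.cons 5632 2560 (.cons 5504 2816 (.cons 5440 3584 (.cons 5376 3840 (.cons 5120 3904 .nil))))))),.nil,.nil⟩
def c339 : Cls := ⟨5600,5608,5888,6144,(.cons 5632 3840 (.cons 5696 3328 (.cons 5760 2944 (.cons 6144 2288 .nil)))),(.cons 6144 2232 (.cons 5760 2432 (.cons 5632 2560 (.cons 5504 2816 (.cons 5440 3584 (.cons 5376 3840 (.cons 5120 3904 .nil))))))),.nil,.nil⟩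
def c340 : Cls := ⟨5352,5600,5888,6144,(.cons 5632 3840 (.cons 5696 3328 (.cons 5760 2944 (.cons 6144 2288 .nil)))),(.cons 6144 2232 (.cons 5760 2432 (.cons 5632 2560 (.cons 5504 2816 (.cons 5440 3584 (.cons 5376 3840 (.cons 5120 3904 .nil))))))),.nil,.nil⟩
def c341 : Cls := ⟨5352,5600,5888,6144,(.cons 5632 3840 (.cons 5696 3328 (.cons 5760 2944 (.cons 6144 2264 .nil)))),(.cons 6144 2232 (.cons 5760 2432 (.cons 5632 2560 (.cons 5504 2816 (.cons 5440 3584 (.cons 5376 3840 (.cons 5120 3904 .nil))))))),.nil,.nil⟩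
def c342 : Cls := ⟨5352,5600,5888,6144,(.cons 5632 3840 (.cons 5696 3328 (.cons 5760 2944 (.cons 6144 2288 .nil)))),(.cons 6144 2264 (.cons 5760 2432 (.cons 5632 2560 (.cons 5504 2816 (.cons 5440 3584 (.cons 5376 3840 (.cons 5120 3904 .nil))))))),.nil,.nil⟩
def c343 : Cls := ⟨5352,5376,5888,6144,(.cons 5632 3840 (.cons 5696 3328 (.cons 5760 2944 (.cons 6144 2264 .nil)))),(.cons 6144 2232 (.cons 5760 2432 (.cons 5632 2560 (.cons 5504 2816 (.cons 5440 3584 (.cons 5376 3840 (.cons 5120 3904 .nil))))))),.nil,.nil⟩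
def c344 : Cls := ⟨5376,5600,5888,6144,(.cons 5632 3840 (.cons 5696 3328 (.cons 5760 2944 (.cons 6144 2264 .nil)))),(.cons 6144 2232 (.cons 5760 2432 (.cons 5632 2560 (.cons 5504 2816 (.cons 5440 3584 (.cons 5376 3840 (.cons 5120 3904 .nil))))))),.nil,.nil⟩
def c345 : Cls := ⟨5376,5600,5888,5928,(.cons 5632 3840 (.cons 5696 3328 (.cons 5760 2944 (.cons 6144 2264 .nil)))),(.cons 6144 2232 (.cons 5760 2432 (.cons 5632 2560 (.cons 5504 2816 (.cons 5440 3584 (.cons 5376 3840 (.cons 5120 3904 .nil))))))),.nil,.nil⟩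
def c346 : Cls := ⟨5376,5600,5928,6144,(.cons 5632 3840 (.cons 5696 3328 (.cons 5760 2944 (.cons 6144 2264 .nil)))),(.cons 6144 2232 (.cons 5760 2432 (.cons 5632 2560 (.cons 5504 2816 (.cons 5440 3584 (.cons 5376 3840 (.cons 5120 3904 .nil))))))),.nil,.nil⟩
def c347 : Cls := ⟨5376,5600,5928,6144,(.cons 5632 3840 (.cons 5696 3328 (.cons 5760 2944 (.cons 5824 2688 (.cons 6144 2264 .nil))))),(.cons 6144 2232 (.cons 5760 2432 (.cons 5632 2560 (.cons 5504 2816 (.cons 5440 3584 (.cons 5376 3840 (.cons 5120 3904 .nil))))))),.nil,.nil⟩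
def c348 : Cls := ⟨5376,5392,5928,6144,(.cons 5632 3840 (.cons 5696 3328 (.cons 5760 2944 (.cons 5824 2688 (.cons 6144 2264 .nil))))),(.cons 6144 2232 (.cons 5760 2432 (.cons 5632 2560 (.cons 5504 2816 (.cons 5440 3584 (.cons 5376 3840 (.cons 5120 3904 .nil))))))),.nil,.nil⟩
def c349 : Cls := ⟨5392,5600,5928,6144,(.cons 5632 3840 (.cons 5696 3328 (.cons 5760 2944 (.cons 5824 2688 (.cons 6144 2264 .nil))))),(.cons 6144 2232 (.cons 5760 2432 (.cons 5632 2560 (.cons 5504 2816 (.cons 5440 3584 (.cons 5376 3840 (.cons 5120 3904 .nil))))))),.nil,.nil⟩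
def c350 : Cls := ⟨5592,5600,5928,6144,(.cons 5632 3840 (.cons 5696 3328 (.cons 5760 2944 (.cons 5824 2688 (.cons 6144 2264 .nil))))),(.cons 6144 2232 (.cons 5760 2432 (.cons 5632 2560 (.cons 5504 2816 (.cons 5440 3584 (.cons 5376 3840 (.cons 5120 3904 .nil))))))),.nil,.nil⟩
def c351 : Cls := ⟨5392,5592,5928,6144,(.cons 5632 3840 (.cons 5696 3328 (.cons 5760 2944 (.cons 5824 2688 (.cons 6144 2264 .nil))))),(.cons 6144 2232 (.cons 5760 2432 (.cons 5632 2560 (.cons 5504 2816 (.cons 5440 3584 (.cons 5376 3840 (.cons 5120 3904 .nil))))))),.nil,.nil⟩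
def c352 : Cls := ⟨5392,5592,5928,6144,(.cons 5632 3840 (.cons 5696 3328 (.cons 5760 2944 (.cons 5824 2368 (.cons 6144 2264 .nil))))),(.cons 6144 2232 (.cons 5760 2432 (.cons 5632 2560 (.cons 5504 2816 (.cons 5440 3584 (.cons 5376 3840 (.cons 5120 3904 .nil))))))),.nil,.nil⟩
def c353 : Cls := ⟨5392,5592,5928,6144,(.cons 5632 3840 (.cons 5696 3328 (.cons 5760 2944 (.cons 5824 2688 (.cons 6144 2264 .nil))))),(.cons 6144 2232 (.cons 5824 2368 (.cons 5760 2432 (.cons 5632 2560 (.cons 5504 2816 (.cons 5440 3584 (.cons 5376 3840 (.cons 5120 3904 .nil)))))))),.nil,.nil⟩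
def c354 : Cls := ⟨5392,5472,5928,6144,(.cons 5632 3840 (.cons 5696 3328 (.cons 5760 2944 (.cons 5824 2368 (.cons 6144 2264 .nil))))),(.cons 6144 2232 (.cons 5760 2432 (.cons 5632 2560 (.cons 5504 2816 (.cons 5440 3584 (.cons 5376 3840 (.cons 5120 3904 .nil))))))),.nil,.nil⟩
def c355 : Cls := ⟨5472,5592,5928,6144,(.cons 5632 3840 (.cons 5696 3328 (.cons 5760 2944 (.cons 5824 2368 (.cons 6144 2264 .nil))))),(.cons 6144 2232 (.cons 5760 2432 (.cons 5632 2560 (.cons 5504 2816 (.cons 5440 3584 (.cons 5376 3840 (.cons 5120 3904 .nil))))))),.nil,.nil⟩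
def c356 : Cls := ⟨5568,5592,5928,6144,(.cons 5632 3840 (.cons 5696 3328 (.cons 5760 2944 (.cons 5824 2368 (.cons 6144 2264 .nil))))),(.cons 6144 2232 (.cons 5760 2432 (.cons 5632 2560 (.cons 5504 2816 (.cons 5440 3584 (.cons 5376 3840 (.cons 5120 3904 .nil))))))),.nil,.nil⟩
def c357 : Cls := ⟨5472,5568,5928,6144,(.cons 5632 3840 (.cons 5696 3328 (.cons 5760 2944 (.cons 5824 2368 (.cons 6144 2264 .nil))))),(.cons 6144 2232 (.cons 5760 2432 (.cons 5632 2560 (.cons 5504 2816 (.cons 5440 3584 (.cons 5376 3840 (.cons 5120 3904 .nil))))))),.nil,.nil⟩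
def c358 : Cls := ⟨5472,5568,5928,6144,(.cons 5632 3840 (.cons 5696 3328 (.cons 5760 2944 (.cons 5824 2368 (.cons 6144 2248 .nil))))),(.cons 6144 2232 (.cons 5760 2432 (.cons 5632 2560 (.cons 5504 2816 (.cons 5440 3584 (.cons 5376 3840 (.cons 5120 3904 .nil))))))),.nil,.nil⟩
def c359 : Cls := ⟨5472,5568,5928,6144,(.cons 5632 3840 (.cons 5696 3328 (.cons 5760 2944 (.cons 5824 2368 (.cons 6144 2264 .nil))))),(.cons 6144 2248 (.cons 5760 2432 (.cons 5632 2560 (.cons 5504 2816 (.cons 5440 3584 (.cons 5376 3840 (.cons 5120 3904 .nil))))))),.nil,.nil⟩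
def c360 : Cls := ⟨5472,5568,5928,6144,(.cons 5632 3840 (.cons 5696 3328 (.cons 5760 2944 (.cons 5824 2368 (.cons 6144 2264 .nil))))),(.cons 6144 2256 (.cons 5760 2432 (.cons 5632 2560 (.cons 5504 2816 (.cons 5440 3584 (.cons 5376 3840 (.cons 5120 3904 .nil))))))),.nil,.nil⟩
def c361 : Cls := ⟨5472,5568,5928,6144,(.cons 5632 3840 (.cons 5696 3328 (.cons 5760 2944 (.cons 5824 2368 (.cons 6144 2256 .nil))))),(.cons 6144 2248 (.cons 5760 2432 (.cons 5632 2560 (.cons 5504 2816 (.cons 5440 3584 (.cons 5376 3840 (.cons 5120 3904 .nil))))))),.nil,.nil⟩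
def c362 : Cls := ⟨5472,5568,5928,6104,(.cons 5632 3840 (.cons 5696 3328 (.cons 5760 2944 (.cons 5824 2368 (.cons 6144 2256 .nil))))),(.cons 6144 2248 (.cons 5760 2432 (.cons 5632 2560 (.cons 5504 2816 (.cons 5440 3584 (.cons 5376 3840 (.cons 5120 3904 .nil))))))),.nil,.nil⟩
def c363 : Cls := ⟨5472,5568,6104,6144,(.cons 5632 3840 (.cons 5696 3328 (.cons 5760 2944 (.cons 5824 2368 (.cons 6144 2256 .nil))))),(.cons 6144 2248 (.cons 5760 2432 (.cons 5632 2560 (.cons 5504 2816 (.cons 5440 3584 (.cons 5376 3840 (.cons 5120 3904 .nil))))))),.nil,.nil⟩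
def c364 : Cls := ⟨5472,5568,6128,6144,(.cons 5632 3840 (.cons 5696 3328 (.cons 5760 2944 (.cons 5824 2368 (.cons 6144 2256 .nil))))),(.cons 6144 2248 (.cons 5760 2432 (.cons 5632 2560 (.cons 5504 2816 (.cons 5440 3584 (.cons 5376 3840 (.cons 5120 3904 .nil))))))),.nil,.nil⟩
def c365 : Cls := ⟨5472,5568,6104,6128,(.cons 5632 3840 (.cons 5696 3328 (.cons 5760 2944 (.cons 5824 2368 (.cons 6144 2256 .nil))))),(.cons 6144 2248 (.cons 5760 2432 (.cons 5632 2560 (.cons 5504 2816 (.cons 5440 3584 (.cons 5376 3840 (.cons 5120 3904 .nil))))))),.nil,.nil⟩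
def c366 : Cls := ⟨5584,5592,5928,6144,(.cons 5632 3840 (.cons 5696 3328 (.cons 5760 2944 (.cons 5824 2688 (.cons 6144 2264 .nil))))),(.cons 6144 2232 (.cons 5824 2368 (.cons 5760 2432 (.cons 5632 2560 (.cons 5504 2816 (.cons 5440 3584 (.cons 5376 3840 (.cons 5120 3904 .nil)))))))),.nil,.nil⟩
def c367 : Cls := ⟨5392,5584,5928,6144,(.cons 5632 3840 (.cons 5696 3328 (.cons 5760 2944 (.cons 5824 2688 (.cons 6144 2264 .nil))))),(.cons 6144 2232 (.cons 5824 2368 (.cons 5760 2432 (.cons 5632 2560 (.cons 5504 2816 (.cons 5440 3584 (.cons 5376 3840 (.cons 5120 3904 .nil)))))))),.nil,.nil⟩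
def c368 : Cls := ⟨5392,5412,5928,6144,(.cons 5632 3840 (.cons 5696 3328 (.cons 5760 2944 (.cons 5824 2688 (.cons 6144 2264 .nil))))),(.cons 6144 2232 (.cons 5824 2368 (.cons 5760 2432 (.cons 5632 2560 (.cons 5504 2816 (.cons 5440 3584 (.cons 5376 3840 (.cons 5120 3904 .nil)))))))),.nil,.nil⟩
def c369 : Cls := ⟨5412,5584,5928,6144,(.cons 5632 3840 (.cons 5696 3328 (.cons 5760 2944 (.cons 5824 2688 (.cons 6144 2264 .nil))))),(.cons 6144 2232 (.cons 5824 2368 (.cons 5760 2432 (.cons 5632 2560 (.cons 5504 2816 (.cons 5440 3584 (.cons 5376 3840 (.cons 5120 3904 .nil)))))))),.nil,.nil⟩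
def c370 : Cls := ⟨5412,5584,5928,5960,(.cons 5632 3840 (.cons 5696 3328 (.cons 5760 2944 (.cons 5824 2688 (.cons 6144 2264 .nil))))),(.cons 6144 2232 (.cons 5824 2368 (.cons 5760 2432 (.cons 5632 2560 (.cons 5504 2816 (.cons 5440 3584 (.cons 5376 3840 (.cons 5120 3904 .nil)))))))),.nil,.nil⟩
def c371 : Cls := ⟨5412,5584,5960,6144,(.cons 5632 3840 (.cons 5696 3328 (.cons 5760 2944 (.cons 5824 2688 (.cons 6144 2264 .nil))))),(.cons 6144 2232 (.cons 5824 2368 (.cons 5760 2432 (.cons 5632 2560 (.cons 5504 2816 (.cons 5440 3584 (.cons 5376 3840 (.cons 5120 3904 .nil)))))))),.nil,.nil⟩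
def c372 : Cls := ⟨5412,5584,5960,6144,(.cons 5632 3840 (.cons 5696 3328 (.cons 5760 2944 (.cons 5824 2688 (.cons 6144 2264 .nil))))),(.cons 6144 2232 (.cons 5824 2368 (.cons 5760 2432 (.cons 5664 2560 (.cons 5632 2688 (.cons 5504 2816 (.cons 5440 3584 (.cons 5376 3840 (.cons 5120 3904 .nil))))))))),.nil,.nil⟩
def c373 : Cls := ⟨5412,5584,5960,6144,(.cons 5632 3840 (.cons 5696 3328 (.cons 5760 2944 (.cons 5824 2624 (.cons 5856 2560 (.cons 6144 2264 .nil)))))),(.cons 6144 2232 (.cons 5824 2368 (.cons 5760 2432 (.cons 5664 2560 (.cons 5632 2688 (.cons 5504 2816 (.cons 5440 3584 (.cons 5376 3840 (.cons 5120 3904 .nil))))))))),.nil,.nil⟩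
def c374 : Cls := ⟨5412,5584,5960,6144,(.cons 5632 3840 (.cons 5696 3328 (.cons 5760 2944 (.cons 5824 2624 (.cons 5856 2336 (.cons 6144 2264 .nil)))))),(.cons 6144 2232 (.cons 5824 2368 (.cons 5760 2432 (.cons 5664 2560 (.cons 5632 2688 (.cons 5504 2816 (.cons 5440 3584 (.cons 5376 3840 (.cons 5120 3904 .nil))))))))),.nil,.nil⟩
def c375 : Cls := ⟨5412,5584,5960,6144,(.cons 5632 3840 (.cons 5696 3328 (.cons 5760 2944 (.cons 5824 2624 (.cons 5856 2560 (.cons 6144 2264 .nil)))))),(.cons 6144 2232 (.cons 5856 2336 (.cons 5824 2368 (.cons 5760 2432 (.cons 5664 2560 (.cons 5632 2688 (.cons 5504 2816 (.cons 5440 3584 (.cons 5376 3840 (.cons 5120 3904 .nil)))))))))),.nil,.nil⟩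
def c376 : Cls := ⟨5412,5584,5960,6144,(.cons 5632 3840 (.cons 5696 3328 (.cons 5760 2944 (.cons 5824 2624 (.cons 5856 2560 (.cons 6144 2264 .nil)))))),(.cons 6144 2232 (.cons 5856 2336 (.cons 5824 2368 (.cons 5760 2432 (.cons 5664 2560 (.cons 5632 2688 (.cons 5536 2880 (.cons 5504 2944 (.cons 5472 3136 (.cons 5440 3648 (.cons 5376 3840 (.cons 5120 3904 .nil)))))))))))),.nil,.nil⟩
def c377 : Cls := ⟨5412,5420,5960,6144,(.cons 5632 3840 (.cons 5696 3328 (.cons 5760 2944 (.cons 5824 2624 (.cons 5856 2560 (.cons 6144 2264 .nil)))))),(.cons 6144 2232 (.cons 5856 2336 (.cons 5824 2368 (.cons 5760 2432 (.cons 5664 2560 (.cons 5632 2688 (.cons 5536 2880 (.cons 5504 2944 (.cons 5472 3136 (.cons 5440 3648 (.cons 5376 3840 (.cons 5120 3904 .nil)))))))))))),.nil,.nil⟩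
def c378 : Cls := ⟨5420,5584,5960,6144,(.cons 5632 3840 (.cons 5696 3328 (.cons 5760 2944 (.cons 5824 2624 (.cons 5856 2560 (.cons 6144 2264 .nil)))))),(.cons 6144 2232 (.cons 5856 2336 (.cons 5824 2368 (.cons 5760 2432 (.cons 5664 2560 (.cons 5632 2688 (.cons 5536 2880 (.cons 5504 2944 (.cons 5472 3136 (.cons 5440 3648 (.cons 5376 3840 (.cons 5120 3904 .nil)))))))))))),.nil,.nil⟩
def c379 : Cls := ⟨5576,5584,5960,6144,(.cons 5632 3840 (.cons 5696 3328 (.cons 5760 2944 (.cons 5824 2624 (.cons 5856 2560 (.cons 6144 2264 .nil)))))),(.cons 6144 2232 (.cons 5856 2336 (.cons 5824 2368 (.cons 5760 2432 (.cons 5664 2560 (.cons 5632 2688 (.cons 5536 2880 (.cons 5504 2944 (.cons 5472 3136 (.cons 5440 3648 (.cons 5376 3840 (.cons 5120 3904 .nil)))))))))))),.nil,.nil⟩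
def c380 : Cls := ⟨5420,5576,5960,6144,(.cons 5632 3840 (.cons 5696 3328 (.cons 5760 2944 (.cons 5824 2624 (.cons 5856 2560 (.cons 6144 2264 .nil)))))),(.cons 6144 2232 (.cons 5856 2336 (.cons 5824 2368 (.cons 5760 2432 (.cons 5664 2560 (.cons 5632 2688 (.cons 5536 2880 (.cons 5504 2944 (.cons 5472 3136 (.cons 5440 3648 (.cons 5376 3840 (.cons 5120 3904 .nil)))))))))))),.nil,.nil⟩
def c381 : Cls := ⟨5420,5576,5960,5968,(.cons 5632 3840 (.cons 5696 3328 (.cons 5760 2944 (.cons 5824 2624 (.cons 5856 2560 (.cons 6144 2264 .nil)))))),(.cons 6144 2232 (.cons 5856 2336 (.cons 5824 2368 (.cons 5760 2432 (.cons 5664 2560 (.cons 5632 2688 (.cons 5536 2880 (.cons 5504 2944 (.cons 5472 3136 (.cons 5440 3648 (.cons 5376 3840 (.cons 5120 3904 .nil)))))))))))),.nil,.nil⟩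
def c382 : Cls := ⟨5420,5576,5968,6144,(.cons 5632 3840 (.cons 5696 3328 (.cons 5760 2944 (.cons 5824 2624 (.cons 5856 2560 (.cons 6144 2264 .nil)))))),(.cons 6144 2232 (.cons 5856 2336 (.cons 5824 2368 (.cons 5760 2432 (.cons 5664 2560 (.cons 5632 2688 (.cons 5536 2880 (.cons 5504 2944 (.cons 5472 3136 (.cons 5440 3648 (.cons 5376 3840 (.cons 5120 3904 .nil)))))))))))),.nil,.nil⟩
def c383 : Cls := ⟨5420,5576,5968,6144,(.cons 5632 3840 (.cons 5696 3328 (.cons 5760 2944 (.cons 5824 2624 (.cons 5856 2560 (.cons 6144 2248 .nil)))))),(.cons 6144 2232 (.cons 5856 2336 (.cons 5824 2368 (.cons 5760 2432 (.cons 5664 2560 (.cons 5632 2688 (.cons 5536 2880 (.cons 5504 2944 (.cons 5472 3136 (.cons 5440 3648 (.cons 5376 3840 (.cons 5120 3904 .nil)))))))))))),.nil,.nil⟩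
def c384 : Cls := ⟨5420,5576,5968,6144,(.cons 5632 3840 (.cons 5696 3328 (.cons 5760 2944 (.cons 5824 2624 (.cons 5856 2560 (.cons 6144 2264 .nil)))))),(.cons 6144 2248 (.cons 5856 2336 (.cons 5824 2368 (.cons 5760 2432 (.cons 5664 2560 (.cons 5632 2688 (.cons 5536 2880 (.cons 5504 2944 (.cons 5472 3136 (.cons 5440 3648 (.cons 5376 3840 (.cons 5120 3904 .nil)))))))))))),.nil,.nil⟩
def c385 : Cls := ⟨5420,5444,5968,6144,(.cons 5632 3840 (.cons 5696 3328 (.cons 5760 2944 (.cons 5824 2624 (.cons 5856 2560 (.cons 6144 2248 .nil)))))),(.cons 6144 2232 (.cons 5856 2336 (.cons 5824 2368 (.cons 5760 2432 (.cons 5664 2560 (.cons 5632 2688 (.cons 5536 2880 (.cons 5504 2944 (.cons 5472 3136 (.cons 5440 3648 (.cons 5376 3840 (.cons 5120 3904 .nil)))))))))))),.nil,.nil⟩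
def c386 : Cls := ⟨5444,5576,5968,6144,(.cons 5632 3840 (.cons 5696 3328 (.cons 5760 2944 (.cons 5824 2624 (.cons 5856 2560 (.cons 6144 2248 .nil)))))),(.cons 6144 2232 (.cons 5856 2336 (.cons 5824 2368 (.cons 5760 2432 (.cons 5664 2560 (.cons 5632 2688 (.cons 5536 2880 (.cons 5504 2944 (.cons 5472 3136 (.cons 5440 3648 (.cons 5376 3840 (.cons 5120 3904 .nil)))))))))))),.nil,.nil⟩
def c387 : Cls := ⟨5568,5576,5968,6144,(.cons 5632 3840 (.cons 5696 3328 (.cons 5760 2944 (.cons 5824 2624 (.cons 5856 2560 (.cons 6144 2248 .nil)))))),(.cons 6144 2232 (.cons 5856 2336 (.cons 5824 2368 (.cons 5760 2432 (.cons 5664 2560 (.cons 5632 2688 (.cons 5536 2880 (.cons 5504 2944 (.cons 5472 3136 (.cons 5440 3648 (.cons 5376 3840 (.cons 5120 3904 .nil)))))))))))),.nil,.nil⟩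
def c388 : Cls := ⟨5444,5568,5968,6144,(.cons 5632 3840 (.cons 5696 3328 (.cons 5760 2944 (.cons 5824 2624 (.cons 5856 2560 (.cons 6144 2248 .nil)))))),(.cons 6144 2232 (.cons 5856 2336 (.cons 5824 2368 (.cons 5760 2432 (.cons 5664 2560 (.cons 5632 2688 (.cons 5536 2880 (.cons 5504 2944 (.cons 5472 3136 (.cons 5440 3648 (.cons 5376 3840 (.cons 5120 3904 .nil)))))))))))),.nil,.nil⟩
def c389 : Cls := ⟨5444,5568,5968,6004,(.cons 5632 3840 (.cons 5696 3328 (.cons 5760 2944 (.cons 5824 2624 (.cons 5856 2560 (.cons 6144 2248 .nil)))))),(.cons 6144 2232 (.cons 5856 2336 (.cons 5824 2368 (.cons 5760 2432 (.cons 5664 2560 (.cons 5632 2688 (.cons 5536 2880 (.cons 5504 2944 (.cons 5472 3136 (.cons 5440 3648 (.cons 5376 3840 (.cons 5120 3904 .nil)))))))))))),.nil,.nil⟩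
def c390 : Cls := ⟨5444,5568,6004,6144,(.cons 5632 3840 (.cons 5696 3328 (.cons 5760 2944 (.cons 5824 2624 (.cons 5856 2560 (.cons 6144 2248 .nil)))))),(.cons 6144 2232 (.cons 5856 2336 (.cons 5824 2368 (.cons 5760 2432 (.cons 5664 2560 (.cons 5632 2688 (.cons 5536 2880 (.cons 5504 2944 (.cons 5472 3136 (.cons 5440 3648 (.cons 5376 3840 (.cons 5120 3904 .nil)))))))))))),.nil,.nil⟩
def c391 : Cls := ⟨5444,5568,6004,6144,(.cons 5632 3840 (.cons 5696 3328 (.cons 5760 2944 (.cons 5824 2624 (.cons 5856 2560 (.cons 6144 2248 .nil)))))),(.cons 6144 2232 (.cons 5856 2336 (.cons 5824 2368 (.cons 5760 2432 (.cons 5664 2560 (.cons 5632 2688 (.cons 5568 2944 (.cons 5536 3072 (.cons 5504 3136 (.cons 5472 3264 (.cons 5440 3648 (.cons 5376 3840 (.cons 5120 3904 .nil))))))))))))),.nil,.nil⟩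
def c392 : Cls := ⟨5444,5568,6004,6144,(.cons 5600 3712 (.cons 5632 3520 (.cons 5664 3456 (.cons 5696 3136 (.cons 5760 2944 (.cons 5824 2624 (.cons 5856 2560 (.cons 6144 2248 .nil)))))))),(.cons 6144 2232 (.cons 5856 2336 (.cons 5824 2368 (.cons 5760 2432 (.cons 5664 2560 (.cons 5632 2688 (.cons 5568 2944 (.cons 5536 3072 (.cons 5504 3136 (.cons 5472 3264 (.cons 5440 3648 (.cons 5376 3840 (.cons 5120 3904 .nil))))))))))))),.nil,.nil⟩
def c393 : Cls := ⟨5444,5568,6004,6144,(.cons 5600 3712 (.cons 5632 3520 (.cons 5664 3456 (.cons 5696 3136 (.cons 5760 2944 (.cons 5824 2624 (.cons 5856 2560 (.cons 5888 2432 (.cons 6144 2248 .nil))))))))),(.cons 6144 2232 (.cons 5856 2336 (.cons 5824 2368 (.cons 5760 2432 (.cons 5664 2560 (.cons 5632 2688 (.cons 5568 2944 (.cons 5536 3072 (.cons 5504 3136 (.cons 5472 3264 (.cons 5440 3648 (.cons 5376 3840 (.cons 5120 3904 .nil))))))))))))),.nil,.nil⟩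
def c394 : Cls := ⟨5444,5456,6004,6144,(.cons 5600 3712 (.cons 5632 3520 (.cons 5664 3456 (.cons 5696 3136 (.cons 5760 2944 (.cons 5824 2624 (.cons 5856 2560 (.cons 5888 2432 (.cons 6144 2248 .nil))))))))),(.cons 6144 2232 (.cons 5856 2336 (.cons 5824 2368 (.cons 5760 2432 (.cons 5664 2560 (.cons 5632 2688 (.cons 5568 2944 (.cons 5536 3072 (.cons 5504 3136 (.cons 5472 3264 (.cons 5440 3648 (.cons 5376 3840 (.cons 5120 3904 .nil))))))))))))),.nil,.nil⟩
def c395 : Cls := ⟨5456,5568,6004,6144,(.cons 5600 3712 (.cons 5632 3520 (.cons 5664 3456 (.cons 5696 3136 (.cons 5760 2944 (.cons 5824 2624 (.cons 5856 2560 (.cons 5888 2432 (.cons 6144 2248 .nil))))))))),(.cons 6144 2232 (.cons 5856 2336 (.cons 5824 2368 (.cons 5760 2432 (.cons 5664 2560 (.cons 5632 2688 (.cons 5568 2944 (.cons 5536 3072 (.cons 5504 3136 (.cons 5472 3264 (.cons 5440 3648 (.cons 5376 3840 (.cons 5120 3904 .nil))))))))))))),.nil,.nil⟩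
def c396 : Cls := ⟨5456,5568,6004,6012,(.cons 5600 3712 (.cons 5632 3520 (.cons 5664 3456 (.cons 5696 3136 (.cons 5760 2944 (.cons 5824 2624 (.cons 5856 2560 (.cons 5888 2432 (.cons 6144 2248 .nil))))))))),(.cons 6144 2232 (.cons 5856 2336 (.cons 5824 2368 (.cons 5760 2432 (.cons 5664 2560 (.cons 5632 2688 (.cons 5568 2944 (.cons 5536 3072 (.cons 5504 3136 (.cons 5472 3264 (.cons 5440 3648 (.cons 5376 3840 (.cons 5120 3904 .nil))))))))))))),.nil,.nil⟩
def c397 : Cls := ⟨5456,5568,6012,6144,(.cons 5600 3712 (.cons 5632 3520 (.cons 5664 3456 (.cons 5696 3136 (.cons 5760 2944 (.cons 5824 2624 (.cons 5856 2560 (.cons 5888 2432 (.cons 6144 2248 .nil))))))))),(.cons 6144 2232 (.cons 5856 2336 (.cons 5824 2368 (.cons 5760 2432 (.cons 5664 2560 (.cons 5632 2688 (.cons 5568 2944 (.cons 5536 3072 (.cons 5504 3136 (.cons 5472 3264 (.cons 5440 3648 (.cons 5376 3840 (.cons 5120 3904 .nil))))))))))))),.nil,.nil⟩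
def c398 : Cls := ⟨5456,5568,6012,6144,(.cons 5600 3712 (.cons 5632 3520 (.cons 5664 3456 (.cons 5696 3136 (.cons 5760 2944 (.cons 5824 2624 (.cons 5856 2560 (.cons 5888 2432 (.cons 6144 2240 .nil))))))))),(.cons 6144 2232 (.cons 5856 2336 (.cons 5824 2368 (.cons 5760 2432 (.cons 5664 2560 (.cons 5632 2688 (.cons 5568 2944 (.cons 5536 3072 (.cons 5504 3136 (.cons 5472 3264 (.cons 5440 3648 (.cons 5376 3840 (.cons 5120 3904 .nil))))))))))))),.nil,.nil⟩
def c399 : Cls := ⟨5456,5568,6012,6144,(.cons 5600 3712 (.cons 5632 3520 (.cons 5664 3456 (.cons 5696 3136 (.cons 5760 2944 (.cons 5824 2624 (.cons 5856 2560 (.cons 5888 2432 (.cons 6144 2248 .nil))))))))),(.cons 6144 2240 (.cons 5856 2336 (.cons 5824 2368 (.cons 5760 2432 (.cons 5664 2560 (.cons 5632 2688 (.cons 5568 2944 (.cons 5536 3072 (.cons 5504 3136 (.cons 5472 3264 (.cons 5440 3648 (.cons 5376 3840 (.cons 5120 3904 .nil))))))))))))),.nil,.nil⟩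
def c400 : Cls := ⟨5456,5480,6012,6144,(.cons 5600 3712 (.cons 5632 3520 (.cons 5664 3456 (.cons 5696 3136 (.cons 5760 2944 (.cons 5824 2624 (.cons 5856 2560 (.cons 5888 2432 (.cons 6144 2240 .nil))))))))),(.cons 6144 2232 (.cons 5856 2336 (.cons 5824 2368 (.cons 5760 2432 (.cons 5664 2560 (.cons 5632 2688 (.cons 5568 2944 (.cons 5536 3072 (.cons 5504 3136 (.cons 5472 3264 (.cons 5440 3648 (.cons 5376 3840 (.cons 5120 3904 .nil))))))))))))),.nil,.nil⟩
def c401 : Cls := ⟨5480,5568,6012,6144,(.cons 5600 3712 (.cons 5632 3520 (.cons 5664 3456 (.cons 5696 3136 (.cons 5760 2944 (.cons 5824 2624 (.cons 5856 2560 (.cons 5888 2432 (.cons 6144 2240 .nil))))))))),(.cons 6144 2232 (.cons 5856 2336 (.cons 5824 2368 (.cons 5760 2432 (.cons 5664 2560 (.cons 5632 2688 (.cons 5568 2944 (.cons 5536 3072 (.cons 5504 3136 (.cons 5472 3264 (.cons 5440 3648 (.cons 5376 3840 (.cons 5120 3904 .nil))))))))))))),.nil,.nil⟩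
def c402 : Cls := ⟨5560,5568,6012,6144,(.cons 5600 3712 (.cons 5632 3520 (.cons 5664 3456 (.cons 5696 3136 (.cons 5760 2944 (.cons 5824 2624 (.cons 5856 2560 (.cons 5888 2432 (.cons 6144 2240 .nil))))))))),(.cons 6144 2232 (.cons 5856 2336 (.cons 5824 2368 (.cons 5760 2432 (.cons 5664 2560 (.cons 5632 2688 (.cons 5568 2944 (.cons 5536 3072 (.cons 5504 3136 (.cons 5472 3264 (.cons 5440 3648 (.cons 5376 3840 (.cons 5120 3904 .nil))))))))))))),.nil,.nil⟩
def c403 : Cls := ⟨5480,5560,6012,6144,(.cons 5600 3712 (.cons 5632 3520 (.cons 5664 3456 (.cons 5696 3136 (.cons 5760 2944 (.cons 5824 2624 (.cons 5856 2560 (.cons 5888 2432 (.cons 6144 2240 .nil))))))))),(.cons 6144 2232 (.cons 5856 2336 (.cons 5824 2368 (.cons 5760 2432 (.cons 5664 2560 (.cons 5632 2688 (.cons 5568 2944 (.cons 5536 3072 (.cons 5504 3136 (.cons 5472 3264 (.cons 5440 3648 (.cons 5376 3840 (.cons 5120 3904 .nil))))))))))))),.nil,.nil⟩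
def c404 : Cls := ⟨5480,5560,6012,6040,(.cons 5600 3712 (.cons 5632 3520 (.cons 5664 3456 (.cons 5696 3136 (.cons 5760 2944 (.cons 5824 2624 (.cons 5856 2560 (.cons 5888 2432 (.cons 6144 2240 .nil))))))))),(.cons 6144 2232 (.cons 5856 2336 (.cons 5824 2368 (.cons 5760 2432 (.cons 5664 2560 (.cons 5632 2688 (.cons 5568 2944 (.cons 5536 3072 (.cons 5504 3136 (.cons 5472 3264 (.cons 5440 3648 (.cons 5376 3840 (.cons 5120 3904 .nil))))))))))))),.nil,.nil⟩
def c405 : Cls := ⟨5480,5560,6040,6144,(.cons 5600 3712 (.cons 5632 3520 (.cons 5664 3456 (.cons 5696 3136 (.cons 5760 2944 (.cons 5824 2624 (.cons 5856 2560 (.cons 5888 2432 (.cons 6144 2240 .nil))))))))),(.cons 6144 2232 (.cons 5856 2336 (.cons 5824 2368 (.cons 5760 2432 (.cons 5664 2560 (.cons 5632 2688 (.cons 5568 2944 (.cons 5536 3072 (.cons 5504 3136 (.cons 5472 3264 (.cons 5440 3648 (.cons 5376 3840 (.cons 5120 3904 .nil))))))))))))),.nil,.nil⟩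
def c406 : Cls := ⟨5480,5560,6040,6144,(.cons 5600 3712 (.cons 5632 3392 (.cons 5664 3328 (.cons 5696 3008 (.cons 5760 2880 (.cons 5824 2624 (.cons 5856 2560 (.cons 5888 2432 (.cons 6144 2240 .nil))))))))),(.cons 6144 2232 (.cons 5856 2336 (.cons 5824 2368 (.cons 5760 2432 (.cons 5664 2560 (.cons 5632 2688 (.cons 5568 2944 (.cons 5536 3072 (.cons 5504 3136 (.cons 5472 3264 (.cons 5440 3648 (.cons 5376 3840 (.cons 5120 3904 .nil))))))))))))),.nil,.nil⟩
def c407 : Cls := ⟨5480,5560,6040,6144,(.cons 5600 3712 (.cons 5632 3392 (.cons 5664 3328 (.cons 5696 3008 (.cons 5760 2880 (.cons 5824 2624 (.cons 5856 2560 (.cons 5888 2432 (.cons 5920 2336 (.cons 6144 2240 .nil)))))))))),(.cons 6144 2232 (.cons 5856 2336 (.cons 5824 2368 (.cons 5760 2432 (.cons 5664 2560 (.cons 5632 2688 (.cons 5568 2944 (.cons 5536 3072 (.cons 5504 3136 (.cons 5472 3264 (.cons 5440 3648 (.cons 5376 3840 (.cons 5120 3904 .nil))))))))))))),.nil,.nil⟩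
def c408 : Cls := ⟨5456,5472,6012,6144,(.cons 5600 3712 (.cons 5632 3520 (.cons 5664 3456 (.cons 5696 3136 (.cons 5760 2944 (.cons 5824 2624 (.cons 5856 2560 (.cons 5888 2432 (.cons 6144 2248 .nil))))))))),(.cons 6144 2240 (.cons 5856 2336 (.cons 5824 2368 (.cons 5760 2432 (.cons 5664 2560 (.cons 5632 2688 (.cons 5568 2944 (.cons 5536 3072 (.cons 5504 3136 (.cons 5472 3264 (.cons 5440 3648 (.cons 5376 3840 (.cons 5120 3904 .nil))))))))))))),.nil,.nil⟩
def c409 : Cls := ⟨5472,5568,6012,6144,(.cons 5600 3712 (.cons 5632 3520 (.cons 5664 3456 (.cons 5696 3136 (.cons 5760 2944 (.cons 5824 2624 (.cons 5856 2560 (.cons 5888 2432 (.cons 6144 2248 .nil))))))))),(.cons 6144 2240 (.cons 5856 2336 (.cons 5824 2368 (.cons 5760 2432 (.cons 5664 2560 (.cons 5632 2688 (.cons 5568 2944 (.cons 5536 3072 (.cons 5504 3136 (.cons 5472 3264 (.cons 5440 3648 (.cons 5376 3840 (.cons 5120 3904 .nil))))))))))))),.nil,.nil⟩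
def c410 : Cls := ⟨5556,5568,6012,6144,(.cons 5600 3712 (.cons 5632 3520 (.cons 5664 3456 (.cons 5696 3136 (.cons 5760 2944 (.cons 5824 2624 (.cons 5856 2560 (.cons 5888 2432 (.cons 6144 2248 .nil))))))))),(.cons 6144 2240 (.cons 5856 2336 (.cons 5824 2368 (.cons 5760 2432 (.cons 5664 2560 (.cons 5632 2688 (.cons 5568 2944 (.cons 5536 3072 (.cons 5504 3136 (.cons 5472 3264 (.cons 5440 3648 (.cons 5376 3840 (.cons 5120 3904 .nil))))))))))))),.nil,.nil⟩
def c411 : Cls := ⟨5472,5556,6012,6144,(.cons 5600 3712 (.cons 5632 3520 (.cons 5664 3456 (.cons 5696 3136 (.cons 5760 2944 (.cons 5824 2624 (.cons 5856 2560 (.cons 5888 2432 (.cons 6144 2248 .nil))))))))),(.cons 6144 2240 (.cons 5856 2336 (.cons 5824 2368 (.cons 5760 2432 (.cons 5664 2560 (.cons 5632 2688 (.cons 5568 2944 (.cons 5536 3072 (.cons 5504 3136 (.cons 5472 3264 (.cons 5440 3648 (.cons 5376 3840 (.cons 5120 3904 .nil))))))))))))),.nil,.nil⟩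
def c412 : Cls := ⟨5472,5556,6012,6040,(.cons 5600 3712 (.cons 5632 3520 (.cons 5664 3456 (.cons 5696 3136 (.cons 5760 2944 (.cons 5824 2624 (.cons 5856 2560 (.cons 5888 2432 (.cons 6144 2248 .nil))))))))),(.cons 6144 2240 (.cons 5856 2336 (.cons 5824 2368 (.cons 5760 2432 (.cons 5664 2560 (.cons 5632 2688 (.cons 5568 2944 (.cons 5536 3072 (.cons 5504 3136 (.cons 5472 3264 (.cons 5440 3648 (.cons 5376 3840 (.cons 5120 3904 .nil))))))))))))),.nil,.nil⟩
def c413 : Cls := ⟨5472,5556,6040,6144,(.cons 5600 3712 (.cons 5632 3520 (.cons 5664 3456 (.cons 5696 3136 (.cons 5760 2944 (.cons 5824 2624 (.cons 5856 2560 (.cons 5888 2432 (.cons 6144 2248 .nil))))))))),(.cons 6144 2240 (.cons 5856 2336 (.cons 5824 2368 (.cons 5760 2432 (.cons 5664 2560 (.cons 5632 2688 (.cons 5568 2944 (.cons 5536 3072 (.cons 5504 3136 (.cons 5472 3264 (.cons 5440 3648 (.cons 5376 3840 (.cons 5120 3904 .nil))))))))))))),.nil,.nil⟩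
def c414 : Cls := ⟨5472,5556,6040,6144,(.cons 5600 3712 (.cons 5632 3328 (.cons 5664 3264 (.cons 5696 2944 (.cons 5824 2624 (.cons 5856 2560 (.cons 5888 2432 (.cons 6144 2248 .nil)))))))),(.cons 6144 2240 (.cons 5856 2336 (.cons 5824 2368 (.cons 5760 2432 (.cons 5664 2560 (.cons 5632 2688 (.cons 5568 2944 (.cons 5536 3072 (.cons 5504 3136 (.cons 5472 3264 (.cons 5440 3648 (.cons 5376 3840 (.cons 5120 3904 .nil))))))))))))),.nil,.nil⟩
def c415 : Cls := ⟨5472,5556,6040,6144,(.cons 5600 3712 (.cons 5632 3328 (.cons 5664 3264 (.cons 5696 2944 (.cons 5824 2624 (.cons 5856 2560 (.cons 5888 2432 (.cons 5920 2336 (.cons 6144 2248 .nil))))))))),(.cons 6144 2240 (.cons 5856 2336 (.cons 5824 2368 (.cons 5760 2432 (.cons 5664 2560 (.cons 5632 2688 (.cons 5568 2944 (.cons 5536 3072 (.cons 5504 3136 (.cons 5472 3264 (.cons 5440 3648 (.cons 5376 3840 (.cons 5120 3904 .nil))))))))))))),.nil,.nil⟩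
def c416 : Cls := ⟨5420,5444,5968,6144,(.cons 5632 3840 (.cons 5696 3328 (.cons 5760 2944 (.cons 5824 2624 (.cons 5856 2560 (.cons 6144 2264 .nil)))))),(.cons 6144 2248 (.cons 5856 2336 (.cons 5824 2368 (.cons 5760 2432 (.cons 5664 2560 (.cons 5632 2688 (.cons 5536 2880 (.cons 5504 2944 (.cons 5472 3136 (.cons 5440 3648 (.cons 5376 3840 (.cons 5120 3904 .nil)))))))))))),.nil,.nil⟩
def c417 : Cls := ⟨5444,5576,5968,6144,(.cons 5632 3840 (.cons 5696 3328 (.cons 5760 2944 (.cons 5824 2624 (.cons 5856 2560 (.cons 6144 2264 .nil)))))),(.cons 6144 2248 (.cons 5856 2336 (.cons 5824 2368 (.cons 5760 2432 (.cons 5664 2560 (.cons 5632 2688 (.cons 5536 2880 (.cons 5504 2944 (.cons 5472 3136 (.cons 5440 3648 (.cons 5376 3840 (.cons 5120 3904 .nil)))))))))))),.nil,.nil⟩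
def c418 : Cls := ⟨5564,5576,5968,6144,(.cons 5632 3840 (.cons 5696 3328 (.cons 5760 2944 (.cons 5824 2624 (.cons 5856 2560 (.cons 6144 2264 .nil)))))),(.cons 6144 2248 (.cons 5856 2336 (.cons 5824 2368 (.cons 5760 2432 (.cons 5664 2560 (.cons 5632 2688 (.cons 5536 2880 (.cons 5504 2944 (.cons 5472 3136 (.cons 5440 3648 (.cons 5376 3840 (.cons 5120 3904 .nil)))))))))))),.nil,.nil⟩
def c419 : Cls := ⟨5444,5564,5968,6144,(.cons 5632 3840 (.cons 5696 3328 (.cons 5760 2944 (.cons 5824 2624 (.cons 5856 2560 (.cons 6144 2264 .nil)))))),(.cons 6144 2248 (.cons 5856 2336 (.cons 5824 2368 (.cons 5760 2432 (.cons 5664 2560 (.cons 5632 2688 (.cons 5536 2880 (.cons 5504 2944 (.cons 5472 3136 (.cons 5440 3648 (.cons 5376 3840 (.cons 5120 3904 .nil)))))))))))),.nil,.nil⟩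
def c420 : Cls := ⟨5444,5564,5968,5996,(.cons 5632 3840 (.cons 5696 3328 (.cons 5760 2944 (.cons 5824 2624 (.cons 5856 2560 (.cons 6144 2264 .nil)))))),(.cons 6144 2248 (.cons 5856 2336 (.cons 5824 2368 (.cons 5760 2432 (.cons 5664 2560 (.cons 5632 2688 (.cons 5536 2880 (.cons 5504 2944 (.cons 5472 3136 (.cons 5440 3648 (.cons 5376 3840 (.cons 5120 3904 .nil)))))))))))),.nil,.nil⟩
def c421 : Cls := ⟨5444,5564,5996,6144,(.cons 5632 3840 (.cons 5696 3328 (.cons 5760 2944 (.cons 5824 2624 (.cons 5856 2560 (.cons 6144 2264 .nil)))))),(.cons 6144 2248 (.cons 5856 2336 (.cons 5824 2368 (.cons 5760 2432 (.cons 5664 2560 (.cons 5632 2688 (.cons 5536 2880 (.cons 5504 2944 (.cons 5472 3136 (.cons 5440 3648 (.cons 5376 3840 (.cons 5120 3904 .nil)))))))))))),.nil,.nil⟩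
def c422 : Cls := ⟨5444,5564,5996,6144,(.cons 5600 3712 (.cons 5632 3520 (.cons 5664 3456 (.cons 5696 3136 (.cons 5760 2944 (.cons 5824 2624 (.cons 5856 2560 (.cons 6144 2264 .nil)))))))),(.cons 6144 2248 (.cons 5856 2336 (.cons 5824 2368 (.cons 5760 2432 (.cons 5664 2560 (.cons 5632 2688 (.cons 5536 2880 (.cons 5504 2944 (.cons 5472 3136 (.cons 5440 3648 (.cons 5376 3840 (.cons 5120 3904 .nil)))))))))))),.nil,.nil⟩
def c423 : Cls := ⟨5444,5564,5996,6144,(.cons 5600 3712 (.cons 5632 3520 (.cons 5664 3456 (.cons 5696 3136 (.cons 5760 2944 (.cons 5824 2624 (.cons 5856 2560 (.cons 5888 2432 (.cons 6144 2264 .nil))))))))),(.cons 6144 2248 (.cons 5856 2336 (.cons 5824 2368 (.cons 5760 2432 (.cons 5664 2560 (.cons 5632 2688 (.cons 5536 2880 (.cons 5504 2944 (.cons 5472 3136 (.cons 5440 3648 (.cons 5376 3840 (.cons 5120 3904 .nil)))))))))))),.nil,.nil⟩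
def c424 : Cls := ⟨5444,5456,5996,6144,(.cons 5600 3712 (.cons 5632 3520 (.cons 5664 3456 (.cons 5696 3136 (.cons 5760 2944 (.cons 5824 2624 (.cons 5856 2560 (.cons 5888 2432 (.cons 6144 2264 .nil))))))))),(.cons 6144 2248 (.cons 5856 2336 (.cons 5824 2368 (.cons 5760 2432 (.cons 5664 2560 (.cons 5632 2688 (.cons 5536 2880 (.cons 5504 2944 (.cons 5472 3136 (.cons 5440 3648 (.cons 5376 3840 (.cons 5120 3904 .nil)))))))))))),.nil,.nil⟩
def c425 : Cls := ⟨5456,5564,5996,6144,(.cons 5600 3712 (.cons 5632 3520 (.cons 5664 3456 (.cons 5696 3136 (.cons 5760 2944 (.cons 5824 2624 (.cons 5856 2560 (.cons 5888 2432 (.cons 6144 2264 .nil))))))))),(.cons 6144 2248 (.cons 5856 2336 (.cons 5824 2368 (.cons 5760 2432 (.cons 5664 2560 (.cons 5632 2688 (.cons 5536 2880 (.cons 5504 2944 (.cons 5472 3136 (.cons 5440 3648 (.cons 5376 3840 (.cons 5120 3904 .nil)))))))))))),.nil,.nil⟩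
def c426 : Cls := ⟨5560,5564,5996,6144,(.cons 5600 3712 (.cons 5632 3520 (.cons 5664 3456 (.cons 5696 3136 (.cons 5760 2944 (.cons 5824 2624 (.cons 5856 2560 (.cons 5888 2432 (.cons 6144 2264 .nil))))))))),(.cons 6144 2248 (.cons 5856 2336 (.cons 5824 2368 (.cons 5760 2432 (.cons 5664 2560 (.cons 5632 2688 (.cons 5536 2880 (.cons 5504 2944 (.cons 5472 3136 (.cons 5440 3648 (.cons 5376 3840 (.cons 5120 3904 .nil)))))))))))),.nil,.nil⟩
def c427 : Cls := ⟨5456,5560,5996,6144,(.cons 5600 3712 (.cons 5632 3520 (.cons 5664 3456 (.cons 5696 3136 (.cons 5760 2944 (.cons 5824 2624 (.cons 5856 2560 (.cons 5888 2432 (.cons 6144 2264 .nil))))))))),(.cons 6144 2248 (.cons 5856 2336 (.cons 5824 2368 (.cons 5760 2432 (.cons 5664 2560 (.cons 5632 2688 (.cons 5536 2880 (.cons 5504 2944 (.cons 5472 3136 (.cons 5440 3648 (.cons 5376 3840 (.cons 5120 3904 .nil)))))))))))),.nil,.nil⟩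
def c428 : Cls := ⟨5456,5560,5996,6144,(.cons 5600 3712 (.cons 5632 3520 (.cons 5664 3456 (.cons 5696 3136 (.cons 5760 2944 (.cons 5824 2624 (.cons 5856 2560 (.cons 5888 2432 (.cons 6144 2264 .nil))))))))),(.cons 6144 2248 (.cons 5856 2336 (.cons 5824 2368 (.cons 5760 2432 (.cons 5664 2560 (.cons 5632 2688 (.cons 5568 2944 (.cons 5536 3072 (.cons 5504 3136 (.cons 5472 3264 (.cons 5440 3648 (.cons 5376 3840 (.cons 5120 3904 .nil))))))))))))),.nil,.nil⟩
def c429 : Cls := ⟨5456,5560,5996,6144,(.cons 5600 3712 (.cons 5632 3520 (.cons 5664 3456 (.cons 5696 3136 (.cons 5760 2944 (.cons 5824 2624 (.cons 5856 2560 (.cons 5888 2432 (.cons 6144 2256 .nil))))))))),(.cons 6144 2248 (.cons 5856 2336 (.cons 5824 2368 (.cons 5760 2432 (.cons 5664 2560 (.cons 5632 2688 (.cons 5568 2944 (.cons 5536 3072 (.cons 5504 3136 (.cons 5472 3264 (.cons 5440 3648 (.cons 5376 3840 (.cons 5120 3904 .nil))))))))))))),.nil,.nil⟩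
def c430 : Cls := ⟨5456,5560,5996,6144,(.cons 5600 3712 (.cons 5632 3520 (.cons 5664 3456 (.cons 5696 3136 (.cons 5760 2944 (.cons 5824 2624 (.cons 5856 2560 (.cons 5888 2432 (.cons 6144 2264 .nil))))))))),(.cons 6144 2256 (.cons 5856 2336 (.cons 5824 2368 (.cons 5760 2432 (.cons 5664 2560 (.cons 5632 2688 (.cons 5568 2944 (.cons 5536 3072 (.cons 5504 3136 (.cons 5472 3264 (.cons 5440 3648 (.cons 5376 3840 (.cons 5120 3904 .nil))))))))))))),.nil,.nil⟩
def c431 : Cls := ⟨5456,5472,5996,6144,(.cons 5600 3712 (.cons 5632 3520 (.cons 5664 3456 (.cons 5696 3136 (.cons 5760 2944 (.cons 5824 2624 (.cons 5856 2560 (.cons 5888 2432 (.cons 6144 2256 .nil))))))))),(.cons 6144 2248 (.cons 5856 2336 (.cons 5824 2368 (.cons 5760 2432 (.cons 5664 2560 (.cons 5632 2688 (.cons 5568 2944 (.cons 5536 3072 (.cons 5504 3136 (.cons 5472 3264 (.cons 5440 3648 (.cons 5376 3840 (.cons 5120 3904 .nil))))))))))))),.nil,.nil⟩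
def c432 : Cls := ⟨5472,5560,5996,6144,(.cons 5600 3712 (.cons 5632 3520 (.cons 5664 3456 (.cons 5696 3136 (.cons 5760 2944 (.cons 5824 2624 (.cons 5856 2560 (.cons 5888 2432 (.cons 6144 2256 .nil))))))))),(.cons 6144 2248 (.cons 5856 2336 (.cons 5824 2368 (.cons 5760 2432 (.cons 5664 2560 (.cons 5632 2688 (.cons 5568 2944 (.cons 5536 3072 (.cons 5504 3136 (.cons 5472 3264 (.cons 5440 3648 (.cons 5376 3840 (.cons 5120 3904 .nil))))))))))))),.nil,.nil⟩
def c433 : Cls := ⟨5472,5560,5996,6028,(.cons 5600 3712 (.cons 5632 3520 (.cons 5664 3456 (.cons 5696 3136 (.cons 5760 2944 (.cons 5824 2624 (.cons 5856 2560 (.cons 5888 2432 (.cons 6144 2256 .nil))))))))),(.cons 6144 2248 (.cons 5856 2336 (.cons 5824 2368 (.cons 5760 2432 (.cons 5664 2560 (.cons 5632 2688 (.cons 5568 2944 (.cons 5536 3072 (.cons 5504 3136 (.cons 5472 3264 (.cons 5440 3648 (.cons 5376 3840 (.cons 5120 3904 .nil))))))))))))),.nil,.nil⟩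
def c434 : Cls := ⟨5472,5560,6028,6144,(.cons 5600 3712 (.cons 5632 3520 (.cons 5664 3456 (.cons 5696 3136 (.cons 5760 2944 (.cons 5824 2624 (.cons 5856 2560 (.cons 5888 2432 (.cons 6144 2256 .nil))))))))),(.cons 6144 2248 (.cons 5856 2336 (.cons 5824 2368 (.cons 5760 2432 (.cons 5664 2560 (.cons 5632 2688 (.cons 5568 2944 (.cons 5536 3072 (.cons 5504 3136 (.cons 5472 3264 (.cons 5440 3648 (.cons 5376 3840 (.cons 5120 3904 .nil))))))))))))),.nil,.nil⟩
def c435 : Cls := ⟨5472,5560,6028,6144,(.cons 5600 3712 (.cons 5632 3328 (.cons 5664 3264 (.cons 5696 2944 (.cons 5824 2624 (.cons 5856 2560 (.cons 5888 2432 (.cons 6144 2256 .nil)))))))),(.cons 6144 2248 (.cons 5856 2336 (.cons 5824 2368 (.cons 5760 2432 (.cons 5664 2560 (.cons 5632 2688 (.cons 5568 2944 (.cons 5536 3072 (.cons 5504 3136 (.cons 5472 3264 (.cons 5440 3648 (.cons 5376 3840 (.cons 5120 3904 .nil))))))))))))),.nil,.nil⟩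
def c436 : Cls := ⟨5472,5560,6028,6144,(.cons 5600 3712 (.cons 5632 3328 (.cons 5664 3264 (.cons 5696 2944 (.cons 5824 2624 (.cons 5856 2560 (.cons 5888 2432 (.cons 5920 2336 (.cons 6144 2256 .nil))))))))),(.cons 6144 2248 (.cons 5856 2336 (.cons 5824 2368 (.cons 5760 2432 (.cons 5664 2560 (.cons 5632 2688 (.cons 5568 2944 (.cons 5536 3072 (.cons 5504 3136 (.cons 5472 3264 (.cons 5440 3648 (.cons 5376 3840 (.cons 5120 3904 .nil))))))))))))),.nil,.nil⟩
def c437 : Cls := ⟨5456,5476,5996,6144,(.cons 5600 3712 (.cons 5632 3520 (.cons 5664 3456 (.cons 5696 3136 (.cons 5760 2944 (.cons 5824 2624 (.cons 5856 2560 (.cons 5888 2432 (.cons 6144 2264 .nil))))))))),(.cons 6144 2256 (.cons 5856 2336 (.cons 5824 2368 (.cons 5760 2432 (.cons 5664 2560 (.cons 5632 2688 (.cons 5568 2944 (.cons 5536 3072 (.cons 5504 3136 (.cons 5472 3264 (.cons 5440 3648 (.cons 5376 3840 (.cons 5120 3904 .nil))))))))))))),.nil,.nil⟩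
def c438 : Cls := ⟨5476,5560,5996,6144,(.cons 5600 3712 (.cons 5632 3520 (.cons 5664 3456 (.cons 5696 3136 (.cons 5760 2944 (.cons 5824 2624 (.cons 5856 2560 (.cons 5888 2432 (.cons 6144 2264 .nil))))))))),(.cons 6144 2256 (.cons 5856 2336 (.cons 5824 2368 (.cons 5760 2432 (.cons 5664 2560 (.cons 5632 2688 (.cons 5568 2944 (.cons 5536 3072 (.cons 5504 3136 (.cons 5472 3264 (.cons 5440 3648 (.cons 5376 3840 (.cons 5120 3904 .nil))))))))))))),.nil,.nil⟩
def c439 : Cls := ⟨5548,5560,5996,6144,(.cons 5600 3712 (.cons 5632 3520 (.cons 5664 3456 (.cons 5696 3136 (.cons 5760 2944 (.cons 5824 2624 (.cons 5856 2560 (.cons 5888 2432 (.cons 6144 2264 .nil))))))))),(.cons 6144 2256 (.cons 5856 2336 (.cons 5824 2368 (.cons 5760 2432 (.cons 5664 2560 (.cons 5632 2688 (.cons 5568 2944 (.cons 5536 3072 (.cons 5504 3136 (.cons 5472 3264 (.cons 5440 3648 (.cons 5376 3840 (.cons 5120 3904 .nil))))))))))))),.nil,.nil⟩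
def c440 : Cls := ⟨5476,5548,5996,6144,(.cons 5600 3712 (.cons 5632 3520 (.cons 5664 3456 (.cons 5696 3136 (.cons 5760 2944 (.cons 5824 2624 (.cons 5856 2560 (.cons 5888 2432 (.cons 6144 2264 .nil))))))))),(.cons 6144 2256 (.cons 5856 2336 (.cons 5824 2368 (.cons 5760 2432 (.cons 5664 2560 (.cons 5632 2688 (.cons 5568 2944 (.cons 5536 3072 (.cons 5504 3136 (.cons 5472 3264 (.cons 5440 3648 (.cons 5376 3840 (.cons 5120 3904 .nil))))))))))))),.nil,.nil⟩
def c441 : Cls := ⟨5476,5548,5996,6028,(.cons 5600 3712 (.cons 5632 3520 (.cons 5664 3456 (.cons 5696 3136 (.cons 5760 2944 (.cons 5824 2624 (.cons 5856 2560 (.cons 5888 2432 (.cons 6144 2264 .nil))))))))),(.cons 6144 2256 (.cons 5856 2336 (.cons 5824 2368 (.cons 5760 2432 (.cons 5664 2560 (.cons 5632 2688 (.cons 5568 2944 (.cons 5536 3072 (.cons 5504 3136 (.cons 5472 3264 (.cons 5440 3648 (.cons 5376 3840 (.cons 5120 3904 .nil))))))))))))),.nil,.nil⟩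
def c442 : Cls := ⟨5476,5548,6028,6144,(.cons 5600 3712 (.cons 5632 3520 (.cons 5664 3456 (.cons 5696 3136 (.cons 5760 2944 (.cons 5824 2624 (.cons 5856 2560 (.cons 5888 2432 (.cons 6144 2264 .nil))))))))),(.cons 6144 2256 (.cons 5856 2336 (.cons 5824 2368 (.cons 5760 2432 (.cons 5664 2560 (.cons 5632 2688 (.cons 5568 2944 (.cons 5536 3072 (.cons 5504 3136 (.cons 5472 3264 (.cons 5440 3648 (.cons 5376 3840 (.cons 5120 3904 .nil))))))))))))),.nil,.nil⟩
def c443 : Cls := ⟨5476,5548,6028,6144,(.cons 5600 3712 (.cons 5632 3328 (.cons 5664 3264 (.cons 5696 2944 (.cons 5824 2624 (.cons 5856 2560 (.cons 5888 2432 (.cons 6144 2264 .nil)))))))),(.cons 6144 2256 (.cons 5856 2336 (.cons 5824 2368 (.cons 5760 2432 (.cons 5664 2560 (.cons 5632 2688 (.cons 5568 2944 (.cons 5536 3072 (.cons 5504 3136 (.cons 5472 3264 (.cons 5440 3648 (.cons 5376 3840 (.cons 5120 3904 .nil))))))))))))),.nil,.nil⟩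
def c444 : Cls := ⟨5476,5548,6028,6144,(.cons 5600 3712 (.cons 5632 3328 (.cons 5664 3264 (.cons 5696 2944 (.cons 5824 2624 (.cons 5856 2560 (.cons 5888 2432 (.cons 5920 2336 (.cons 6144 2264 .nil))))))))),(.cons 6144 2256 (.cons 5856 2336 (.cons 5824 2368 (.cons 5760 2432 (.cons 5664 2560 (.cons 5632 2688 (.cons 5568 2944 (.cons 5536 3072 (.cons 5504 3136 (.cons 5472 3264 (.cons 5440 3648 (.cons 5376 3840 (.cons 5120 3904 .nil))))))))))))),.nil,.nil⟩
def c445 : Cls := ⟨5352,5376,5888,6144,(.cons 5632 3840 (.cons 5696 3328 (.cons 5760 2944 (.cons 6144 2288 .nil)))),(.cons 6144 2264 (.cons 5760 2432 (.cons 5632 2560 (.cons 5504 2816 (.cons 5440 3584 (.cons 5376 3840 (.cons 5120 3904 .nil))))))),.nil,.nil⟩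
def c446 : Cls := ⟨5376,5600,5888,6144,(.cons 5632 3840 (.cons 5696 3328 (.cons 5760 2944 (.cons 6144 2288 .nil)))),(.cons 6144 2264 (.cons 5760 2432 (.cons 5632 2560 (.cons 5504 2816 (.cons 5440 3584 (.cons 5376 3840 (.cons 5120 3904 .nil))))))),.nil,.nil⟩
def c447 : Cls := ⟨5576,5600,5888,6144,(.cons 5632 3840 (.cons 5696 3328 (.cons 5760 2944 (.cons 6144 2288 .nil)))),(.cons 6144 2264 (.cons 5760 2432 (.cons 5632 2560 (.cons 5504 2816 (.cons 5440 3584 (.cons 5376 3840 (.cons 5120 3904 .nil))))))),.nil,.nil⟩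
def c448 : Cls := ⟨5376,5576,5888,6144,(.cons 5632 3840 (.cons 5696 3328 (.cons 5760 2944 (.cons 6144 2288 .nil)))),(.cons 6144 2264 (.cons 5760 2432 (.cons 5632 2560 (.cons 5504 2816 (.cons 5440 3584 (.cons 5376 3840 (.cons 5120 3904 .nil))))))),.nil,.nil⟩
def c449 : Cls := ⟨5376,5576,5888,5928,(.cons 5632 3840 (.cons 5696 3328 (.cons 5760 2944 (.cons 6144 2288 .nil)))),(.cons 6144 2264 (.cons 5760 2432 (.cons 5632 2560 (.cons 5504 2816 (.cons 5440 3584 (.cons 5376 3840 (.cons 5120 3904 .nil))))))),.nil,.nil⟩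
def c450 : Cls := ⟨5376,5576,5928,6144,(.cons 5632 3840 (.cons 5696 3328 (.cons 5760 2944 (.cons 6144 2288 .nil)))),(.cons 6144 2264 (.cons 5760 2432 (.cons 5632 2560 (.cons 5504 2816 (.cons 5440 3584 (.cons 5376 3840 (.cons 5120 3904 .nil))))))),.nil,.nil⟩
def c451 : Cls := ⟨5376,5576,5928,6144,(.cons 5632 3840 (.cons 5696 3200 (.cons 5760 2816 (.cons 6144 2288 .nil)))),(.cons 6144 2264 (.cons 5760 2432 (.cons 5632 2560 (.cons 5504 2816 (.cons 5440 3584 (.cons 5376 3840 (.cons 5120 3904 .nil))))))),.nil,.nil⟩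
def c452 : Cls := ⟨5376,5576,5928,6144,(.cons 5632 3840 (.cons 5696 3200 (.cons 5760 2816 (.cons 5824 2688 (.cons 6144 2288 .nil))))),(.cons 6144 2264 (.cons 5760 2432 (.cons 5632 2560 (.cons 5504 2816 (.cons 5440 3584 (.cons 5376 3840 (.cons 5120 3904 .nil))))))),.nil,.nil⟩
def c453 : Cls := ⟨5376,5392,5928,6144,(.cons 5632 3840 (.cons 5696 3200 (.cons 5760 2816 (.cons 5824 2688 (.cons 6144 2288 .nil))))),(.cons 6144 2264 (.cons 5760 2432 (.cons 5632 2560 (.cons 5504 2816 (.cons 5440 3584 (.cons 5376 3840 (.cons 5120 3904 .nil))))))),.nil,.nil⟩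
def c454 : Cls := ⟨5392,5576,5928,6144,(.cons 5632 3840 (.cons 5696 3200 (.cons 5760 2816 (.cons 5824 2688 (.cons 6144 2288 .nil))))),(.cons 6144 2264 (.cons 5760 2432 (.cons 5632 2560 (.cons 5504 2816 (.cons 5440 3584 (.cons 5376 3840 (.cons 5120 3904 .nil))))))),.nil,.nil⟩
def c455 : Cls := ⟨5392,5576,5928,5944,(.cons 5632 3840 (.cons 5696 3200 (.cons 5760 2816 (.cons 5824 2688 (.cons 6144 2288 .nil))))),(.cons 6144 2264 (.cons 5760 2432 (.cons 5632 2560 (.cons 5504 2816 (.cons 5440 3584 (.cons 5376 3840 (.cons 5120 3904 .nil))))))),.nil,.nil⟩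
def c456 : Cls := ⟨5392,5576,5944,6144,(.cons 5632 3840 (.cons 5696 3200 (.cons 5760 2816 (.cons 5824 2688 (.cons 6144 2288 .nil))))),(.cons 6144 2264 (.cons 5760 2432 (.cons 5632 2560 (.cons 5504 2816 (.cons 5440 3584 (.cons 5376 3840 (.cons 5120 3904 .nil))))))),.nil,.nil⟩
def c457 : Cls := ⟨5392,5576,5944,6144,(.cons 5632 3840 (.cons 5696 3200 (.cons 5760 2816 (.cons 5824 2432 (.cons 6144 2288 .nil))))),(.cons 6144 2264 (.cons 5760 2432 (.cons 5632 2560 (.cons 5504 2816 (.cons 5440 3584 (.cons 5376 3840 (.cons 5120 3904 .nil))))))),.nil,.nil⟩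
def c458 : Cls := ⟨5392,5576,5944,6144,(.cons 5632 3840 (.cons 5696 3200 (.cons 5760 2816 (.cons 5824 2688 (.cons 6144 2288 .nil))))),(.cons 6144 2264 (.cons 5824 2432 (.cons 5632 2560 (.cons 5504 2816 (.cons 5440 3584 (.cons 5376 3840 (.cons 5120 3904 .nil))))))),.nil,.nil⟩
def c459 : Cls := ⟨5392,5432,5944,6144,(.cons 5632 3840 (.cons 5696 3200 (.cons 5760 2816 (.cons 5824 2432 (.cons 6144 2288 .nil))))),(.cons 6144 2264 (.cons 5760 2432 (.cons 5632 2560 (.cons 5504 2816 (.cons 5440 3584 (.cons 5376 3840 (.cons 5120 3904 .nil))))))),.nil,.nil⟩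
def c460 : Cls := ⟨5432,5576,5944,6144,(.cons 5632 3840 (.cons 5696 3200 (.cons 5760 2816 (.cons 5824 2432 (.cons 6144 2288 .nil))))),(.cons 6144 2264 (.cons 5760 2432 (.cons 5632 2560 (.cons 5504 2816 (.cons 5440 3584 (.cons 5376 3840 (.cons 5120 3904 .nil))))))),.nil,.nil⟩
def c461 : Cls := ⟨5560,5576,5944,6144,(.cons 5632 3840 (.cons 5696 3200 (.cons 5760 2816 (.cons 5824 2432 (.cons 6144 2288 .nil))))),(.cons 6144 2264 (.cons 5760 2432 (.cons 5632 2560 (.cons 5504 2816 (.cons 5440 3584 (.cons 5376 3840 (.cons 5120 3904 .nil))))))),.nil,.nil⟩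
def c462 : Cls := ⟨5432,5560,5944,6144,(.cons 5632 3840 (.cons 5696 3200 (.cons 5760 2816 (.cons 5824 2432 (.cons 6144 2288 .nil))))),(.cons 6144 2264 (.cons 5760 2432 (.cons 5632 2560 (.cons 5504 2816 (.cons 5440 3584 (.cons 5376 3840 (.cons 5120 3904 .nil))))))),.nil,.nil⟩
def c463 : Cls := ⟨5432,5560,5944,6144,(.cons 5632 3840 (.cons 5696 3200 (.cons 5760 2816 (.cons 5824 2432 (.cons 6144 2288 .nil))))),(.cons 6144 2280 (.cons 5760 2432 (.cons 5632 2560 (.cons 5504 2816 (.cons 5440 3584 (.cons 5376 3840 (.cons 5120 3904 .nil))))))),.nil,.nil⟩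
def c464 : Cls := ⟨5432,5560,5944,6144,(.cons 5632 3840 (.cons 5696 3200 (.cons 5760 2816 (.cons 5824 2432 (.cons 6144 2280 .nil))))),(.cons 6144 2264 (.cons 5760 2432 (.cons 5632 2560 (.cons 5504 2816 (.cons 5440 3584 (.cons 5376 3840 (.cons 5120 3904 .nil))))))),.nil,.nil⟩
def c465 : Cls := ⟨5432,5560,5944,6000,(.cons 5632 3840 (.cons 5696 3200 (.cons 5760 2816 (.cons 5824 2432 (.cons 6144 2280 .nil))))),(.cons 6144 2264 (.cons 5760 2432 (.cons 5632 2560 (.cons 5504 2816 (.cons 5440 3584 (.cons 5376 3840 (.cons 5120 3904 .nil))))))),.nil,.nil⟩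
def c466 : Cls := ⟨5432,5560,6000,6144,(.cons 5632 3840 (.cons 5696 3200 (.cons 5760 2816 (.cons 5824 2432 (.cons 6144 2280 .nil))))),(.cons 6144 2264 (.cons 5760 2432 (.cons 5632 2560 (.cons 5504 2816 (.cons 5440 3584 (.cons 5376 3840 (.cons 5120 3904 .nil))))))),.nil,.nil⟩
def c467 : Cls := ⟨5432,5560,6000,6144,(.cons 5632 3840 (.cons 5696 3200 (.cons 5760 2816 (.cons 5824 2432 (.cons 6144 2280 .nil))))),(.cons 6144 2264 (.cons 5760 2432 (.cons 5632 2560 (.cons 5568 2944 (.cons 5504 3072 (.cons 5472 3200 (.cons 5440 3712 (.cons 5376 3840 (.cons 5120 3904 .nil))))))))),.nil,.nil⟩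
def c468 : Cls := ⟨5432,5560,6000,6144,(.cons 5600 3712 (.cons 5632 3584 (.cons 5696 3072 (.cons 5760 2816 (.cons 5824 2432 (.cons 6144 2280 .nil)))))),(.cons 6144 2264 (.cons 5760 2432 (.cons 5632 2560 (.cons 5568 2944 (.cons 5504 3072 (.cons 5472 3200 (.cons 5440 3712 (.cons 5376 3840 (.cons 5120 3904 .nil))))))))),.nil,.nil⟩
def c469 : Cls := ⟨5432,5456,6000,6144,(.cons 5600 3712 (.cons 5632 3584 (.cons 5696 3072 (.cons 5760 2816 (.cons 5824 2432 (.cons 6144 2280 .nil)))))),(.cons 6144 2264 (.cons 5760 2432 (.cons 5632 2560 (.cons 5568 2944 (.cons 5504 3072 (.cons 5472 3200 (.cons 5440 3712 (.cons 5376 3840 (.cons 5120 3904 .nil))))))))),.nil,.nil⟩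
def c470 : Cls := ⟨5456,5560,6000,6144,(.cons 5600 3712 (.cons 5632 3584 (.cons 5696 3072 (.cons 5760 2816 (.cons 5824 2432 (.cons 6144 2280 .nil)))))),(.cons 6144 2264 (.cons 5760 2432 (.cons 5632 2560 (.cons 5568 2944 (.cons 5504 3072 (.cons 5472 3200 (.cons 5440 3712 (.cons 5376 3840 (.cons 5120 3904 .nil))))))))),.nil,.nil⟩
def c471 : Cls := ⟨5456,5560,6000,6144,(.cons 5600 3712 (.cons 5632 3584 (.cons 5696 3072 (.cons 5760 2816 (.cons 5824 2432 (.cons 6144 2280 .nil)))))),(.cons 6144 2264 (.cons 5760 2432 (.cons 5696 2496 (.cons 5664 2560 (.cons 5632 2688 (.cons 5568 2944 (.cons 5504 3072 (.cons 5472 3200 (.cons 5440 3712 (.cons 5376 3840 (.cons 5120 3904 .nil))))))))))),.nil,.nil⟩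
def c472 : Cls := ⟨5456,5496,6000,6144,(.cons 5600 3712 (.cons 5632 3584 (.cons 5696 3072 (.cons 5760 2816 (.cons 5824 2432 (.cons 6144 2280 .nil)))))),(.cons 6144 2264 (.cons 5760 2432 (.cons 5696 2496 (.cons 5664 2560 (.cons 5632 2688 (.cons 5568 2944 (.cons 5504 3072 (.cons 5472 3200 (.cons 5440 3712 (.cons 5376 3840 (.cons 5120 3904 .nil))))))))))),.nil,.nil⟩
def c473 : Cls := ⟨5496,5560,6000,6144,(.cons 5600 3712 (.cons 5632 3584 (.cons 5696 3072 (.cons 5760 2816 (.cons 5824 2432 (.cons 6144 2280 .nil)))))),(.cons 6144 2264 (.cons 5760 2432 (.cons 5696 2496 (.cons 5664 2560 (.cons 5632 2688 (.cons 5568 2944 (.cons 5504 3072 (.cons 5472 3200 (.cons 5440 3712 (.cons 5376 3840 (.cons 5120 3904 .nil))))))))))),.nil,.nil⟩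
def c474 : Cls := ⟨5544,5560,6000,6144,(.cons 5600 3712 (.cons 5632 3584 (.cons 5696 3072 (.cons 5760 2816 (.cons 5824 2432 (.cons 6144 2280 .nil)))))),(.cons 6144 2264 (.cons 5760 2432 (.cons 5696 2496 (.cons 5664 2560 (.cons 5632 2688 (.cons 5568 2944 (.cons 5504 3072 (.cons 5472 3200 (.cons 5440 3712 (.cons 5376 3840 (.cons 5120 3904 .nil))))))))))),.nil,.nil⟩
def c475 : Cls := ⟨5496,5544,6000,6144,(.cons 5600 3712 (.cons 5632 3584 (.cons 5696 3072 (.cons 5760 2816 (.cons 5824 2432 (.cons 6144 2280 .nil)))))),(.cons 6144 2264 (.cons 5760 2432 (.cons 5696 2496 (.cons 5664 2560 (.cons 5632 2688 (.cons 5568 2944 (.cons 5504 3072 (.cons 5472 3200 (.cons 5440 3712 (.cons 5376 3840 (.cons 5120 3904 .nil))))))))))),.nil,.nil⟩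
def c476 : Cls := ⟨5496,5544,6000,6144,(.cons 5600 3712 (.cons 5632 3584 (.cons 5696 3072 (.cons 5760 2816 (.cons 5824 2432 (.cons 6144 2268 .nil)))))),(.cons 6144 2264 (.cons 5760 2432 (.cons 5696 2496 (.cons 5664 2560 (.cons 5632 2688 (.cons 5568 2944 (.cons 5504 3072 (.cons 5472 3200 (.cons 5440 3712 (.cons 5376 3840 (.cons 5120 3904 .nil))))))))))),.nil,.nil⟩
def c477 : Cls := ⟨5496,5544,6000,6144,(.cons 5600 3712 (.cons 5632 3584 (.cons 5696 3072 (.cons 5760 2816 (.cons 5824 2432 (.cons 6144 2280 .nil)))))),(.cons 6144 2268 (.cons 5760 2432 (.cons 5696 2496 (.cons 5664 2560 (.cons 5632 2688 (.cons 5568 2944 (.cons 5504 3072 (.cons 5472 3200 (.cons 5440 3712 (.cons 5376 3840 (.cons 5120 3904 .nil))))))))))),.nil,.nil⟩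
def c478 : Cls := ⟨5496,5544,6000,6144,(.cons 5600 3712 (.cons 5632 3584 (.cons 5696 3072 (.cons 5760 2816 (.cons 5824 2432 (.cons 6144 2280 .nil)))))),(.cons 6144 2276 (.cons 5760 2432 (.cons 5696 2496 (.cons 5664 2560 (.cons 5632 2688 (.cons 5568 2944 (.cons 5504 3072 (.cons 5472 3200 (.cons 5440 3712 (.cons 5376 3840 (.cons 5120 3904 .nil))))))))))),.nil,.nil⟩
def c479 : Cls := ⟨5496,5544,6000,6144,(.cons 5600 3712 (.cons 5632 3584 (.cons 5696 3072 (.cons 5760 2816 (.cons 5824 2432 (.cons 6144 2276 .nil)))))),(.cons 6144 2268 (.cons 5760 2432 (.cons 5696 2496 (.cons 5664 2560 (.cons 5632 2688 (.cons 5568 2944 (.cons 5504 3072 (.cons 5472 3200 (.cons 5440 3712 (.cons 5376 3840 (.cons 5120 3904 .nil))))))))))),.nil,.nil⟩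
def c480 : Cls := ⟨5496,5544,6000,6080,(.cons 5600 3712 (.cons 5632 3584 (.cons 5696 3072 (.cons 5760 2816 (.cons 5824 2432 (.cons 6144 2276 .nil)))))),(.cons 6144 2268 (.cons 5760 2432 (.cons 5696 2496 (.cons 5664 2560 (.cons 5632 2688 (.cons 5568 2944 (.cons 5504 3072 (.cons 5472 3200 (.cons 5440 3712 (.cons 5376 3840 (.cons 5120 3904 .nil))))))))))),.nil,.nil⟩
def c481 : Cls := ⟨5496,5544,6080,6144,(.cons 5600 3712 (.cons 5632 3584 (.cons 5696 3072 (.cons 5760 2816 (.cons 5824 2432 (.cons 6144 2276 .nil)))))),(.cons 6144 2268 (.cons 5760 2432 (.cons 5696 2496 (.cons 5664 2560 (.cons 5632 2688 (.cons 5568 2944 (.cons 5504 3072 (.cons 5472 3200 (.cons 5440 3712 (.cons 5376 3840 (.cons 5120 3904 .nil))))))))))),.nil,.nil⟩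
def c482 : Cls := ⟨5496,5544,6108,6144,(.cons 5600 3712 (.cons 5632 3584 (.cons 5696 3072 (.cons 5760 2816 (.cons 5824 2432 (.cons 6144 2276 .nil)))))),(.cons 6144 2268 (.cons 5760 2432 (.cons 5696 2496 (.cons 5664 2560 (.cons 5632 2688 (.cons 5568 2944 (.cons 5504 3072 (.cons 5472 3200 (.cons 5440 3712 (.cons 5376 3840 (.cons 5120 3904 .nil))))))))))),.nil,.nil⟩
def c483 : Cls := ⟨5496,5544,6080,6108,(.cons 5600 3712 (.cons 5632 3584 (.cons 5696 3072 (.cons 5760 2816 (.cons 5824 2432 (.cons 6144 2276 .nil)))))),(.cons 6144 2268 (.cons 5760 2432 (.cons 5696 2496 (.cons 5664 2560 (.cons 5632 2688 (.cons 5568 2944 (.cons 5504 3072 (.cons 5472 3200 (.cons 5440 3712 (.cons 5376 3840 (.cons 5120 3904 .nil))))))))))),.nil,.nil⟩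
def c484 : Cls := ⟨5392,5408,5944,6144,(.cons 5632 3840 (.cons 5696 3200 (.cons 5760 2816 (.cons 5824 2688 (.cons 6144 2288 .nil))))),(.cons 6144 2264 (.cons 5824 2432 (.cons 5632 2560 (.cons 5504 2816 (.cons 5440 3584 (.cons 5376 3840 (.cons 5120 3904 .nil))))))),.nil,.nil⟩
def c485 : Cls := ⟨5408,5576,5944,6144,(.cons 5632 3840 (.cons 5696 3200 (.cons 5760 2816 (.cons 5824 2688 (.cons 6144 2288 .nil))))),(.cons 6144 2264 (.cons 5824 2432 (.cons 5632 2560 (.cons 5504 2816 (.cons 5440 3584 (.cons 5376 3840 (.cons 5120 3904 .nil))))))),.nil,.nil⟩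
def c486 : Cls := ⟨5408,5576,5944,6144,(.cons 5568 3904 (.cons 5600 3840 (.cons 5632 3712 (.cons 5696 3200 (.cons 5760 2816 (.cons 5824 2688 (.cons 6144 2288 .nil))))))),(.cons 6144 2264 (.cons 5824 2432 (.cons 5632 2560 (.cons 5504 2816 (.cons 5440 3584 (.cons 5376 3840 (.cons 5120 3904 .nil))))))),.nil,.nil⟩
def c487 : Cls := ⟨5568,5576,5944,6144,(.cons 5568 3904 (.cons 5600 3840 (.cons 5632 3712 (.cons 5696 3200 (.cons 5760 2816 (.cons 5824 2688 (.cons 6144 2288 .nil))))))),(.cons 6144 2264 (.cons 5824 2432 (.cons 5632 2560 (.cons 5504 2816 (.cons 5440 3584 (.cons 5376 3840 (.cons 5120 3904 .nil))))))),.nil,.nil⟩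
def c488 : Cls := ⟨5408,5568,5944,6144,(.cons 5568 3904 (.cons 5600 3840 (.cons 5632 3712 (.cons 5696 3200 (.cons 5760 2816 (.cons 5824 2688 (.cons 6144 2288 .nil))))))),(.cons 6144 2264 (.cons 5824 2432 (.cons 5632 2560 (.cons 5504 2816 (.cons 5440 3584 (.cons 5376 3840 (.cons 5120 3904 .nil))))))),.nil,.nil⟩
def c489 : Cls := ⟨5408,5568,5944,5952,(.cons 5568 3904 (.cons 5600 3840 (.cons 5632 3712 (.cons 5696 3200 (.cons 5760 2816 (.cons 5824 2688 (.cons 6144 2288 .nil))))))),(.cons 6144 2264 (.cons 5824 2432 (.cons 5632 2560 (.cons 5504 2816 (.cons 5440 3584 (.cons 5376 3840 (.cons 5120 3904 .nil))))))),.nil,.nil⟩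
def c490 : Cls := ⟨5408,5568,5952,6144,(.cons 5568 3904 (.cons 5600 3840 (.cons 5632 3712 (.cons 5696 3200 (.cons 5760 2816 (.cons 5824 2688 (.cons 6144 2288 .nil))))))),(.cons 6144 2264 (.cons 5824 2432 (.cons 5632 2560 (.cons 5504 2816 (.cons 5440 3584 (.cons 5376 3840 (.cons 5120 3904 .nil))))))),.nil,.nil⟩
def c491 : Cls := ⟨5408,5424,5952,6144,(.cons 5568 3904 (.cons 5600 3840 (.cons 5632 3712 (.cons 5696 3200 (.cons 5760 2816 (.cons 5824 2688 (.cons 6144 2288 .nil))))))),(.cons 6144 2264 (.cons 5824 2432 (.cons 5632 2560 (.cons 5504 2816 (.cons 5440 3584 (.cons 5376 3840 (.cons 5120 3904 .nil))))))),.nil,.nil⟩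
def c492 : Cls := ⟨5424,5568,5952,6144,(.cons 5568 3904 (.cons 5600 3840 (.cons 5632 3712 (.cons 5696 3200 (.cons 5760 2816 (.cons 5824 2688 (.cons 6144 2288 .nil))))))),(.cons 6144 2264 (.cons 5824 2432 (.cons 5632 2560 (.cons 5504 2816 (.cons 5440 3584 (.cons 5376 3840 (.cons 5120 3904 .nil))))))),.nil,.nil⟩
def c493 : Cls := ⟨5556,5568,5952,6144,(.cons 5568 3904 (.cons 5600 3840 (.cons 5632 3712 (.cons 5696 3200 (.cons 5760 2816 (.cons 5824 2688 (.cons 6144 2288 .nil))))))),(.cons 6144 2264 (.cons 5824 2432 (.cons 5632 2560 (.cons 5504 2816 (.cons 5440 3584 (.cons 5376 3840 (.cons 5120 3904 .nil))))))),.nil,.nil⟩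
def c494 : Cls := ⟨5424,5556,5952,6144,(.cons 5568 3904 (.cons 5600 3840 (.cons 5632 3712 (.cons 5696 3200 (.cons 5760 2816 (.cons 5824 2688 (.cons 6144 2288 .nil))))))),(.cons 6144 2264 (.cons 5824 2432 (.cons 5632 2560 (.cons 5504 2816 (.cons 5440 3584 (.cons 5376 3840 (.cons 5120 3904 .nil))))))),.nil,.nil⟩
def c495 : Cls := ⟨5424,5556,5952,5980,(.cons 5568 3904 (.cons 5600 3840 (.cons 5632 3712 (.cons 5696 3200 (.cons 5760 2816 (.cons 5824 2688 (.cons 6144 2288 .nil))))))),(.cons 6144 2264 (.cons 5824 2432 (.cons 5632 2560 (.cons 5504 2816 (.cons 5440 3584 (.cons 5376 3840 (.cons 5120 3904 .nil))))))),.nil,.nil⟩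
def c496 : Cls := ⟨5424,5556,5980,6144,(.cons 5568 3904 (.cons 5600 3840 (.cons 5632 3712 (.cons 5696 3200 (.cons 5760 2816 (.cons 5824 2688 (.cons 6144 2288 .nil))))))),(.cons 6144 2264 (.cons 5824 2432 (.cons 5632 2560 (.cons 5504 2816 (.cons 5440 3584 (.cons 5376 3840 (.cons 5120 3904 .nil))))))),.nil,.nil⟩
def c497 : Cls := ⟨5424,5556,5980,6144,(.cons 5568 3904 (.cons 5600 3840 (.cons 5632 3712 (.cons 5696 3200 (.cons 5760 2816 (.cons 5824 2688 (.cons 6144 2288 .nil))))))),(.cons 6144 2264 (.cons 5824 2432 (.cons 5696 2496 (.cons 5664 2560 (.cons 5632 2624 (.cons 5600 2688 (.cons 5504 2816 (.cons 5440 3584 (.cons 5376 3840 (.cons 5120 3904 .nil)))))))))),.nil,.nil⟩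
def c498 : Cls := ⟨5424,5556,5980,6144,(.cons 5568 3904 (.cons 5600 3840 (.cons 5632 3712 (.cons 5696 3200 (.cons 5760 2816 (.cons 5824 2688 (.cons 5856 2496 (.cons 6144 2288 .nil)))))))),(.cons 6144 2264 (.cons 5824 2432 (.cons 5696 2496 (.cons 5664 2560 (.cons 5632 2624 (.cons 5600 2688 (.cons 5504 2816 (.cons 5440 3584 (.cons 5376 3840 (.cons 5120 3904 .nil)))))))))),.nil,.nil⟩
def c499 : Cls := ⟨5424,5448,5980,6144,(.cons 5568 3904 (.cons 5600 3840 (.cons 5632 3712 (.cons 5696 3200 (.cons 5760 2816 (.cons 5824 2688 (.cons 5856 2496 (.cons 6144 2288 .nil)))))))),(.cons 6144 2264 (.cons 5824 2432 (.cons 5696 2496 (.cons 5664 2560 (.cons 5632 2624 (.cons 5600 2688 (.cons 5504 2816 (.cons 5440 3584 (.cons 5376 3840 (.cons 5120 3904 .nil)))))))))),.nil,.nil⟩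
def c500 : Cls := ⟨5448,5556,5980,6144,(.cons 5568 3904 (.cons 5600 3840 (.cons 5632 3712 (.cons 5696 3200 (.cons 5760 2816 (.cons 5824 2688 (.cons 5856 2496 (.cons 6144 2288 .nil)))))))),(.cons 6144 2264 (.cons 5824 2432 (.cons 5696 2496 (.cons 5664 2560 (.cons 5632 2624 (.cons 5600 2688 (.cons 5504 2816 (.cons 5440 3584 (.cons 5376 3840 (.cons 5120 3904 .nil)))))))))),.nil,.nil⟩
def c501 : Cls := ⟨5448,5556,5980,6144,(.cons 5568 3904 (.cons 5600 3840 (.cons 5632 3712 (.cons 5696 3200 (.cons 5760 2816 (.cons 5824 2688 (.cons 5856 2496 (.cons 6144 2288 .nil)))))))),(.cons 6144 2284 (.cons 5824 2432 (.cons 5696 2496 (.cons 5664 2560 (.cons 5632 2624 (.cons 5600 2688 (.cons 5504 2816 (.cons 5440 3584 (.cons 5376 3840 (.cons 5120 3904 .nil)))))))))),.nil,.nil⟩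
def c502 : Cls := ⟨5448,5556,5980,6144,(.cons 5568 3904 (.cons 5600 3840 (.cons 5632 3712 (.cons 5696 3200 (.cons 5760 2816 (.cons 5824 2688 (.cons 5856 2496 (.cons 6144 2284 .nil)))))))),(.cons 6144 2264 (.cons 5824 2432 (.cons 5696 2496 (.cons 5664 2560 (.cons 5632 2624 (.cons 5600 2688 (.cons 5504 2816 (.cons 5440 3584 (.cons 5376 3840 (.cons 5120 3904 .nil)))))))))),.nil,.nil⟩
def c503 : Cls := ⟨5448,5556,5980,6004,(.cons 5568 3904 (.cons 5600 3840 (.cons 5632 3712 (.cons 5696 3200 (.cons 5760 2816 (.cons 5824 2688 (.cons 5856 2496 (.cons 6144 2284 .nil)))))))),(.cons 6144 2264 (.cons 5824 2432 (.cons 5696 2496 (.cons 5664 2560 (.cons 5632 2624 (.cons 5600 2688 (.cons 5504 2816 (.cons 5440 3584 (.cons 5376 3840 (.cons 5120 3904 .nil)))))))))),.nil,.nil⟩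
def c504 : Cls := ⟨5448,5556,6004,6144,(.cons 5568 3904 (.cons 5600 3840 (.cons 5632 3712 (.cons 5696 3200 (.cons 5760 2816 (.cons 5824 2688 (.cons 5856 2496 (.cons 6144 2284 .nil)))))))),(.cons 6144 2264 (.cons 5824 2432 (.cons 5696 2496 (.cons 5664 2560 (.cons 5632 2624 (.cons 5600 2688 (.cons 5504 2816 (.cons 5440 3584 (.cons 5376 3840 (.cons 5120 3904 .nil)))))))))),.nil,.nil⟩
def c505 : Cls := ⟨5448,5556,6004,6144,(.cons 5568 3904 (.cons 5600 3840 (.cons 5632 3712 (.cons 5696 3200 (.cons 5760 2816 (.cons 5824 2688 (.cons 5856 2496 (.cons 6144 2284 .nil)))))))),(.cons 6144 2264 (.cons 5824 2432 (.cons 5696 2496 (.cons 5664 2560 (.cons 5632 2624 (.cons 5600 2688 (.cons 5568 2816 (.cons 5556 2880 (.cons 5504 2944 (.cons 5440 3584 (.cons 5376 3840 (.cons 5120 3904 .nil)))))))))))),.nil,.nil⟩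
def c506 : Cls := ⟨5448,5556,6004,6144,(.cons 5568 3904 (.cons 5600 3840 (.cons 5632 3712 (.cons 5696 3200 (.cons 5760 2816 (.cons 5824 2688 (.cons 5856 2496 (.cons 5888 2400 (.cons 6144 2284 .nil))))))))),(.cons 6144 2264 (.cons 5824 2432 (.cons 5696 2496 (.cons 5664 2560 (.cons 5632 2624 (.cons 5600 2688 (.cons 5568 2816 (.cons 5556 2880 (.cons 5504 2944 (.cons 5440 3584 (.cons 5376 3840 (.cons 5120 3904 .nil)))))))))))),.nil,.nil⟩
def c507 : Cls := ⟨5448,5468,6004,6144,(.cons 5568 3904 (.cons 5600 3840 (.cons 5632 3712 (.cons 5696 3200 (.cons 5760 2816 (.cons 5824 2688 (.cons 5856 2496 (.cons 5888 2400 (.cons 6144 2284 .nil))))))))),(.cons 6144 2264 (.cons 5824 2432 (.cons 5696 2496 (.cons 5664 2560 (.cons 5632 2624 (.cons 5600 2688 (.cons 5568 2816 (.cons 5556 2880 (.cons 5504 2944 (.cons 5440 3584 (.cons 5376 3840 (.cons 5120 3904 .nil)))))))))))),.nil,.nil⟩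
def c508 : Cls := ⟨5468,5556,6004,6144,(.cons 5568 3904 (.cons 5600 3840 (.cons 5632 3712 (.cons 5696 3200 (.cons 5760 2816 (.cons 5824 2688 (.cons 5856 2496 (.cons 5888 2400 (.cons 6144 2284 .nil))))))))),(.cons 6144 2264 (.cons 5824 2432 (.cons 5696 2496 (.cons 5664 2560 (.cons 5632 2624 (.cons 5600 2688 (.cons 5568 2816 (.cons 5556 2880 (.cons 5504 2944 (.cons 5440 3584 (.cons 5376 3840 (.cons 5120 3904 .nil)))))))))))),.nil,.nil⟩
def c509 : Cls := ⟨5552,5556,6004,6144,(.cons 5568 3904 (.cons 5600 3840 (.cons 5632 3712 (.cons 5696 3200 (.cons 5760 2816 (.cons 5824 2688 (.cons 5856 2496 (.cons 5888 2400 (.cons 6144 2284 .nil))))))))),(.cons 6144 2264 (.cons 5824 2432 (.cons 5696 2496 (.cons 5664 2560 (.cons 5632 2624 (.cons 5600 2688 (.cons 5568 2816 (.cons 5556 2880 (.cons 5504 2944 (.cons 5440 3584 (.cons 5376 3840 (.cons 5120 3904 .nil)))))))))))),.nil,.nil⟩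
def c510 : Cls := ⟨5468,5552,6004,6144,(.cons 5568 3904 (.cons 5600 3840 (.cons 5632 3712 (.cons 5696 3200 (.cons 5760 2816 (.cons 5824 2688 (.cons 5856 2496 (.cons 5888 2400 (.cons 6144 2284 .nil))))))))),(.cons 6144 2264 (.cons 5824 2432 (.cons 5696 2496 (.cons 5664 2560 (.cons 5632 2624 (.cons 5600 2688 (.cons 5568 2816 (.cons 5556 2880 (.cons 5504 2944 (.cons 5440 3584 (.cons 5376 3840 (.cons 5120 3904 .nil)))))))))))),.nil,.nil⟩
def c511 : Cls := ⟨5468,5552,6140,6144,(.cons 5568 3904 (.cons 5600 3840 (.cons 5632 3712 (.cons 5696 3200 (.cons 5760 2816 (.cons 5824 2688 (.cons 5856 2496 (.cons 5888 2400 (.cons 6144 2284 .nil))))))))),(.cons 6144 2264 (.cons 5824 2432 (.cons 5696 2496 (.cons 5664 2560 (.cons 5632 2624 (.cons 5600 2688 (.cons 5568 2816 (.cons 5556 2880 (.cons 5504 2944 (.cons 5440 3584 (.cons 5376 3840 (.cons 5120 3904 .nil)))))))))))),.nil,.nil⟩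
def c512 : Cls := ⟨5468,5552,6004,6140,(.cons 5568 3904 (.cons 5600 3840 (.cons 5632 3712 (.cons 5696 3200 (.cons 5760 2816 (.cons 5824 2688 (.cons 5856 2496 (.cons 5888 2400 (.cons 6144 2284 .nil))))))))),(.cons 6144 2264 (.cons 5824 2432 (.cons 5696 2496 (.cons 5664 2560 (.cons 5632 2624 (.cons 5600 2688 (.cons 5568 2816 (.cons 5556 2880 (.cons 5504 2944 (.cons 5440 3584 (.cons 5376 3840 (.cons 5120 3904 .nil)))))))))))),.nil,.nil⟩
def c513 : Cls := ⟨5468,5552,6004,6140,(.cons 5568 3904 (.cons 5600 3584 (.cons 5632 3392 (.cons 5664 3264 (.cons 5696 3136 (.cons 5728 3008 (.cons 5760 2816 (.cons 5824 2688 (.cons 5856 2496 (.cons 5888 2400 (.cons 6144 2284 .nil))))))))))),(.cons 6144 2264 (.cons 5824 2432 (.cons 5696 2496 (.cons 5664 2560 (.cons 5632 2624 (.cons 5600 2688 (.cons 5568 2816 (.cons 5556 2880 (.cons 5520 3008 (.cons 5504 3136 (.cons 5488 3456 (.cons 5472 4048 .nil)))))))))))),(.cons 6140 2496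 .nil),.nil⟩
def c514 : Cls := ⟨5468,5484,6004,6140,(.cons 5568 3904 (.cons 5600 3584 (.cons 5632 3392 (.cons 5664 3264 (.cons 5696 3136 (.cons 5728 3008 (.cons 5760 2816 (.cons 5824 2688 (.cons 5856 2496 (.cons 5888 2400 (.cons 6144 2284 .nil))))))))))),(.cons 6144 2264 (.cons 5824 2432 (.cons 5696 2496 (.cons 5664 2560 (.cons 5632 2624 (.cons 5600 2688 (.cons 5568 2816 (.cons 5556 2880 (.cons 5520 3008 (.cons 5504 3136 (.cons 5488 3456 (.cons 5472 4048 .nil)))))))))))),(.cons 6140 2496 .nil),.nil⟩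
def c515 : Cls := ⟨5484,5552,6004,6140,(.cons 5568 3904 (.cons 5600 3584 (.cons 5632 3392 (.cons 5664 3264 (.cons 5696 3136 (.cons 5728 3008 (.cons 5760 2816 (.cons 5824 2688 (.cons 5856 2496 (.cons 5888 2400 (.cons 6144 2284 .nil))))))))))),(.cons 6144 2264 (.cons 5824 2432 (.cons 5696 2496 (.cons 5664 2560 (.cons 5632 2624 (.cons 5600 2688 (.cons 5568 2816 (.cons 5556 2880 (.cons 5520 3008 (.cons 5504 3136 (.cons 5488 3456 (.cons 5472 4048 .nil)))))))))))),(.cons 6140 2496 .nil),.nil⟩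
def c516 : Cls := ⟨5548,5552,6004,6140,(.cons 5568 3904 (.cons 5600 3584 (.cons 5632 3392 (.cons 5664 3264 (.cons 5696 3136 (.cons 5728 3008 (.cons 5760 2816 (.cons 5824 2688 (.cons 5856 2496 (.cons 5888 2400 (.cons 6144 2284 .nil))))))))))),(.cons 6144 2264 (.cons 5824 2432 (.cons 5696 2496 (.cons 5664 2560 (.cons 5632 2624 (.cons 5600 2688 (.cons 5568 2816 (.cons 5556 2880 (.cons 5520 3008 (.cons 5504 3136 (.cons 5488 3456 (.cons 5472 4048 .nil)))))))))))),(.cons 6140 2496 .nil),.nil⟩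
def c517 : Cls := ⟨5484,5548,6004,6140,(.cons 5568 3904 (.cons 5600 3584 (.cons 5632 3392 (.cons 5664 3264 (.cons 5696 3136 (.cons 5728 3008 (.cons 5760 2816 (.cons 5824 2688 (.cons 5856 2496 (.cons 5888 2400 (.cons 6144 2284 .nil))))))))))),(.cons 6144 2264 (.cons 5824 2432 (.cons 5696 2496 (.cons 5664 2560 (.cons 5632 2624 (.cons 5600 2688 (.cons 5568 2816 (.cons 5556 2880 (.cons 5520 3008 (.cons 5504 3136 (.cons 5488 3456 (.cons 5472 4048 .nil)))))))))))),(.cons 6140 2496 .nil),.nil⟩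
def c518 : Cls := ⟨5484,5548,6136,6140,(.cons 5568 3904 (.cons 5600 3584 (.cons 5632 3392 (.cons 5664 3264 (.cons 5696 3136 (.cons 5728 3008 (.cons 5760 2816 (.cons 5824 2688 (.cons 5856 2496 (.cons 5888 2400 (.cons 6144 2284 .nil))))))))))),(.cons 6144 2264 (.cons 5824 2432 (.cons 5696 2496 (.cons 5664 2560 (.cons 5632 2624 (.cons 5600 2688 (.cons 5568 2816 (.cons 5556 2880 (.cons 5520 3008 (.cons 5504 3136 (.cons 5488 3456 (.cons 5472 4048 .nil)))))))))))),(.cons 6140 2496 .nil),.nil⟩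
def c519 : Cls := ⟨5484,5548,6004,6136,(.cons 5568 3904 (.cons 5600 3584 (.cons 5632 3392 (.cons 5664 3264 (.cons 5696 3136 (.cons 5728 3008 (.cons 5760 2816 (.cons 5824 2688 (.cons 5856 2496 (.cons 5888 2400 (.cons 6144 2284 .nil))))))))))),(.cons 6144 2264 (.cons 5824 2432 (.cons 5696 2496 (.cons 5664 2560 (.cons 5632 2624 (.cons 5600 2688 (.cons 5568 2816 (.cons 5556 2880 (.cons 5520 3008 (.cons 5504 3136 (.cons 5488 3456 (.cons 5472 4048 .nil)))))))))))),(.cons 6140 2496 .nil),.nil⟩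
def c520 : Cls := ⟨5484,5548,6004,6136,(.cons 5568 3904 (.cons 5600 3584 (.cons 5632 3392 (.cons 5664 3264 (.cons 5696 3136 (.cons 5728 3008 (.cons 5760 2816 (.cons 5824 2688 (.cons 5856 2496 (.cons 5888 2400 (.cons 6144 2284 .nil))))))))))),(.cons 6144 2264 (.cons 5824 2432 (.cons 5696 2496 (.cons 5664 2560 (.cons 5632 2624 (.cons 5600 2688 (.cons 5568 2816 (.cons 5556 2880 (.cons 5520 3008 (.cons 5504 3136 (.cons 5488 3456 (.cons 5472 4048 .nil)))))))))))),(.cons 6140 2496 (.cons 6136 2400 .nil)),.nil⟩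
def c521 : Cls := ⟨5544,5548,6004,6136,(.cons 5568 3904 (.cons 5600 3584 (.cons 5632 3392 (.cons 5664 3264 (.cons 5696 3136 (.cons 5728 3008 (.cons 5760 2816 (.cons 5824 2688 (.cons 5856 2496 (.cons 5888 2400 (.cons 6144 2284 .nil))))))))))),(.cons 6144 2264 (.cons 5824 2432 (.cons 5696 2496 (.cons 5664 2560 (.cons 5632 2624 (.cons 5600 2688 (.cons 5568 2816 (.cons 5556 2880 (.cons 5520 3008 (.cons 5504 3136 (.cons 5488 3456 (.cons 5472 4048 .nil)))))))))))),(.cons 6140 2496 (.cons 6136 2400 .nil)),.nil⟩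
def c522 : Cls := ⟨5484,5544,6004,6136,(.cons 5568 3904 (.cons 5600 3584 (.cons 5632 3392 (.cons 5664 3264 (.cons 5696 3136 (.cons 5728 3008 (.cons 5760 2816 (.cons 5824 2688 (.cons 5856 2496 (.cons 5888 2400 (.cons 6144 2284 .nil))))))))))),(.cons 6144 2264 (.cons 5824 2432 (.cons 5696 2496 (.cons 5664 2560 (.cons 5632 2624 (.cons 5600 2688 (.cons 5568 2816 (.cons 5556 2880 (.cons 5520 3008 (.cons 5504 3136 (.cons 5488 3456 (.cons 5472 4048 .nil)))))))))))),(.cons 6140 2496 (.cons 6136 2400 .nil)),.nil⟩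
def c523 : Cls := ⟨5484,5544,6004,6008,(.cons 5568 3904 (.cons 5600 3584 (.cons 5632 3392 (.cons 5664 3264 (.cons 5696 3136 (.cons 5728 3008 (.cons 5760 2816 (.cons 5824 2688 (.cons 5856 2496 (.cons 5888 2400 (.cons 6144 2284 .nil))))))))))),(.cons 6144 2264 (.cons 5824 2432 (.cons 5696 2496 (.cons 5664 2560 (.cons 5632 2624 (.cons 5600 2688 (.cons 5568 2816 (.cons 5556 2880 (.cons 5520 3008 (.cons 5504 3136 (.cons 5488 3456 (.cons 5472 4048 .nil)))))))))))),(.cons 6140 2496 (.cons 6136 2400 .nil)),.nil⟩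
def c524 : Cls := ⟨5484,5544,6008,6136,(.cons 5568 3904 (.cons 5600 3584 (.cons 5632 3392 (.cons 5664 3264 (.cons 5696 3136 (.cons 5728 3008 (.cons 5760 2816 (.cons 5824 2688 (.cons 5856 2496 (.cons 5888 2400 (.cons 6144 2284 .nil))))))))))),(.cons 6144 2264 (.cons 5824 2432 (.cons 5696 2496 (.cons 5664 2560 (.cons 5632 2624 (.cons 5600 2688 (.cons 5568 2816 (.cons 5556 2880 (.cons 5520 3008 (.cons 5504 3136 (.cons 5488 3456 (.cons 5472 4048 .nil)))))))))))),(.cons 6140 2496 (.cons 6136 2400 .nil)),.nil⟩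
def c525 : Cls := ⟨5484,5544,6008,6136,(.cons 5568 3904 (.cons 5600 3584 (.cons 5632 3392 (.cons 5664 3264 (.cons 5696 3136 (.cons 5728 3008 (.cons 5760 2816 (.cons 5824 2688 (.cons 5856 2496 (.cons 5888 2400 (.cons 6144 2276 .nil))))))))))),(.cons 6144 2264 (.cons 5824 2432 (.cons 5696 2496 (.cons 5664 2560 (.cons 5632 2624 (.cons 5600 2688 (.cons 5568 2816 (.cons 5556 2880 (.cons 5520 3008 (.cons 5504 3136 (.cons 5488 3456 (.cons 5472 4048 .nil)))))))))))),(.cons 6140 2496 (.cons 6136 2400 .nil)),.nil⟩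
def c526 : Cls := ⟨5484,5544,6008,6136,(.cons 5568 3904 (.cons 5600 3584 (.cons 5632 3392 (.cons 5664 3264 (.cons 5696 3136 (.cons 5728 3008 (.cons 5760 2816 (.cons 5824 2688 (.cons 5856 2496 (.cons 5888 2400 (.cons 6144 2284 .nil))))))))))),(.cons 6144 2276 (.cons 5824 2432 (.cons 5696 2496 (.cons 5664 2560 (.cons 5632 2624 (.cons 5600 2688 (.cons 5568 2816 (.cons 5556 2880 (.cons 5520 3008 (.cons 5504 3136 (.cons 5488 3456 (.cons 5472 4048 .nil)))))))))))),(.cons 6140 2496 (.cons 6136 2400 .nil)),.nil⟩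
def c527 : Cls := ⟨5484,5488,6008,6136,(.cons 5568 3904 (.cons 5600 3584 (.cons 5632 3392 (.cons 5664 3264 (.cons 5696 3136 (.cons 5728 3008 (.cons 5760 2816 (.cons 5824 2688 (.cons 5856 2496 (.cons 5888 2400 (.cons 6144 2276 .nil))))))))))),(.cons 6144 2264 (.cons 5824 2432 (.cons 5696 2496 (.cons 5664 2560 (.cons 5632 2624 (.cons 5600 2688 (.cons 5568 2816 (.cons 5556 2880 (.cons 5520 3008 (.cons 5504 3136 (.cons 5488 3456 (.cons 5472 4048 .nil)))))))))))),(.cons 6140 2496 (.cons 6136 2400 .nil)),.nil⟩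
def c528 : Cls := ⟨5488,5544,6008,6136,(.cons 5568 3904 (.cons 5600 3584 (.cons 5632 3392 (.cons 5664 3264 (.cons 5696 3136 (.cons 5728 3008 (.cons 5760 2816 (.cons 5824 2688 (.cons 5856 2496 (.cons 5888 2400 (.cons 6144 2276 .nil))))))))))),(.cons 6144 2264 (.cons 5824 2432 (.cons 5696 2496 (.cons 5664 2560 (.cons 5632 2624 (.cons 5600 2688 (.cons 5568 2816 (.cons 5556 2880 (.cons 5520 3008 (.cons 5504 3136 (.cons 5488 3456 (.cons 5472 4048 .nil)))))))))))),(.cons 6140 2496 (.cons 6136 2400 .nil)),.nil⟩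
def c529 : Cls := ⟨5540,5544,6008,6136,(.cons 5568 3904 (.cons 5600 3584 (.cons 5632 3392 (.cons 5664 3264 (.cons 5696 3136 (.cons 5728 3008 (.cons 5760 2816 (.cons 5824 2688 (.cons 5856 2496 (.cons 5888 2400 (.cons 6144 2276 .nil))))))))))),(.cons 6144 2264 (.cons 5824 2432 (.cons 5696 2496 (.cons 5664 2560 (.cons 5632 2624 (.cons 5600 2688 (.cons 5568 2816 (.cons 5556 2880 (.cons 5520 3008 (.cons 5504 3136 (.cons 5488 3456 (.cons 5472 4048 .nil)))))))))))),(.cons 6140 2496 (.cons 6136 2400 .nil)),.nil⟩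
def c530 : Cls := ⟨5488,5540,6008,6136,(.cons 5568 3904 (.cons 5600 3584 (.cons 5632 3392 (.cons 5664 3264 (.cons 5696 3136 (.cons 5728 3008 (.cons 5760 2816 (.cons 5824 2688 (.cons 5856 2496 (.cons 5888 2400 (.cons 6144 2276 .nil))))))))))),(.cons 6144 2264 (.cons 5824 2432 (.cons 5696 2496 (.cons 5664 2560 (.cons 5632 2624 (.cons 5600 2688 (.cons 5568 2816 (.cons 5556 2880 (.cons 5520 3008 (.cons 5504 3136 (.cons 5488 3456 (.cons 5472 4048 .nil)))))))))))),(.cons 6140 2496 (.cons 6136 2400 .nil)),.nil⟩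
def c531 : Cls := ⟨5488,5540,6008,6136,(.cons 5568 3904 (.cons 5600 3584 (.cons 5632 3392 (.cons 5664 3264 (.cons 5696 3136 (.cons 5728 3008 (.cons 5760 2816 (.cons 5824 2688 (.cons 5856 2496 (.cons 5888 2400 (.cons 6144 2268 .nil))))))))))),(.cons 6144 2264 (.cons 5824 2432 (.cons 5696 2496 (.cons 5664 2560 (.cons 5632 2624 (.cons 5600 2688 (.cons 5568 2816 (.cons 5556 2880 (.cons 5520 3008 (.cons 5504 3136 (.cons 5488 3456 (.cons 5472 4048 .nil)))))))))))),(.cons 6140 2496 (.cons 6136 2400 .nil)),.nil⟩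
def c532 : Cls := ⟨5488,5540,6008,6136,(.cons 5568 3904 (.cons 5600 3584 (.cons 5632 3392 (.cons 5664 3264 (.cons 5696 3136 (.cons 5728 3008 (.cons 5760 2816 (.cons 5824 2688 (.cons 5856 2496 (.cons 5888 2400 (.cons 6144 2276 .nil))))))))))),(.cons 6144 2268 (.cons 5824 2432 (.cons 5696 2496 (.cons 5664 2560 (.cons 5632 2624 (.cons 5600 2688 (.cons 5568 2816 (.cons 5556 2880 (.cons 5520 3008 (.cons 5504 3136 (.cons 5488 3456 (.cons 5472 4048 .nil)))))))))))),(.cons 6140 2496 (.cons 6136 2400 .nil)),.nil⟩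
def c533 : Cls := ⟨5488,5540,6008,6136,(.cons 5568 3904 (.cons 5600 3584 (.cons 5632 3392 (.cons 5664 3264 (.cons 5696 3136 (.cons 5728 3008 (.cons 5760 2816 (.cons 5824 2688 (.cons 5856 2496 (.cons 5888 2400 (.cons 6144 2276 .nil))))))))))),(.cons 6144 2272 (.cons 5824 2432 (.cons 5696 2496 (.cons 5664 2560 (.cons 5632 2624 (.cons 5600 2688 (.cons 5568 2816 (.cons 5556 2880 (.cons 5520 3008 (.cons 5504 3136 (.cons 5488 3456 (.cons 5472 4048 .nil)))))))))))),(.cons 6140 2496 (.cons 6136 2400 .nil)),.nil⟩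
def c534 : Cls := ⟨5488,5540,6008,6136,(.cons 5568 3904 (.cons 5600 3584 (.cons 5632 3392 (.cons 5664 3264 (.cons 5696 3136 (.cons 5728 3008 (.cons 5760 2816 (.cons 5824 2688 (.cons 5856 2496 (.cons 5888 2400 (.cons 6144 2272 .nil))))))))))),(.cons 6144 2268 (.cons 5824 2432 (.cons 5696 2496 (.cons 5664 2560 (.cons 5632 2624 (.cons 5600 2688 (.cons 5568 2816 (.cons 5556 2880 (.cons 5520 3008 (.cons 5504 3136 (.cons 5488 3456 (.cons 5472 4048 .nil)))))))))))),(.cons 6140 2496 (.cons 6136 2400 .nil)),.nil⟩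
def c535 : Cls := ⟨5488,5540,6008,6112,(.cons 5568 3904 (.cons 5600 3584 (.cons 5632 3392 (.cons 5664 3264 (.cons 5696 3136 (.cons 5728 3008 (.cons 5760 2816 (.cons 5824 2688 (.cons 5856 2496 (.cons 5888 2400 (.cons 6144 2272 .nil))))))))))),(.cons 6144 2268 (.cons 5824 2432 (.cons 5696 2496 (.cons 5664 2560 (.cons 5632 2624 (.cons 5600 2688 (.cons 5568 2816 (.cons 5556 2880 (.cons 5520 3008 (.cons 5504 3136 (.cons 5488 3456 (.cons 5472 4048 .nil)))))))))))),(.cons 6140 2496 (.cons 6136 2400 .nil)),.nil⟩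
def c536 : Cls := ⟨5488,5540,6112,6136,(.cons 5568 3904 (.cons 5600 3584 (.cons 5632 3392 (.cons 5664 3264 (.cons 5696 3136 (.cons 5728 3008 (.cons 5760 2816 (.cons 5824 2688 (.cons 5856 2496 (.cons 5888 2400 (.cons 6144 2272 .nil))))))))))),(.cons 6144 2268 (.cons 5824 2432 (.cons 5696 2496 (.cons 5664 2560 (.cons 5632 2624 (.cons 5600 2688 (.cons 5568 2816 (.cons 5556 2880 (.cons 5520 3008 (.cons 5504 3136 (.cons 5488 3456 (.cons 5472 4048 .nil)))))))))))),(.cons 6140 2496 (.cons 6136 2400 .nil)),.nil⟩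
def c537 : Cls := ⟨5488,5540,6116,6136,(.cons 5568 3904 (.cons 5600 3584 (.cons 5632 3392 (.cons 5664 3264 (.cons 5696 3136 (.cons 5728 3008 (.cons 5760 2816 (.cons 5824 2688 (.cons 5856 2496 (.cons 5888 2400 (.cons 6144 2272 .nil))))))))))),(.cons 6144 2268 (.cons 5824 2432 (.cons 5696 2496 (.cons 5664 2560 (.cons 5632 2624 (.cons 5600 2688 (.cons 5568 2816 (.cons 5556 2880 (.cons 5520 3008 (.cons 5504 3136 (.cons 5488 3456 (.cons 5472 4048 .nil)))))))))))),(.cons 6140 2496 (.cons 6136 2400 .nil)),.nil⟩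
def c538 : Cls := ⟨5488,5540,6112,6116,(.cons 5568 3904 (.cons 5600 3584 (.cons 5632 3392 (.cons 5664 3264 (.cons 5696 3136 (.cons 5728 3008 (.cons 5760 2816 (.cons 5824 2688 (.cons 5856 2496 (.cons 5888 2400 (.cons 6144 2272 .nil))))))))))),(.cons 6144 2268 (.cons 5824 2432 (.cons 5696 2496 (.cons 5664 2560 (.cons 5632 2624 (.cons 5600 2688 (.cons 5568 2816 (.cons 5556 2880 (.cons 5520 3008 (.cons 5504 3136 (.cons 5488 3456 (.cons 5472 4048 .nil)))))))))))),(.cons 6140 2496 (.cons 6136 2400 .nil)),.nil⟩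
def c539 : Cls := ⟨5288,5336,5800,6144,(.cons 5696 3456 (.cons 5760 3328 (.cons 6144 2344 .nil))),(.cons 6144 2288 (.cons 5632 2560 (.cons 5504 2816 (.cons 5440 3200 (.cons 5376 3584 (.cons 5184 3712 (.cons 5120 3904 .nil))))))),.nil,.nil⟩
def c540 : Cls := ⟨5336,5632,5800,6144,(.cons 5696 3456 (.cons 5760 3328 (.cons 6144 2344 .nil))),(.cons 6144 2288 (.cons 5632 2560 (.cons 5504 2816 (.cons 5440 3200 (.cons 5376 3584 (.cons 5184 3712 (.cons 5120 3904 .nil))))))),.nil,.nil⟩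
def c541 : Cls := ⟨5584,5632,5800,6144,(.cons 5696 3456 (.cons 5760 3328 (.cons 6144 2344 .nil))),(.cons 6144 2288 (.cons 5632 2560 (.cons 5504 2816 (.cons 5440 3200 (.cons 5376 3584 (.cons 5184 3712 (.cons 5120 3904 .nil))))))),.nil,.nil⟩
def c542 : Cls := ⟨5336,5584,5800,6144,(.cons 5696 3456 (.cons 5760 3328 (.cons 6144 2344 .nil))),(.cons 6144 2288 (.cons 5632 2560 (.cons 5504 2816 (.cons 5440 3200 (.cons 5376 3584 (.cons 5184 3712 (.cons 5120 3904 .nil))))))),.nil,.nil⟩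
def c543 : Cls := ⟨5336,5584,5800,5872,(.cons 5696 3456 (.cons 5760 3328 (.cons 6144 2344 .nil))),(.cons 6144 2288 (.cons 5632 2560 (.cons 5504 2816 (.cons 5440 3200 (.cons 5376 3584 (.cons 5184 3712 (.cons 5120 3904 .nil))))))),.nil,.nil⟩
def c544 : Cls := ⟨5336,5584,5872,6144,(.cons 5696 3456 (.cons 5760 3328 (.cons 6144 2344 .nil))),(.cons 6144 2288 (.cons 5632 2560 (.cons 5504 2816 (.cons 5440 3200 (.cons 5376 3584 (.cons 5184 3712 (.cons 5120 3904 .nil))))))),.nil,.nil⟩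
def c545 : Cls := ⟨5336,5584,5872,6144,(.cons 5632 3712 (.cons 5696 3200 (.cons 6144 2344 .nil))),(.cons 6144 2288 (.cons 5632 2560 (.cons 5504 2816 (.cons 5440 3200 (.cons 5376 3584 (.cons 5184 3712 (.cons 5120 3904 .nil))))))),.nil,.nil⟩
def c546 : Cls := ⟨5336,5584,5872,6144,(.cons 5632 3712 (.cons 5696 3200 (.cons 5760 2816 (.cons 6144 2344 .nil)))),(.cons 6144 2288 (.cons 5632 2560 (.cons 5504 2816 (.cons 5440 3200 (.cons 5376 3584 (.cons 5184 3712 (.cons 5120 3904 .nil))))))),.nil,.nil⟩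
def c547 : Cls := ⟨5336,5584,5872,5888,(.cons 5632 3712 (.cons 5696 3200 (.cons 5760 2816 (.cons 6144 2344 .nil)))),(.cons 6144 2288 (.cons 5632 2560 (.cons 5504 2816 (.cons 5440 3200 (.cons 5376 3584 (.cons 5184 3712 (.cons 5120 3904 .nil))))))),.nil,.nil⟩
def c548 : Cls := ⟨5336,5584,5888,6144,(.cons 5632 3712 (.cons 5696 3200 (.cons 5760 2816 (.cons 6144 2344 .nil)))),(.cons 6144 2288 (.cons 5632 2560 (.cons 5504 2816 (.cons 5440 3200 (.cons 5376 3584 (.cons 5184 3712 (.cons 5120 3904 .nil))))))),.nil,.nil⟩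
def c549 : Cls := ⟨5336,5584,5888,6144,(.cons 5632 3712 (.cons 5696 3200 (.cons 5760 2816 (.cons 6144 2320 .nil)))),(.cons 6144 2288 (.cons 5632 2560 (.cons 5504 2816 (.cons 5440 3200 (.cons 5376 3584 (.cons 5184 3712 (.cons 5120 3904 .nil))))))),.nil,.nil⟩
def c550 : Cls := ⟨5336,5584,5888,6144,(.cons 5632 3712 (.cons 5696 3200 (.cons 5760 2816 (.cons 6144 2344 .nil)))),(.cons 6144 2320 (.cons 5632 2560 (.cons 5504 2816 (.cons 5440 3200 (.cons 5376 3584 (.cons 5184 3712 (.cons 5120 3904 .nil))))))),.nil,.nil⟩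
def c551 : Cls := ⟨5336,5360,5888,6144,(.cons 5632 3712 (.cons 5696 3200 (.cons 5760 2816 (.cons 6144 2320 .nil)))),(.cons 6144 2288 (.cons 5632 2560 (.cons 5504 2816 (.cons 5440 3200 (.cons 5376 3584 (.cons 5184 3712 (.cons 5120 3904 .nil))))))),.nil,.nil⟩
def c552 : Cls := ⟨5360,5584,5888,6144,(.cons 5632 3712 (.cons 5696 3200 (.cons 5760 2816 (.cons 6144 2320 .nil)))),(.cons 6144 2288 (.cons 5632 2560 (.cons 5504 2816 (.cons 5440 3200 (.cons 5376 3584 (.cons 5184 3712 (.cons 5120 3904 .nil))))))),.nil,.nil⟩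
def c553 : Cls := ⟨5568,5584,5888,6144,(.cons 5632 3712 (.cons 5696 3200 (.cons 5760 2816 (.cons 6144 2320 .nil)))),(.cons 6144 2288 (.cons 5632 2560 (.cons 5504 2816 (.cons 5440 3200 (.cons 5376 3584 (.cons 5184 3712 (.cons 5120 3904 .nil))))))),.nil,.nil⟩
def c554 : Cls := ⟨5360,5568,5888,6144,(.cons 5632 3712 (.cons 5696 3200 (.cons 5760 2816 (.cons 6144 2320 .nil)))),(.cons 6144 2288 (.cons 5632 2560 (.cons 5504 2816 (.cons 5440 3200 (.cons 5376 3584 (.cons 5184 3712 (.cons 5120 3904 .nil))))))),.nil,.nil⟩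
def c555 : Cls := ⟨5360,5568,5888,5928,(.cons 5632 3712 (.cons 5696 3200 (.cons 5760 2816 (.cons 6144 2320 .nil)))),(.cons 6144 2288 (.cons 5632 2560 (.cons 5504 2816 (.cons 5440 3200 (.cons 5376 3584 (.cons 5184 3712 (.cons 5120 3904 .nil))))))),.nil,.nil⟩
def c556 : Cls := ⟨5360,5568,5928,6144,(.cons 5632 3712 (.cons 5696 3200 (.cons 5760 2816 (.cons 6144 2320 .nil)))),(.cons 6144 2288 (.cons 5632 2560 (.cons 5504 2816 (.cons 5440 3200 (.cons 5376 3584 (.cons 5184 3712 (.cons 5120 3904 .nil))))))),.nil,.nil⟩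
def c557 : Cls := ⟨5360,5568,5928,6144,(.cons 5632 3712 (.cons 5696 3200 (.cons 5760 2816 (.cons 6144 2320 .nil)))),(.cons 6144 2288 (.cons 5632 2560 (.cons 5504 2816 (.cons 5440 3584 (.cons 5376 3840 (.cons 5120 3904 .nil)))))),.nil,.nil⟩
def c558 : Cls := ⟨5360,5568,5928,6144,(.cons 5632 3712 (.cons 5696 3200 (.cons 5760 2816 (.cons 6144 2320 .nil)))),(.cons 6144 2288 (.cons 5760 2432 (.cons 5696 2496 (.cons 5632 2560 (.cons 5504 2816 (.cons 5440 3584 (.cons 5376 3840 (.cons 5120 3904 .nil)))))))),.nil,.nil⟩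
def c559 : Cls := ⟨5360,5568,5928,6144,(.cons 5632 3712 (.cons 5696 3200 (.cons 5760 2816 (.cons 5824 2688 (.cons 6144 2320 .nil))))),(.cons 6144 2288 (.cons 5760 2432 (.cons 5696 2496 (.cons 5632 2560 (.cons 5504 2816 (.cons 5440 3584 (.cons 5376 3840 (.cons 5120 3904 .nil)))))))),.nil,.nil⟩
def c560 : Cls := ⟨5360,5384,5928,6144,(.cons 5632 3712 (.cons 5696 3200 (.cons 5760 2816 (.cons 5824 2688 (.cons 6144 2320 .nil))))),(.cons 6144 2288 (.cons 5760 2432 (.cons 5696 2496 (.cons 5632 2560 (.cons 5504 2816 (.cons 5440 3584 (.cons 5376 3840 (.cons 5120 3904 .nil)))))))),.nil,.nil⟩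
def c561 : Cls := ⟨5384,5568,5928,6144,(.cons 5632 3712 (.cons 5696 3200 (.cons 5760 2816 (.cons 5824 2688 (.cons 6144 2320 .nil))))),(.cons 6144 2288 (.cons 5760 2432 (.cons 5696 2496 (.cons 5632 2560 (.cons 5504 2816 (.cons 5440 3584 (.cons 5376 3840 (.cons 5120 3904 .nil)))))))),.nil,.nil⟩
def c562 : Cls := ⟨5384,5568,5928,6144,(.cons 5632 3712 (.cons 5696 3200 (.cons 5760 2816 (.cons 5824 2432 (.cons 6144 2320 .nil))))),(.cons 6144 2288 (.cons 5760 2432 (.cons 5696 2496 (.cons 5632 2560 (.cons 5504 2816 (.cons 5440 3584 (.cons 5376 3840 (.cons 5120 3904 .nil)))))))),.nil,.nil⟩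
def c563 : Cls := ⟨5384,5568,5928,6144,(.cons 5632 3712 (.cons 5696 3200 (.cons 5760 2816 (.cons 5824 2688 (.cons 6144 2320 .nil))))),(.cons 6144 2288 (.cons 5824 2432 (.cons 5696 2496 (.cons 5632 2560 (.cons 5504 2816 (.cons 5440 3584 (.cons 5376 3840 (.cons 5120 3904 .nil)))))))),.nil,.nil⟩
def c564 : Cls := ⟨5384,5440,5928,6144,(.cons 5632 3712 (.cons 5696 3200 (.cons 5760 2816 (.cons 5824 2432 (.cons 6144 2320 .nil))))),(.cons 6144 2288 (.cons 5760 2432 (.cons 5696 2496 (.cons 5632 2560 (.cons 5504 2816 (.cons 5440 3584 (.cons 5376 3840 (.cons 5120 3904 .nil)))))))),.nil,.nil⟩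
def c565 : Cls := ⟨5440,5568,5928,6144,(.cons 5632 3712 (.cons 5696 3200 (.cons 5760 2816 (.cons 5824 2432 (.cons 6144 2320 .nil))))),(.cons 6144 2288 (.cons 5760 2432 (.cons 5696 2496 (.cons 5632 2560 (.cons 5504 2816 (.cons 5440 3584 (.cons 5376 3840 (.cons 5120 3904 .nil)))))))),.nil,.nil⟩
def c566 : Cls := ⟨5544,5568,5928,6144,(.cons 5632 3712 (.cons 5696 3200 (.cons 5760 2816 (.cons 5824 2432 (.cons 6144 2320 .nil))))),(.cons 6144 2288 (.cons 5760 2432 (.cons 5696 2496 (.cons 5632 2560 (.cons 5504 2816 (.cons 5440 3584 (.cons 5376 3840 (.cons 5120 3904 .nil)))))))),.nil,.nil⟩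
def c567 : Cls := ⟨5440,5544,5928,6144,(.cons 5632 3712 (.cons 5696 3200 (.cons 5760 2816 (.cons 5824 2432 (.cons 6144 2320 .nil))))),(.cons 6144 2288 (.cons 5760 2432 (.cons 5696 2496 (.cons 5632 2560 (.cons 5504 2816 (.cons 5440 3584 (.cons 5376 3840 (.cons 5120 3904 .nil)))))))),.nil,.nil⟩
def c568 : Cls := ⟨5440,5544,5928,6144,(.cons 5632 3712 (.cons 5696 3200 (.cons 5760 2816 (.cons 5824 2432 (.cons 6144 2304 .nil))))),(.cons 6144 2288 (.cons 5760 2432 (.cons 5696 2496 (.cons 5632 2560 (.cons 5504 2816 (.cons 5440 3584 (.cons 5376 3840 (.cons 5120 3904 .nil)))))))),.nil,.nil⟩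
def c569 : Cls := ⟨5440,5544,5928,6144,(.cons 5632 3712 (.cons 5696 3200 (.cons 5760 2816 (.cons 5824 2432 (.cons 6144 2320 .nil))))),(.cons 6144 2304 (.cons 5760 2432 (.cons 5696 2496 (.cons 5632 2560 (.cons 5504 2816 (.cons 5440 3584 (.cons 5376 3840 (.cons 5120 3904 .nil)))))))),.nil,.nil⟩
def c570 : Cls := ⟨5440,5544,5928,6144,(.cons 5632 3712 (.cons 5696 3200 (.cons 5760 2816 (.cons 5824 2432 (.cons 6144 2320 .nil))))),(.cons 6144 2312 (.cons 5760 2432 (.cons 5696 2496 (.cons 5632 2560 (.cons 5504 2816 (.cons 5440 3584 (.cons 5376 3840 (.cons 5120 3904 .nil)))))))),.nil,.nil⟩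
def c571 : Cls := ⟨5440,5544,5928,6144,(.cons 5632 3712 (.cons 5696 3200 (.cons 5760 2816 (.cons 5824 2432 (.cons 6144 2312 .nil))))),(.cons 6144 2304 (.cons 5760 2432 (.cons 5696 2496 (.cons 5632 2560 (.cons 5504 2816 (.cons 5440 3584 (.cons 5376 3840 (.cons 5120 3904 .nil)))))))),.nil,.nil⟩
def c572 : Cls := ⟨5440,5544,5928,6104,(.cons 5632 3712 (.cons 5696 3200 (.cons 5760 2816 (.cons 5824 2432 (.cons 6144 2312 .nil))))),(.cons 6144 2304 (.cons 5760 2432 (.cons 5696 2496 (.cons 5632 2560 (.cons 5504 2816 (.cons 5440 3584 (.cons 5376 3840 (.cons 5120 3904 .nil)))))))),.nil,.nil⟩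
def c573 : Cls := ⟨5440,5544,6104,6144,(.cons 5632 3712 (.cons 5696 3200 (.cons 5760 2816 (.cons 5824 2432 (.cons 6144 2312 .nil))))),(.cons 6144 2304 (.cons 5760 2432 (.cons 5696 2496 (.cons 5632 2560 (.cons 5504 2816 (.cons 5440 3584 (.cons 5376 3840 (.cons 5120 3904 .nil)))))))),.nil,.nil⟩
def c574 : Cls := ⟨5440,5544,6128,6144,(.cons 5632 3712 (.cons 5696 3200 (.cons 5760 2816 (.cons 5824 2432 (.cons 6144 2312 .nil))))),(.cons 6144 2304 (.cons 5760 2432 (.cons 5696 2496 (.cons 5632 2560 (.cons 5504 2816 (.cons 5440 3584 (.cons 5376 3840 (.cons 5120 3904 .nil)))))))),.nil,.nil⟩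
def c575 : Cls := ⟨5440,5544,6104,6128,(.cons 5632 3712 (.cons 5696 3200 (.cons 5760 2816 (.cons 5824 2432 (.cons 6144 2312 .nil))))),(.cons 6144 2304 (.cons 5760 2432 (.cons 5696 2496 (.cons 5632 2560 (.cons 5504 2816 (.cons 5440 3584 (.cons 5376 3840 (.cons 5120 3904 .nil)))))))),.nil,.nil⟩
def c576 : Cls := ⟨5384,5400,5928,6144,(.cons 5632 3712 (.cons 5696 3200 (.cons 5760 2816 (.cons 5824 2688 (.cons 6144 2320 .nil))))),(.cons 6144 2288 (.cons 5824 2432 (.cons 5696 2496 (.cons 5632 2560 (.cons 5504 2816 (.cons 5440 3584 (.cons 5376 3840 (.cons 5120 3904 .nil)))))))),.nil,.nil⟩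
def c577 : Cls := ⟨5400,5568,5928,6144,(.cons 5632 3712 (.cons 5696 3200 (.cons 5760 2816 (.cons 5824 2688 (.cons 6144 2320 .nil))))),(.cons 6144 2288 (.cons 5824 2432 (.cons 5696 2496 (.cons 5632 2560 (.cons 5504 2816 (.cons 5440 3584 (.cons 5376 3840 (.cons 5120 3904 .nil)))))))),.nil,.nil⟩
def c578 : Cls := ⟨5552,5568,5928,6144,(.cons 5632 3712 (.cons 5696 3200 (.cons 5760 2816 (.cons 5824 2688 (.cons 6144 2320 .nil))))),(.cons 6144 2288 (.cons 5824 2432 (.cons 5696 2496 (.cons 5632 2560 (.cons 5504 2816 (.cons 5440 3584 (.cons 5376 3840 (.cons 5120 3904 .nil)))))))),.nil,.nil⟩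
def c579 : Cls := ⟨5400,5552,5928,6144,(.cons 5632 3712 (.cons 5696 3200 (.cons 5760 2816 (.cons 5824 2688 (.cons 6144 2320 .nil))))),(.cons 6144 2288 (.cons 5824 2432 (.cons 5696 2496 (.cons 5632 2560 (.cons 5504 2816 (.cons 5440 3584 (.cons 5376 3840 (.cons 5120 3904 .nil)))))))),.nil,.nil⟩
def c580 : Cls := ⟨5400,5552,5928,6144,(.cons 5632 3712 (.cons 5696 3200 (.cons 5760 2816 (.cons 5824 2688 (.cons 6144 2320 .nil))))),(.cons 6144 2312 (.cons 5824 2432 (.cons 5696 2496 (.cons 5632 2560 (.cons 5504 2816 (.cons 5440 3584 (.cons 5376 3840 (.cons 5120 3904 .nil)))))))),.nil,.nil⟩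
def c581 : Cls := ⟨5400,5552,5928,6144,(.cons 5632 3712 (.cons 5696 3200 (.cons 5760 2816 (.cons 5824 2688 (.cons 6144 2312 .nil))))),(.cons 6144 2288 (.cons 5824 2432 (.cons 5696 2496 (.cons 5632 2560 (.cons 5504 2816 (.cons 5440 3584 (.cons 5376 3840 (.cons 5120 3904 .nil)))))))),.nil,.nil⟩
def c582 : Cls := ⟨5400,5552,5928,5976,(.cons 5632 3712 (.cons 5696 3200 (.cons 5760 2816 (.cons 5824 2688 (.cons 6144 2312 .nil))))),(.cons 6144 2288 (.cons 5824 2432 (.cons 5696 2496 (.cons 5632 2560 (.cons 5504 2816 (.cons 5440 3584 (.cons 5376 3840 (.cons 5120 3904 .nil)))))))),.nil,.nil⟩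
def c583 : Cls := ⟨5400,5552,5976,6144,(.cons 5632 3712 (.cons 5696 3200 (.cons 5760 2816 (.cons 5824 2688 (.cons 6144 2312 .nil))))),(.cons 6144 2288 (.cons 5824 2432 (.cons 5696 2496 (.cons 5632 2560 (.cons 5504 2816 (.cons 5440 3584 (.cons 5376 3840 (.cons 5120 3904 .nil)))))))),.nil,.nil⟩
def c584 : Cls := ⟨5400,5552,5976,6144,(.cons 5552 3904 (.cons 5600 3776 (.cons 5632 3584 (.cons 5696 3200 (.cons 5760 2816 (.cons 5824 2688 (.cons 6144 2312 .nil))))))),(.cons 6144 2288 (.cons 5824 2432 (.cons 5696 2496 (.cons 5632 2560 (.cons 5504 2816 (.cons 5440 3584 (.cons 5376 3840 (.cons 5120 3904 .nil)))))))),.nil,.nil⟩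
def c585 : Cls := ⟨5400,5552,5976,6144,(.cons 5552 3904 (.cons 5600 3776 (.cons 5632 3584 (.cons 5696 3200 (.cons 5760 2816 (.cons 5824 2688 (.cons 5888 2496 (.cons 6144 2312 .nil)))))))),(.cons 6144 2288 (.cons 5824 2432 (.cons 5696 2496 (.cons 5632 2560 (.cons 5504 2816 (.cons 5440 3584 (.cons 5376 3840 (.cons 5120 3904 .nil)))))))),.nil,.nil⟩
def c586 : Cls := ⟨5400,5424,5976,6144,(.cons 5552 3904 (.cons 5600 3776 (.cons 5632 3584 (.cons 5696 3200 (.cons 5760 2816 (.cons 5824 2688 (.cons 5888 2496 (.cons 6144 2312 .nil)))))))),(.cons 6144 2288 (.cons 5824 2432 (.cons 5696 2496 (.cons 5632 2560 (.cons 5504 2816 (.cons 5440 3584 (.cons 5376 3840 (.cons 5120 3904 .nil)))))))),.nil,.nil⟩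
def c587 : Cls := ⟨5424,5552,5976,6144,(.cons 5552 3904 (.cons 5600 3776 (.cons 5632 3584 (.cons 5696 3200 (.cons 5760 2816 (.cons 5824 2688 (.cons 5888 2496 (.cons 6144 2312 .nil)))))))),(.cons 6144 2288 (.cons 5824 2432 (.cons 5696 2496 (.cons 5632 2560 (.cons 5504 2816 (.cons 5440 3584 (.cons 5376 3840 (.cons 5120 3904 .nil)))))))),.nil,.nil⟩
def c588 : Cls := ⟨5544,5552,5976,6144,(.cons 5552 3904 (.cons 5600 3776 (.cons 5632 3584 (.cons 5696 3200 (.cons 5760 2816 (.cons 5824 2688 (.cons 5888 2496 (.cons 6144 2312 .nil)))))))),(.cons 6144 2288 (.cons 5824 2432 (.cons 5696 2496 (.cons 5632 2560 (.cons 5504 2816 (.cons 5440 3584 (.cons 5376 3840 (.cons 5120 3904 .nil)))))))),.nil,.nil⟩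
def c589 : Cls := ⟨5424,5544,5976,6144,(.cons 5552 3904 (.cons 5600 3776 (.cons 5632 3584 (.cons 5696 3200 (.cons 5760 2816 (.cons 5824 2688 (.cons 5888 2496 (.cons 6144 2312 .nil)))))))),(.cons 6144 2288 (.cons 5824 2432 (.cons 5696 2496 (.cons 5632 2560 (.cons 5504 2816 (.cons 5440 3584 (.cons 5376 3840 (.cons 5120 3904 .nil)))))))),.nil,.nil⟩
def c590 : Cls := ⟨5424,5544,5976,6144,(.cons 5552 3904 (.cons 5600 3776 (.cons 5632 3584 (.cons 5696 3200 (.cons 5760 2816 (.cons 5824 2688 (.cons 5888 2496 (.cons 6144 2312 .nil)))))))),(.cons 6144 2304 (.cons 5824 2432 (.cons 5696 2496 (.cons 5632 2560 (.cons 5504 2816 (.cons 5440 3584 (.cons 5376 3840 (.cons 5120 3904 .nil)))))))),.nil,.nil⟩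
def c591 : Cls := ⟨5424,5544,5976,6144,(.cons 5552 3904 (.cons 5600 3776 (.cons 5632 3584 (.cons 5696 3200 (.cons 5760 2816 (.cons 5824 2688 (.cons 5888 2496 (.cons 6144 2304 .nil)))))))),(.cons 6144 2288 (.cons 5824 2432 (.cons 5696 2496 (.cons 5632 2560 (.cons 5504 2816 (.cons 5440 3584 (.cons 5376 3840 (.cons 5120 3904 .nil)))))))),.nil,.nil⟩
def c592 : Cls := ⟨5424,5544,5976,6000,(.cons 5552 3904 (.cons 5600 3776 (.cons 5632 3584 (.cons 5696 3200 (.cons 5760 2816 (.cons 5824 2688 (.cons 5888 2496 (.cons 6144 2304 .nil)))))))),(.cons 6144 2288 (.cons 5824 2432 (.cons 5696 2496 (.cons 5632 2560 (.cons 5504 2816 (.cons 5440 3584 (.cons 5376 3840 (.cons 5120 3904 .nil)))))))),.nil,.nil⟩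
def c593 : Cls := ⟨5424,5544,6000,6144,(.cons 5552 3904 (.cons 5600 3776 (.cons 5632 3584 (.cons 5696 3200 (.cons 5760 2816 (.cons 5824 2688 (.cons 5888 2496 (.cons 6144 2304 .nil)))))))),(.cons 6144 2288 (.cons 5824 2432 (.cons 5696 2496 (.cons 5632 2560 (.cons 5504 2816 (.cons 5440 3584 (.cons 5376 3840 (.cons 5120 3904 .nil)))))))),.nil,.nil⟩
def c594 : Cls := ⟨5424,5544,6000,6144,(.cons 5552 3904 (.cons 5600 3456 (.cons 5632 3328 (.cons 5696 3072 (.cons 5760 2816 (.cons 5824 2688 (.cons 5888 2496 (.cons 6144 2304 .nil)))))))),(.cons 6144 2288 (.cons 5824 2432 (.cons 5696 2496 (.cons 5632 2560 (.cons 5504 2816 (.cons 5440 3584 (.cons 5376 3840 (.cons 5120 3904 .nil)))))))),.nil,.nil⟩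
def c595 : Cls := ⟨5424,5440,6000,6144,(.cons 5552 3904 (.cons 5600 3456 (.cons 5632 3328 (.cons 5696 3072 (.cons 5760 2816 (.cons 5824 2688 (.cons 5888 2496 (.cons 6144 2304 .nil)))))))),(.cons 6144 2288 (.cons 5824 2432 (.cons 5696 2496 (.cons 5632 2560 (.cons 5504 2816 (.cons 5440 3584 (.cons 5376 3840 (.cons 5120 3904 .nil)))))))),.nil,.nil⟩
def c596 : Cls := ⟨5440,5544,6000,6144,(.cons 5552 3904 (.cons 5600 3456 (.cons 5632 3328 (.cons 5696 3072 (.cons 5760 2816 (.cons 5824 2688 (.cons 5888 2496 (.cons 6144 2304 .nil)))))))),(.cons 6144 2288 (.cons 5824 2432 (.cons 5696 2496 (.cons 5632 2560 (.cons 5504 2816 (.cons 5440 3584 (.cons 5376 3840 (.cons 5120 3904 .nil)))))))),.nil,.nil⟩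
def c597 : Cls := ⟨5440,5544,6000,6144,(.cons 5552 3904 (.cons 5600 3456 (.cons 5632 3328 (.cons 5696 3072 (.cons 5760 2816 (.cons 5824 2688 (.cons 5888 2496 (.cons 5920 2368 (.cons 6144 2304 .nil))))))))),(.cons 6144 2288 (.cons 5824 2432 (.cons 5696 2496 (.cons 5632 2560 (.cons 5504 2816 (.cons 5440 3584 (.cons 5376 3840 (.cons 5120 3904 .nil)))))))),.nil,.nil⟩
def c598 : Cls := ⟨5440,5544,6000,6144,(.cons 5552 3904 (.cons 5600 3456 (.cons 5632 3328 (.cons 5696 3072 (.cons 5760 2816 (.cons 5824 2688 (.cons 5888 2496 (.cons 6144 2304 .nil)))))))),(.cons 6144 2288 (.cons 5920 2368 (.cons 5824 2432 (.cons 5696 2496 (.cons 5632 2560 (.cons 5504 2816 (.cons 5440 3584 (.cons 5376 3840 (.cons 5120 3904 .nil))))))))),.nil,.nil⟩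
def c599 : Cls := ⟨5336,5392,5888,6144,(.cons 5632 3712 (.cons 5696 3200 (.cons 5760 2816 (.cons 6144 2344 .nil)))),(.cons 6144 2320 (.cons 5632 2560 (.cons 5504 2816 (.cons 5440 3200 (.cons 5376 3584 (.cons 5184 3712 (.cons 5120 3904 .nil))))))),.nil,.nil⟩
def c600 : Cls := ⟨5392,5584,5888,6144,(.cons 5632 3712 (.cons 5696 3200 (.cons 5760 2816 (.cons 6144 2344 .nil)))),(.cons 6144 2320 (.cons 5632 2560 (.cons 5504 2816 (.cons 5440 3200 (.cons 5376 3584 (.cons 5184 3712 (.cons 5120 3904 .nil))))))),.nil,.nil⟩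
def c601 : Cls := ⟨5544,5584,5888,6144,(.cons 5632 3712 (.cons 5696 3200 (.cons 5760 2816 (.cons 6144 2344 .nil)))),(.cons 6144 2320 (.cons 5632 2560 (.cons 5504 2816 (.cons 5440 3200 (.cons 5376 3584 (.cons 5184 3712 (.cons 5120 3904 .nil))))))),.nil,.nil⟩
def c602 : Cls := ⟨5392,5544,5888,6144,(.cons 5632 3712 (.cons 5696 3200 (.cons 5760 2816 (.cons 6144 2344 .nil)))),(.cons 6144 2320 (.cons 5632 2560 (.cons 5504 2816 (.cons 5440 3200 (.cons 5376 3584 (.cons 5184 3712 (.cons 5120 3904 .nil))))))),.nil,.nil⟩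
def c603 : Cls := ⟨5392,5544,5888,6144,(.cons 5632 3712 (.cons 5696 3200 (.cons 5760 2816 (.cons 6144 2344 .nil)))),(.cons 6144 2336 (.cons 5632 2560 (.cons 5504 2816 (.cons 5440 3200 (.cons 5376 3584 (.cons 5184 3712 (.cons 5120 3904 .nil))))))),.nil,.nil⟩
def c604 : Cls := ⟨5392,5544,5888,6144,(.cons 5632 3712 (.cons 5696 3200 (.cons 5760 2816 (.cons 6144 2336 .nil)))),(.cons 6144 2320 (.cons 5632 2560 (.cons 5504 2816 (.cons 5440 3200 (.cons 5376 3584 (.cons 5184 3712 (.cons 5120 3904 .nil))))))),.nil,.nil⟩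
def c605 : Cls := ⟨5392,5544,5888,6040,(.cons 5632 3712 (.cons 5696 3200 (.cons 5760 2816 (.cons 6144 2336 .nil)))),(.cons 6144 2320 (.cons 5632 2560 (.cons 5504 2816 (.cons 5440 3200 (.cons 5376 3584 (.cons 5184 3712 (.cons 5120 3904 .nil))))))),.nil,.nil⟩
def c606 : Cls := ⟨5392,5544,6040,6144,(.cons 5632 3712 (.cons 5696 3200 (.cons 5760 2816 (.cons 6144 2336 .nil)))),(.cons 6144 2320 (.cons 5632 2560 (.cons 5504 2816 (.cons 5440 3200 (.cons 5376 3584 (.cons 5184 3712 (.cons 5120 3904 .nil))))))),.nil,.nil⟩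
def c607 : Cls := ⟨5392,5544,6040,6144,(.cons 5632 3712 (.cons 5696 3200 (.cons 5760 2816 (.cons 6144 2336 .nil)))),(.cons 6144 2320 (.cons 5632 2560 (.cons 5544 2944 (.cons 5504 3072 (.cons 5440 3328 (.cons 5376 3584 (.cons 5184 3712 (.cons 5120 3904 .nil)))))))),.nil,.nil⟩
def c608 : Cls := ⟨5392,5544,6040,6144,(.cons 5632 3712 (.cons 5696 3200 (.cons 5760 2816 (.cons 6144 2336 .nil)))),(.cons 6144 2320 (.cons 5696 2432 (.cons 5632 2688 (.cons 5544 2944 (.cons 5504 3072 (.cons 5440 3328 (.cons 5376 3584 (.cons 5184 3712 (.cons 5120 3904 .nil))))))))),.nil,.nil⟩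
def c609 : Cls := ⟨5392,5544,6040,6144,(.cons 5632 3712 (.cons 5696 3200 (.cons 5760 2816 (.cons 6144 2336 .nil)))),(.cons 6144 2320 (.cons 5824 2496 (.cons 5632 2688 (.cons 5544 2944 (.cons 5504 3072 (.cons 5440 3328 (.cons 5376 3584 (.cons 5184 3712 (.cons 5120 3904 .nil))))))))),.nil,.nil⟩

end Pool.Agent.Lib.MP_9b2593_an
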