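import Pool.Agent.Lib.MP_9b2593_an.Sound
import Pool.Agent.Lib.MP_9b2593_an.Data.D0
import Pool.Agent.Lib.MP_9b2593_an.Data.D1
import Pool.Agent.Lib.MP_9b2593_an.Data.D2
import Pool.Agent.Lib.MP_9b2593_an.Data.D3
import Pool.Agent.Lib.MP_9b2593_an.Data.D4
import Pool.Agent.Lib.MP_9b2593_an.Data.D5
import Pool.Agent.Lib.MP_9b2593_an.Data.D6
import Pool.Agent.Lib.MP_9b2593_an.Data.D7
import Pool.Agent.Lib.MP_9b2593_an.Data.D8
import Pool.Agent.Lib.MP_9b2593_an.Data.D9
import Pool.Agent.Lib.MP_9b2593_an.Data.D10
import Pool.Agent.Lib.MP_9b2593_an.Data.D11
import Pool.Agent.Lib.MP_9b2593_an.Data.D12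
import Pool.Agent.Lib.MP_9b2593_an.Data.D13
import Pool.Agent.Lib.MP_9b2593_an.Data.D14
import Pool.Agent.Lib.MP_9b2593_an.Data.D15
import Pool.Agent.Lib.MP_9b2593_an.Data.D16
import Pool.Agent.Lib.MP_9b2593_an.Data.D17
import Pool.Agent.Lib.MP_9b2593_an.Data.D18
import Pool.Agent.Lib.MP_9b2593_an.Data.D19
import Pool.Agent.Lib.MP_9b2593_an.Data.D20
import Pool.Agent.Lib.MP_9b2593_an.Data.D21
import Pool.Agent.Lib.MP_9b2593_an.Data.D22
import Pool.Agent.Lib.MP_9b2593_an.Data.D23
import Pool.Agent.Lib.MP_9b2593_an.Data.D24
import Pool.Agent.Lib.MP_9b2593_an.Data.D25
import Pool.Agent.Lib.MP_9b2593_an.Data.D26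
import Pool.Agent.Lib.MP_9b2593_an.Data.D27
import Pool.Agent.Lib.MP_9b2593_an.Data.D28

namespace Pool.Agent.Lib.MP_9b2593_an

theorem g1 : Good 23950 c1 := good_step h1 good_bot
theorem g11 : Good 23950 c11 := good_step h11 good_bot
theorem g19 : Good 23950 c19 := good_step h19 good_bot
theorem g21 : Good 23950 c21 := good_step h21 good_bot
theorem g30 : Good 23950 c30 := good_step h30 good_bot
theorem g40 : Good 23950 c40 := good_step h40 good_bot
theorem g49 : Good 23950 c49 := good_step h49 good_bot
theorem g53 : Good 23950 c53 := good_step h53 good_bot
theorem g63 : Good 23950 c63 := good_step h63 good_bot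
theorem g67 : Good 23950 c67 := good_step h67 good_bot
theorem g296 : Good 23950 c296 := good_step h296 good_bot
theorem g298 : Good 23950 c298 := good_step h298 good_bot
theorem g541 : Good 23950 c541 := good_step h541 good_bot
theorem g601 : Good 23950 c601 := good_step h601 good_bot
theorem g603 : Good 23950 c603 := good_step h603 good_bot
theorem g609 : Good 23950 c609 := good_step h609 good_bot
theorem g608 : Good 23950 c608 := good_step h608 g609
theorem g607 : Good 23950 c607 := good_step h607 g608
theorem g606 : Good 23950 c606 := good_step h606 g607
theorem g605 : Good 23950 c605 := good_step h605 good_bot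
theorem g604 : Good 23950 c604 := good_c 6040 (by decide +kernel) g605 g606
theorem g602 : Good 23950 c602 := good_L 6144 2336 (by decide +kernel) g604 g603
theorem g600 : Good 23950 c600 := good_d 5544 (by decide +kernel) g602 g601
theorem g599 : Good 23950 c599 := good_step h599 good_bot
theorem g550 : Good 23950 c550 := good_d 5392 (by decide +kernel) g599 g600
theorem g553 : Good 23950 c553 := good_step h553 good_bot
theorem g578 : Good 23950 c578 := good_step h578 good_bot
theorem g580 : Good 23950 c580 := good_step h580 good_bot
theorem g588 : Good 23950 c588 := good_step h588 good_bot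
theorem g590 : Good 23950 c590 := good_step h590 good_bot
theorem g598 : Good 23950 c598 := good_step h598 good_bot
theorem g597 : Good 23950 c597 := good_step h597 good_bot
theorem g596 : Good 23950 c596 := good_L 5920 2368 (by decide +kernel) g597 g598
theorem g595 : Good 23950 c595 := good_step h595 good_bot
theorem g594 : Good 23950 c594 := good_d 5440 (by decide +kernel) g595 g596
theorem g593 : Good 23950 c593 := good_step h593 g594
theorem g592 : Good 23950 c592 := good_step h592 good_bot
theorem g591 : Good 23950 c591 := good_c 6000 (by decide +kernel) g592 g593
theorem g589 : Good 23950 c589 := good_L 6144 2304 (by decide +kernel) g591 g590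
theorem g587 : Good 23950 c587 := good_d 5544 (by decide +kernel) g589 g588
theorem g586 : Good 23950 c586 := good_step h586 good_bot
theorem g585 : Good 23950 c585 := good_d 5424 (by decide +kernel) g586 g587
theorem g584 : Good 23950 c584 := good_step h584 g585
theorem g583 : Good 23950 c583 := good_step h583 g584
theorem g582 : Good 23950 c582 := good_step h582 good_bot
theorem g581 : Good 23950 c581 := good_c 5976 (by decide +kernel) g582 g583
theorem g579 : Good 23950 c579 := good_L 6144 2312 (by decide +kernel) g581 g580
theorem g577 : Good 23950 c577 := good_d 5552 (by decide +kernel) g579 g578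
theorem g576 : Good 23950 c576 := good_step h576 good_bot
theorem g563 : Good 23950 c563 := good_d 5400 (by decide +kernel) g576 g577
theorem g566 : Good 23950 c566 := good_step h566 good_bot
theorem g570 : Good 23950 c570 := good_step h570 good_bot
theorem g574 : Good 23950 c574 := good_step h574 good_bot
theorem g575 : Good 23950 c575 := good_step h575 good_bot
theorem g573 : Good 23950 c573 := good_c 6128 (by decide +kernel) g575 g574
theorem g572 : Good 23950 c572 := good_step h572 good_bot
theorem g571 : Good 23950 c571 := good_c 6104 (by decide +kernel) g572 g573
theorem g569 : Good 23950 c569 := good_L 6144 2312 (by decide +kernel) g571 g570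
theorem g568 : Good 23950 c568 := good_step h568 good_bot
theorem g567 : Good 23950 c567 := good_L 6144 2304 (by decide +kernel) g568 g569
theorem g565 : Good 23950 c565 := good_d 5544 (by decide +kernel) g567 g566
theorem g564 : Good 23950 c564 := good_step h564 good_bot
theorem g562 : Good 23950 c562 := good_d 5440 (by decide +kernel) g564 g565
theorem g561 : Good 23950 c561 := good_L 5824 2432 (by decide +kernel) g562 g563
theorem g560 : Good 23950 c560 := good_step h560 good_bot
theorem g559 : Good 23950 c559 := good_d 5384 (by decide +kernel) g560 g561
theorem g558 : Good 23950 c558 := good_step h558 g559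
theorem g557 : Good 23950 c557 := good_step h557 g558
theorem g556 : Good 23950 c556 := good_step h556 g557
theorem g555 : Good 23950 c555 := good_step h555 good_bot
theorem g554 : Good 23950 c554 := good_c 5928 (by decide +kernel) g555 g556
theorem g552 : Good 23950 c552 := good_d 5568 (by decide +kernel) g554 g553
theorem g551 : Good 23950 c551 := good_step h551 good_bot
theorem g549 : Good 23950 c549 := good_d 5360 (by decide +kernel) g551 g552
theorem g548 : Good 23950 c548 := good_L 6144 2320 (by decide +kernel) g549 g550
theorem g547 : Good 23950 c547 := good_step h547 good_bot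
theorem g546 : Good 23950 c546 := good_c 5888 (by decide +kernel) g547 g548
theorem g545 : Good 23950 c545 := good_step h545 g546
theorem g544 : Good 23950 c544 := good_step h544 g545
theorem g543 : Good 23950 c543 := good_step h543 good_bot
theorem g542 : Good 23950 c542 := good_c 5872 (by decide +kernel) g543 g544
theorem g540 : Good 23950 c540 := good_d 5584 (by decide +kernel) g542 g541
theorem g539 : Good 23950 c539 := good_step h539 good_bot
theorem g311 : Good 23950 c311 := good_d 5336 (by decide +kernel) g539 g540
theorem g314 : Good 23950 c314 := good_step h314 good_bot
theorem g339 : Good 23950 c339 := good_step h339 good_bot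
theorem g447 : Good 23950 c447 := good_step h447 good_bot
theorem g487 : Good 23950 c487 := good_step h487 good_bot
theorem g493 : Good 23950 c493 := good_step h493 good_bot
theorem g501 : Good 23950 c501 := good_step h501 good_bot
theorem g509 : Good 23950 c509 := good_step h509 good_bot
theorem g511 : Good 23950 c511 := good_step h511 good_bot
theorem g516 : Good 23950 c516 := good_step h516 good_bot
theorem g518 : Good 23950 c518 := good_step h518 good_bot
theorem g521 : Good 23950 c521 := good_step h521 good_bot
theorem g526 : Good 23950 c526 := good_step h526 good_bot
theorem g529 : Good 23950 c529 := good_step h529 good_bot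
theorem g533 : Good 23950 c533 := good_step h533 good_bot
theorem g537 : Good 23950 c537 := good_step h537 good_bot
theorem g538 : Good 23950 c538 := good_step h538 good_bot
theorem g536 : Good 23950 c536 := good_c 6116 (by decide +kernel) g538 g537
theorem g535 : Good 23950 c535 := good_step h535 good_bot
theorem g534 : Good 23950 c534 := good_c 6112 (by decide +kernel) g535 g536
theorem g532 : Good 23950 c532 := good_L 6144 2272 (by decide +kernel) g534 g533
theorem g531 : Good 23950 c531 := good_step h531 good_bot
theorem g530 : Good 23950 c530 := good_L 6144 2268 (by decide +kernel) g531 g532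
theorem g528 : Good 23950 c528 := good_d 5540 (by decide +kernel) g530 g529
theorem g527 : Good 23950 c527 := good_step h527 good_bot
theorem g525 : Good 23950 c525 := good_d 5488 (by decide +kernel) g527 g528
theorem g524 : Good 23950 c524 := good_L 6144 2276 (by decide +kernel) g525 g526
theorem g523 : Good 23950 c523 := good_step h523 good_bot
theorem g522 : Good 23950 c522 := good_c 6008 (by decide +kernel) g523 g524
theorem g520 : Good 23950 c520 := good_d 5544 (by decide +kernel) g522 g521
theorem g519 : Good 23950 c519 := good_step h519 g520
theorem g517 : Good 23950 c517 := good_c 6136 (by decide +kernel) g519 g518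
theorem g515 : Good 23950 c515 := good_d 5548 (by decide +kernel) g517 g516
theorem g514 : Good 23950 c514 := good_step h514 good_bot
theorem g513 : Good 23950 c513 := good_d 5484 (by decide +kernel) g514 g515
theorem g512 : Good 23950 c512 := good_step h512 g513
theorem g510 : Good 23950 c510 := good_c 6140 (by decide +kernel) g512 g511
theorem g508 : Good 23950 c508 := good_d 5552 (by decide +kernel) g510 g509
theorem g507 : Good 23950 c507 := good_step h507 good_bot
theorem g506 : Good 23950 c506 := good_d 5468 (by decide +kernel) g507 g508
theorem g505 : Good 23950 c505 := good_step h505 g506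
theorem g504 : Good 23950 c504 := good_step h504 g505
theorem g503 : Good 23950 c503 := good_step h503 good_bot
theorem g502 : Good 23950 c502 := good_c 6004 (by decide +kernel) g503 g504
theorem g500 : Good 23950 c500 := good_L 6144 2284 (by decide +kernel) g502 g501
theorem g499 : Good 23950 c499 := good_step h499 good_bot
theorem g498 : Good 23950 c498 := good_d 5448 (by decide +kernel) g499 g500
theorem g497 : Good 23950 c497 := good_step h497 g498
theorem g496 : Good 23950 c496 := good_step h496 g497
theorem g495 : Good 23950 c495 := good_step h495 good_bot
theorem g494 : Good 23950 c494 := good_c 5980 (by decide +kernel) g495 g496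
theorem g492 : Good 23950 c492 := good_d 5556 (by decide +kernel) g494 g493
theorem g491 : Good 23950 c491 := good_step h491 good_bot
theorem g490 : Good 23950 c490 := good_d 5424 (by decide +kernel) g491 g492
theorem g489 : Good 23950 c489 := good_step h489 good_bot
theorem g488 : Good 23950 c488 := good_c 5952 (by decide +kernel) g489 g490
theorem g486 : Good 23950 c486 := good_d 5568 (by decide +kernel) g488 g487
theorem g485 : Good 23950 c485 := good_step h485 g486
theorem g484 : Good 23950 c484 := good_step h484 good_bot
theorem g458 : Good 23950 c458 := good_d 5408 (by decide +kernel) g484 g485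
theorem g461 : Good 23950 c461 := good_step h461 good_bot
theorem g463 : Good 23950 c463 := good_step h463 good_bot
theorem g474 : Good 23950 c474 := good_step h474 good_bot
theorem g478 : Good 23950 c478 := good_step h478 good_bot
theorem g482 : Good 23950 c482 := good_step h482 good_bot
theorem g483 : Good 23950 c483 := good_step h483 good_bot
theorem g481 : Good 23950 c481 := good_c 6108 (by decide +kernel) g483 g482
theorem g480 : Good 23950 c480 := good_step h480 good_bot
theorem g479 : Good 23950 c479 := good_c 6080 (by decide +kernel) g480 g481
theorem g477 : Good 23950 c477 := good_L 6144 2276 (by decide +kernel) g479 g478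
theorem g476 : Good 23950 c476 := good_step h476 good_bot
theorem g475 : Good 23950 c475 := good_L 6144 2268 (by decide +kernel) g476 g477
theorem g473 : Good 23950 c473 := good_d 5544 (by decide +kernel) g475 g474
theorem g472 : Good 23950 c472 := good_step h472 good_bot
theorem g471 : Good 23950 c471 := good_d 5496 (by decide +kernel) g472 g473
theorem g470 : Good 23950 c470 := good_step h470 g471
theorem g469 : Good 23950 c469 := good_step h469 good_bot
theorem g468 : Good 23950 c468 := good_d 5456 (by decide +kernel) g469 g470
theorem g467 : Good 23950 c467 := good_step h467 g468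
theorem g466 : Good 23950 c466 := good_step h466 g467
theorem g465 : Good 23950 c465 := good_step h465 good_bot
theorem g464 : Good 23950 c464 := good_c 6000 (by decide +kernel) g465 g466
theorem g462 : Good 23950 c462 := good_L 6144 2280 (by decide +kernel) g464 g463
theorem g460 : Good 23950 c460 := good_d 5560 (by decide +kernel) g462 g461
theorem g459 : Good 23950 c459 := good_step h459 good_bot
theorem g457 : Good 23950 c457 := good_d 5432 (by decide +kernel) g459 g460
theorem g456 : Good 23950 c456 := good_L 5824 2432 (by decide +kernel) g457 g458
theorem g455 : Good 23950 c455 := good_step h455 good_bot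
theorem g454 : Good 23950 c454 := good_c 5944 (by decide +kernel) g455 g456
theorem g453 : Good 23950 c453 := good_step h453 good_bot
theorem g452 : Good 23950 c452 := good_d 5392 (by decide +kernel) g453 g454
theorem g451 : Good 23950 c451 := good_step h451 g452
theorem g450 : Good 23950 c450 := good_step h450 g451
theorem g449 : Good 23950 c449 := good_step h449 good_bot
theorem g448 : Good 23950 c448 := good_c 5928 (by decide +kernel) g449 g450
theorem g446 : Good 23950 c446 := good_d 5576 (by decide +kernel) g448 g447
theorem g445 : Good 23950 c445 := good_step h445 good_bot
theorem g342 : Good 23950 c342 := good_d 5376 (by decide +kernel) g445 g446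
theorem g350 : Good 23950 c350 := good_step h350 good_bot
theorem g366 : Good 23950 c366 := good_step h366 good_bot
theorem g379 : Good 23950 c379 := good_step h379 good_bot
theorem g418 : Good 23950 c418 := good_step h418 good_bot
theorem g426 : Good 23950 c426 := good_step h426 good_bot
theorem g439 : Good 23950 c439 := good_step h439 good_bot
theorem g444 : Good 23950 c444 := good_step h444 good_bot
theorem g443 : Good 23950 c443 := good_step h443 g444
theorem g442 : Good 23950 c442 := good_step h442 g443
theorem g441 : Good 23950 c441 := good_step h441 good_bot
theorem g440 : Good 23950 c440 := good_c 6028 (by decide +kernel) g441 g442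
theorem g438 : Good 23950 c438 := good_d 5548 (by decide +kernel) g440 g439
theorem g437 : Good 23950 c437 := good_step h437 good_bot
theorem g430 : Good 23950 c430 := good_d 5476 (by decide +kernel) g437 g438
theorem g436 : Good 23950 c436 := good_step h436 good_bot
theorem g435 : Good 23950 c435 := good_step h435 g436
theorem g434 : Good 23950 c434 := good_step h434 g435
theorem g433 : Good 23950 c433 := good_step h433 good_bot
theorem g432 : Good 23950 c432 := good_c 6028 (by decide +kernel) g433 g434
theorem g431 : Good 23950 c431 := good_step h431 good_bot
theorem g429 : Good 23950 c429 := good_d 5472 (by decide +kernel) g431 g432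
theorem g428 : Good 23950 c428 := good_L 6144 2256 (by decide +kernel) g429 g430
theorem g427 : Good 23950 c427 := good_step h427 g428
theorem g425 : Good 23950 c425 := good_d 5560 (by decide +kernel) g427 g426
theorem g424 : Good 23950 c424 := good_step h424 good_bot
theorem g423 : Good 23950 c423 := good_d 5456 (by decide +kernel) g424 g425
theorem g422 : Good 23950 c422 := good_step h422 g423
theorem g421 : Good 23950 c421 := good_step h421 g422
theorem g420 : Good 23950 c420 := good_step h420 good_bot
theorem g419 : Good 23950 c419 := good_c 5996 (by decide +kernel) g420 g421
theorem g417 : Good 23950 c417 := good_d 5564 (by decide +kernel) g419 g418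
theorem g416 : Good 23950 c416 := good_step h416 good_bot
theorem g384 : Good 23950 c384 := good_d 5444 (by decide +kernel) g416 g417
theorem g387 : Good 23950 c387 := good_step h387 good_bot
theorem g410 : Good 23950 c410 := good_step h410 good_bot
theorem g415 : Good 23950 c415 := good_step h415 good_bot
theorem g414 : Good 23950 c414 := good_step h414 g415
theorem g413 : Good 23950 c413 := good_step h413 g414
theorem g412 : Good 23950 c412 := good_step h412 good_bot
theorem g411 : Good 23950 c411 := good_c 6040 (by decide +kernel) g412 g413
theorem g409 : Good 23950 c409 := good_d 5556 (by decide +kernel) g411 g410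
theorem g408 : Good 23950 c408 := good_step h408 good_bot
theorem g399 : Good 23950 c399 := good_d 5472 (by decide +kernel) g408 g409
theorem g402 : Good 23950 c402 := good_step h402 good_bot
theorem g407 : Good 23950 c407 := good_step h407 good_bot
theorem g406 : Good 23950 c406 := good_step h406 g407
theorem g405 : Good 23950 c405 := good_step h405 g406
theorem g404 : Good 23950 c404 := good_step h404 good_bot
theorem g403 : Good 23950 c403 := good_c 6040 (by decide +kernel) g404 g405
theorem g401 : Good 23950 c401 := good_d 5560 (by decide +kernel) g403 g402
theorem g400 : Good 23950 c400 := good_step h400 good_bot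
theorem g398 : Good 23950 c398 := good_d 5480 (by decide +kernel) g400 g401
theorem g397 : Good 23950 c397 := good_L 6144 2240 (by decide +kernel) g398 g399
theorem g396 : Good 23950 c396 := good_step h396 good_bot
theorem g395 : Good 23950 c395 := good_c 6012 (by decide +kernel) g396 g397
theorem g394 : Good 23950 c394 := good_step h394 good_bot
theorem g393 : Good 23950 c393 := good_d 5456 (by decide +kernel) g394 g395
theorem g392 : Good 23950 c392 := good_step h392 g393
theorem g391 : Good 23950 c391 := good_step h391 g392
theorem g390 : Good 23950 c390 := good_step h390 g391
theorem g389 : Good 23950 c389 := good_step h389 good_bot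
theorem g388 : Good 23950 c388 := good_c 6004 (by decide +kernel) g389 g390
theorem g386 : Good 23950 c386 := good_d 5568 (by decide +kernel) g388 g387
theorem g385 : Good 23950 c385 := good_step h385 good_bot
theorem g383 : Good 23950 c383 := good_d 5444 (by decide +kernel) g385 g386
theorem g382 : Good 23950 c382 := good_L 6144 2248 (by decide +kernel) g383 g384
theorem g381 : Good 23950 c381 := good_step h381 good_bot
theorem g380 : Good 23950 c380 := good_c 5968 (by decide +kernel) g381 g382
theorem g378 : Good 23950 c378 := good_d 5576 (by decide +kernel) g380 g379
theorem g377 : Good 23950 c377 := good_step h377 good_bot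
theorem g376 : Good 23950 c376 := good_d 5420 (by decide +kernel) g377 g378
theorem g375 : Good 23950 c375 := good_step h375 g376
theorem g374 : Good 23950 c374 := good_step h374 good_bot
theorem g373 : Good 23950 c373 := good_L 5856 2336 (by decide +kernel) g374 g375
theorem g372 : Good 23950 c372 := good_step h372 g373
theorem g371 : Good 23950 c371 := good_step h371 g372
theorem g370 : Good 23950 c370 := good_step h370 good_bot
theorem g369 : Good 23950 c369 := good_c 5960 (by decide +kernel) g370 g371
theorem g368 : Good 23950 c368 := good_step h368 good_bot
theorem g367 : Good 23950 c367 := good_d 5412 (by decide +kernel) g368 g369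
theorem g353 : Good 23950 c353 := good_d 5584 (by decide +kernel) g367 g366
theorem g356 : Good 23950 c356 := good_step h356 good_bot
theorem g360 : Good 23950 c360 := good_step h360 good_bot
theorem g364 : Good 23950 c364 := good_step h364 good_bot
theorem g365 : Good 23950 c365 := good_step h365 good_bot
theorem g363 : Good 23950 c363 := good_c 6128 (by decide +kernel) g365 g364
theorem g362 : Good 23950 c362 := good_step h362 good_bot
theorem g361 : Good 23950 c361 := good_c 6104 (by decide +kernel) g362 g363
theorem g359 : Good 23950 c359 := good_L 6144 2256 (by decide +kernel) g361 g360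
theorem g358 : Good 23950 c358 := good_step h358 good_bot
theorem g357 : Good 23950 c357 := good_L 6144 2248 (by decide +kernel) g358 g359
theorem g355 : Good 23950 c355 := good_d 5568 (by decide +kernel) g357 g356
theorem g354 : Good 23950 c354 := good_step h354 good_bot
theorem g352 : Good 23950 c352 := good_d 5472 (by decide +kernel) g354 g355
theorem g351 : Good 23950 c351 := good_L 5824 2368 (by decide +kernel) g352 g353
theorem g349 : Good 23950 c349 := good_d 5592 (by decide +kernel) g351 g350
theorem g348 : Good 23950 c348 := good_step h348 good_bot
theorem g347 : Good 23950 c347 := good_d 5392 (by decide +kernel) g348 g349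
theorem g346 : Good 23950 c346 := good_step h346 g347
theorem g345 : Good 23950 c345 := good_step h345 good_bot
theorem g344 : Good 23950 c344 := good_c 5928 (by decide +kernel) g345 g346
theorem g343 : Good 23950 c343 := good_step h343 good_bot
theorem g341 : Good 23950 c341 := good_d 5376 (by decide +kernel) g343 g344
theorem g340 : Good 23950 c340 := good_L 6144 2264 (by decide +kernel) g341 g342
theorem g338 : Good 23950 c338 := good_d 5600 (by decide +kernel) g340 g339
theorem g337 : Good 23950 c337 := good_step h337 good_bot
theorem g324 : Good 23950 c324 := good_d 5352 (by decide +kernel) g337 g338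
theorem g327 : Good 23950 c327 := good_step h327 good_bot
theorem g331 : Good 23950 c331 := good_step h331 good_bot
theorem g335 : Good 23950 c335 := good_step h335 good_bot
theorem g336 : Good 23950 c336 := good_step h336 good_bot
theorem g334 : Good 23950 c334 := good_c 6104 (by decide +kernel) g336 g335
theorem g333 : Good 23950 c333 := good_step h333 good_bot
theorem g332 : Good 23950 c332 := good_c 6096 (by decide +kernel) g333 g334
theorem g330 : Good 23950 c330 := good_L 6144 2256 (by decide +kernel) g332 g331
theorem g329 : Good 23950 c329 := good_step h329 good_bot
theorem g328 : Good 23950 c328 := good_L 6144 2240 (by decide +kernel) g329 g330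
theorem g326 : Good 23950 c326 := good_d 5584 (by decide +kernel) g328 g327
theorem g325 : Good 23950 c325 := good_step h325 good_bot
theorem g323 : Good 23950 c323 := good_d 5448 (by decide +kernel) g325 g326
theorem g322 : Good 23950 c322 := good_L 5760 2432 (by decide +kernel) g323 g324
theorem g321 : Good 23950 c321 := good_step h321 g322
theorem g320 : Good 23950 c320 := good_step h320 good_bot
theorem g319 : Good 23950 c319 := good_c 5888 (by decide +kernel) g320 g321
theorem g318 : Good 23950 c318 := good_step h318 g319
theorem g317 : Good 23950 c317 := good_step h317 g318
theorem g316 : Good 23950 c316 := good_step h316 good_bot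
theorem g315 : Good 23950 c315 := good_c 5872 (by decide +kernel) g316 g317
theorem g313 : Good 23950 c313 := good_d 5608 (by decide +kernel) g315 g314
theorem g312 : Good 23950 c312 := good_step h312 good_bot
theorem g310 : Good 23950 c310 := good_d 5336 (by decide +kernel) g312 g313
theorem g309 : Good 23950 c309 := good_L 6144 2288 (by decide +kernel) g310 g311
theorem g308 : Good 23950 c308 := good_step h308 good_bot
theorem g307 : Good 23950 c307 := good_c 5800 (by decide +kernel) g308 g309
theorem g306 : Good 23950 c306 := good_step h306 good_bot
theorem g305 : Good 23950 c305 := good_d 5288 (by decide +kernel) g306 g307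
theorem g304 : Good 23950 c304 := good_step h304 g305
theorem g303 : Good 23950 c303 := good_step h303 g304
theorem g302 : Good 23950 c302 := good_step h302 g303
theorem g301 : Good 23950 c301 := good_step h301 g302
theorem g300 : Good 23950 c300 := good_step h300 good_bot
theorem g299 : Good 23950 c299 := good_c 5784 (by decide +kernel) g300 g301
theorem g297 : Good 23950 c297 := good_L 6144 2344 (by decide +kernel) g299 g298
theorem g295 : Good 23950 c295 := good_d 5632 (by decide +kernel) g297 g296
theorem g294 : Good 23950 c294 := good_step h294 good_bot
theorem g70 : Good 23950 c70 := good_d 5264 (by decide +kernel) g294 g295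
theorem g73 : Good 23950 c73 := good_step h73 good_bot
theorem g89 : Good 23950 c89 := good_step h89 good_bot
theorem g162 : Good 23950 c162 := good_step h162 good_bot
theorem g187 : Good 23950 c187 := good_step h187 good_bot
theorem g243 : Good 23950 c243 := good_step h243 good_bot
theorem g286 : Good 23950 c286 := good_step h286 good_bot
theorem g292 : Good 23950 c292 := good_step h292 good_bot
theorem g293 : Good 23950 c293 := good_step h293 good_bot
theorem g291 : Good 23950 c291 := good_c 6128 (by decide +kernel) g293 g292
theorem g290 : Good 23950 c290 := good_step h290 good_bot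
theorem g289 : Good 23950 c289 := good_c 6112 (by decide +kernel) g290 g291
theorem g288 : Good 23950 c288 := good_step h288 good_bot
theorem g287 : Good 23950 c287 := good_L 6144 2224 (by decide +kernel) g288 g289
theorem g285 : Good 23950 c285 := good_d 5568 (by decide +kernel) g287 g286
theorem g284 : Good 23950 c284 := good_step h284 good_bot
theorem g252 : Good 23950 c252 := good_d 5552 (by decide +kernel) g284 g285
theorem g255 : Good 23950 c255 := good_step h255 good_bot
theorem g263 : Good 23950 c263 := good_step h263 good_bot
theorem g274 : Good 23950 c274 := good_step h274 good_bot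
theorem g278 : Good 23950 c278 := good_step h278 good_bot
theorem g282 : Good 23950 c282 := good_step h282 good_bot
theorem g283 : Good 23950 c283 := good_step h283 good_bot
theorem g281 : Good 23950 c281 := good_c 6124 (by decide +kernel) g283 g282
theorem g280 : Good 23950 c280 := good_step h280 good_bot
theorem g279 : Good 23950 c279 := good_c 6120 (by decide +kernel) g280 g281
theorem g277 : Good 23950 c277 := good_L 6144 2228 (by decide +kernel) g279 g278
theorem g276 : Good 23950 c276 := good_step h276 good_bot
theorem g275 : Good 23950 c275 := good_L 6144 2224 (by decide +kernel) g276 g277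
theorem g273 : Good 23950 c273 := good_d 5560 (by decide +kernel) g275 g274
theorem g272 : Good 23950 c272 := good_step h272 good_bot
theorem g271 : Good 23950 c271 := good_d 5484 (by decide +kernel) g272 g273
theorem g270 : Good 23950 c270 := good_step h270 good_bot
theorem g269 : Good 23950 c269 := good_L 5920 2304 (by decide +kernel) g270 g271
theorem g268 : Good 23950 c268 := good_step h268 g269
theorem g267 : Good 23950 c267 := good_step h267 g268
theorem g266 : Good 23950 c266 := good_step h266 g267
theorem g265 : Good 23950 c265 := good_step h265 good_bot
theorem g264 : Good 23950 c264 := good_c 6020 (by decide +kernel) g265 g266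
theorem g262 : Good 23950 c262 := good_d 5568 (by decide +kernel) g264 g263
theorem g261 : Good 23950 c261 := good_step h261 good_bot
theorem g260 : Good 23950 c260 := good_d 5472 (by decide +kernel) g261 g262
theorem g259 : Good 23950 c259 := good_step h259 g260
theorem g258 : Good 23950 c258 := good_step h258 g259
theorem g257 : Good 23950 c257 := good_step h257 good_bot
theorem g256 : Good 23950 c256 := good_c 6000 (by decide +kernel) g257 g258
theorem g254 : Good 23950 c254 := good_d 5576 (by decide +kernel) g256 g255
theorem g253 : Good 23950 c253 := good_step h253 good_bot
theorem g251 : Good 23950 c251 := good_d 5448 (by decide +kernel) g253 g254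
theorem g250 : Good 23950 c250 := good_L 5888 2432 (by decide +kernel) g251 g252
theorem g249 : Good 23950 c249 := good_step h249 good_bot
theorem g248 : Good 23950 c248 := good_L 5888 2304 (by decide +kernel) g249 g250
theorem g247 : Good 23950 c247 := good_step h247 g248
theorem g246 : Good 23950 c246 := good_step h246 g247
theorem g245 : Good 23950 c245 := good_step h245 good_bot
theorem g244 : Good 23950 c244 := good_c 5984 (by decide +kernel) g245 g246
theorem g242 : Good 23950 c242 := good_d 5584 (by decide +kernel) g244 g243
theorem g241 : Good 23950 c241 := good_step h241 good_bot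
theorem g190 : Good 23950 c190 := good_d 5432 (by decide +kernel) g241 g242
theorem g197 : Good 23950 c197 := good_step h197 good_bot
theorem g217 : Good 23950 c217 := good_step h217 good_bot
theorem g229 : Good 23950 c229 := good_step h229 good_bot
theorem g233 : Good 23950 c233 := good_step h233 good_bot
theorem g237 : Good 23950 c237 := good_step h237 good_bot
theorem g240 : Good 23950 c240 := good_step h240 good_bot
theorem g239 : Good 23950 c239 := good_step h239 g240
theorem g238 : Good 23950 c238 := good_step h238 g239
theorem g236 : Good 23950 c236 := good_c 6132 (by decide +kernel) g238 g237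
theorem g235 : Good 23950 c235 := good_step h235 good_bot
theorem g234 : Good 23950 c234 := good_c 6060 (by decide +kernel) g235 g236
theorem g232 : Good 23950 c232 := good_L 6144 2212 (by decide +kernel) g234 g233
theorem g231 : Good 23950 c231 := good_step h231 good_bot
theorem g230 : Good 23950 c230 := good_L 6144 2200 (by decide +kernel) g231 g232
theorem g228 : Good 23950 c228 := good_d 5576 (by decide +kernel) g230 g229
theorem g227 : Good 23950 c227 := good_step h227 good_bot
theorem g226 : Good 23950 c226 := good_d 5472 (by decide +kernel) g227 g228
theorem g225 : Good 23950 c225 := good_step h225 good_bot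
theorem g224 : Good 23950 c224 := good_c 6008 (by decide +kernel) g225 g226
theorem g223 : Good 23950 c223 := good_step h223 good_bot
theorem g222 : Good 23950 c222 := good_d 5456 (by decide +kernel) g223 g224
theorem g221 : Good 23950 c221 := good_step h221 g222
theorem g220 : Good 23950 c220 := good_step h220 g221
theorem g219 : Good 23950 c219 := good_step h219 good_bot
theorem g218 : Good 23950 c218 := good_c 6000 (by decide +kernel) g219 g220
theorem g216 : Good 23950 c216 := good_d 5584 (by decide +kernel) g218 g217
theorem g215 : Good 23950 c215 := good_step h215 good_bot
theorem g202 : Good 23950 c202 := good_d 5440 (by decide +kernel) g215 g216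
theorem g205 : Good 23950 c205 := good_step h205 good_bot
theorem g209 : Good 23950 c209 := good_step h209 good_bot
theorem g213 : Good 23950 c213 := good_step h213 good_bot
theorem g214 : Good 23950 c214 := good_step h214 good_bot
theorem g212 : Good 23950 c212 := good_c 6128 (by decide +kernel) g214 g213
theorem g211 : Good 23950 c211 := good_step h211 good_bot
theorem g210 : Good 23950 c210 := good_c 6112 (by decide +kernel) g211 g212
theorem g208 : Good 23950 c208 := good_L 6144 2208 (by decide +kernel) g210 g209
theorem g207 : Good 23950 c207 := good_step h207 good_bot
theorem g206 : Good 23950 c206 := good_L 6144 2200 (by decide +kernel) g207 g208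
theorem g204 : Good 23950 c204 := good_d 5576 (by decide +kernel) g206 g205
theorem g203 : Good 23950 c203 := good_step h203 good_bot
theorem g201 : Good 23950 c201 := good_d 5560 (by decide +kernel) g203 g204
theorem g200 : Good 23950 c200 := good_L 5888 2304 (by decide +kernel) g201 g202
theorem g199 : Good 23950 c199 := good_step h199 good_bot
theorem g198 : Good 23950 c198 := good_c 5992 (by decide +kernel) g199 g200
theorem g196 : Good 23950 c196 := good_d 5592 (by decide +kernel) g198 g197
theorem g195 : Good 23950 c195 := good_step h195 g196
theorem g194 : Good 23950 c194 := good_step h194 g195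
theorem g193 : Good 23950 c193 := good_step h193 good_bot
theorem g192 : Good 23950 c192 := good_c 5984 (by decide +kernel) g193 g194
theorem g191 : Good 23950 c191 := good_step h191 good_bot
theorem g189 : Good 23950 c189 := good_d 5432 (by decide +kernel) g191 g192
theorem g188 : Good 23950 c188 := good_L 6144 2216 (by decide +kernel) g189 g190
theorem g186 : Good 23950 c186 := good_d 5600 (by decide +kernel) g188 g187
theorem g185 : Good 23950 c185 := good_step h185 good_bot
theorem g172 : Good 23950 c172 := good_d 5400 (by decide +kernel) g185 g186
theorem g175 : Good 23950 c175 := good_step h175 good_bot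
theorem g179 : Good 23950 c179 := good_step h179 good_bot
theorem g183 : Good 23950 c183 := good_step h183 good_bot
theorem g184 : Good 23950 c184 := good_step h184 good_bot
theorem g182 : Good 23950 c182 := good_c 6128 (by decide +kernel) g184 g183
theorem g181 : Good 23950 c181 := good_step h181 good_bot
theorem g180 : Good 23950 c180 := good_c 6104 (by decide +kernel) g181 g182
theorem g178 : Good 23950 c178 := good_L 6144 2224 (by decide +kernel) g180 g179
theorem g177 : Good 23950 c177 := good_step h177 good_bot
theorem g176 : Good 23950 c176 := good_L 6144 2208 (by decide +kernel) g177 g178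
theorem g174 : Good 23950 c174 := good_d 5584 (by decide +kernel) g176 g175
theorem g173 : Good 23950 c173 := good_step h173 good_bot
theorem g171 : Good 23950 c171 := good_d 5456 (by decide +kernel) g173 g174
theorem g170 : Good 23950 c170 := good_L 5824 2368 (by decide +kernel) g171 g172
theorem g169 : Good 23950 c169 := good_step h169 good_bot
theorem g168 : Good 23950 c168 := good_c 5944 (by decide +kernel) g169 g170
theorem g167 : Good 23950 c167 := good_step h167 g168
theorem g166 : Good 23950 c166 := good_step h166 g167
theorem g165 : Good 23950 c165 := good_step h165 g166
theorem g164 : Good 23950 c164 := good_step h164 good_bot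
theorem g163 : Good 23950 c163 := good_c 5928 (by decide +kernel) g164 g165
theorem g161 : Good 23950 c161 := good_d 5616 (by decide +kernel) g163 g162
theorem g160 : Good 23950 c160 := good_step h160 good_bot
theorem g94 : Good 23950 c94 := good_d 5384 (by decide +kernel) g160 g161
theorem g97 : Good 23950 c97 := good_step h97 good_bot
theorem g124 : Good 23950 c124 := good_step h124 good_bot
theorem g142 : Good 23950 c142 := good_step h142 good_bot
theorem g152 : Good 23950 c152 := good_step h152 good_bot
theorem g159 : Good 23950 c159 := good_step h159 good_bot
theorem g158 : Good 23950 c158 := good_step h158 g159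
theorem g157 : Good 23950 c157 := good_step h157 g158
theorem g156 : Good 23950 c156 := good_step h156 good_bot
theorem g155 : Good 23950 c155 := good_c 6064 (by decide +kernel) g156 g157
theorem g154 : Good 23950 c154 := good_step h154 good_bot
theorem g153 : Good 23950 c153 := good_L 6144 2184 (by decide +kernel) g154 g155
theorem g151 : Good 23950 c151 := good_d 5576 (by decide +kernel) g153 g152
theorem g150 : Good 23950 c150 := good_step h150 good_bot
theorem g149 : Good 23950 c149 := good_d 5480 (by decide +kernel) g150 g151
theorem g148 : Good 23950 c148 := good_step h148 g149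
theorem g147 : Good 23950 c147 := good_step h147 g148
theorem g146 : Good 23950 c146 := good_step h146 good_bot
theorem g145 : Good 23950 c145 := good_c 6048 (by decide +kernel) g146 g147
theorem g144 : Good 23950 c144 := good_step h144 good_bot
theorem g143 : Good 23950 c143 := good_L 6144 2176 (by decide +kernel) g144 g145
theorem g141 : Good 23950 c141 := good_d 5584 (by decide +kernel) g143 g142
theorem g140 : Good 23950 c140 := good_step h140 good_bot
theorem g139 : Good 23950 c139 := good_d 5464 (by decide +kernel) g140 g141
theorem g138 : Good 23950 c138 := good_step h138 good_bot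
theorem g137 : Good 23950 c137 := good_L 5920 2240 (by decide +kernel) g138 g139
theorem g136 : Good 23950 c136 := good_step h136 good_bot
theorem g135 : Good 23950 c135 := good_c 6024 (by decide +kernel) g136 g137
theorem g134 : Good 23950 c134 := good_step h134 g135
theorem g133 : Good 23950 c133 := good_step h133 g134
theorem g132 : Good 23950 c132 := good_step h132 good_bot
theorem g131 : Good 23950 c131 := good_c 6016 (by decide +kernel) g132 g133
theorem g130 : Good 23950 c130 := good_step h130 good_bot
theorem g129 : Good 23950 c129 := good_d 5456 (by decide +kernel) g130 g131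
theorem g128 : Good 23950 c128 := good_step h128 g129
theorem g127 : Good 23950 c127 := good_step h127 g128
theorem g126 : Good 23950 c126 := good_step h126 good_bot
theorem g125 : Good 23950 c125 := good_c 6008 (by decide +kernel) g126 g127
theorem g123 : Good 23950 c123 := good_d 5600 (by decide +kernel) g125 g124
theorem g122 : Good 23950 c122 := good_step h122 good_bot
theorem g110 : Good 23950 c110 := good_d 5440 (by decide +kernel) g122 g123
theorem g113 : Good 23950 c113 := good_step h113 good_bot
theorem g121 : Good 23950 c121 := good_step h121 good_bot
theorem g120 : Good 23950 c120 := good_step h120 g121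
theorem g119 : Good 23950 c119 := good_step h119 g120
theorem g118 : Good 23950 c118 := good_step h118 g119
theorem g117 : Good 23950 c117 := good_step h117 good_bot
theorem g116 : Good 23950 c116 := good_c 6072 (by decide +kernel) g117 g118
theorem g115 : Good 23950 c115 := good_step h115 good_bot
theorem g114 : Good 23950 c114 := good_L 6144 2152 (by decide +kernel) g115 g116
theorem g112 : Good 23950 c112 := good_d 5592 (by decide +kernel) g114 g113
theorem g111 : Good 23950 c111 := good_step h111 good_bot
theorem g109 : Good 23950 c109 := good_d 5480 (by decide +kernel) g111 g112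
theorem g108 : Good 23950 c108 := good_L 6144 2168 (by decide +kernel) g109 g110
theorem g107 : Good 23950 c107 := good_step h107 g108
theorem g106 : Good 23950 c106 := good_step h106 good_bot
theorem g105 : Good 23950 c105 := good_c 5976 (by decide +kernel) g106 g107
theorem g104 : Good 23950 c104 := good_step h104 good_bot
theorem g103 : Good 23950 c103 := good_d 5416 (by decide +kernel) g104 g105
theorem g102 : Good 23950 c102 := good_step h102 g103
theorem g101 : Good 23950 c101 := good_step h101 g102
theorem g100 : Good 23950 c100 := good_step h100 g101
theorem g99 : Good 23950 c99 := good_step h99 good_bot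
theorem g98 : Good 23950 c98 := good_c 5952 (by decide +kernel) g99 g100
theorem g96 : Good 23950 c96 := good_d 5624 (by decide +kernel) g98 g97
theorem g95 : Good 23950 c95 := good_step h95 good_bot
theorem g93 : Good 23950 c93 := good_d 5400 (by decide +kernel) g95 g96
theorem g92 : Good 23950 c92 := good_L 6144 2192 (by decide +kernel) g93 g94
theorem g91 : Good 23950 c91 := good_step h91 good_bot
theorem g90 : Good 23950 c90 := good_L 6144 2144 (by decide +kernel) g91 g92
theorem g88 : Good 23950 c88 := good_d 5640 (by decide +kernel) g90 g89
theorem g87 : Good 23950 c87 := good_step h87 good_bot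
theorem g86 : Good 23950 c86 := good_c 5872 (by decide +kernel) g87 g88
theorem g85 : Good 23950 c85 := good_step h85 good_bot
theorem g84 : Good 23950 c84 := good_L 6144 2136 (by decide +kernel) g85 g86
theorem g83 : Good 23950 c83 := good_step h83 good_bot
theorem g82 : Good 23950 c82 := good_d 5336 (by decide +kernel) g83 g84
theorem g81 : Good 23950 c81 := good_step h81 g82
theorem g80 : Good 23950 c80 := good_step h80 g81
theorem g79 : Good 23950 c79 := good_step h79 g80
theorem g78 : Good 23950 c78 := good_step h78 g79
theorem g77 : Good 23950 c77 := good_step h77 good_bot
theorem g76 : Good 23950 c76 := good_c 5824 (by decide +kernel) g77 g78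
theorem g75 : Good 23950 c75 := good_step h75 good_bot
theorem g74 : Good 23950 c74 := good_L 6144 2128 (by decide +kernel) g75 g76
theorem g72 : Good 23950 c72 := good_d 5656 (by decide +kernel) g74 g73
theorem g71 : Good 23950 c71 := good_step h71 good_bot
theorem g69 : Good 23950 c69 := good_d 5312 (by decide +kernel) g71 g72
theorem g68 : Good 23950 c68 := good_L 6144 2232 (by decide +kernel) g69 g70
theorem g66 : Good 23950 c66 := good_L 6144 2352 (by decide +kernel) g68 g67
theorem g65 : Good 23950 c65 := good_step h65 good_bot
theorem g64 : Good 23950 c64 := good_L 6144 2112 (by decide +kernel) g65 g66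
theorem g62 : Good 23950 c62 := good_d 5696 (by decide +kernel) g64 g63
theorem g61 : Good 23950 c61 := good_step h61 good_bot
theorem g60 : Good 23950 c60 := good_c 5688 (by decide +kernel) g61 g62
theorem g59 : Good 23950 c59 := good_step h59 good_bot
theorem g58 : Good 23950 c58 := good_L 6144 2088 (by decide +kernel) g59 g60
theorem g57 : Good 23950 c57 := good_step h57 good_bot
theorem g56 : Good 23950 c56 := good_d 5152 (by decide +kernel) g57 g58
theorem g55 : Good 23950 c55 := good_step h55 good_bot
theorem g54 : Good 23950 c54 := good_c 5656 (by decide +kernel) g55 g56
theorem g52 : Good 23950 c52 := good_L 6144 2360 (by decide +kernel) g54 g53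
theorem g51 : Good 23950 c51 := good_step h51 good_bot
theorem g50 : Good 23950 c50 := good_L 6144 2040 (by decide +kernel) g51 g52
theorem g48 : Good 23950 c48 := good_d 5792 (by decide +kernel) g50 g49
theorem g47 : Good 23950 c47 := good_step h47 good_bot
theorem g46 : Good 23950 c46 := good_d 5048 (by decide +kernel) g47 g48
theorem g45 : Good 23950 c45 := good_step h45 g46
theorem g44 : Good 23950 c44 := good_step h44 g45
theorem g43 : Good 23950 c43 := good_step h43 g44
theorem g42 : Good 23950 c42 := good_step h42 good_bot
theorem g41 : Good 23950 c41 := good_c 5616 (by decide +kernel) g42 g43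
theorem g39 : Good 23950 c39 := good_L 6144 2392 (by decide +kernel) g41 g40
theorem g38 : Good 23950 c38 := good_step h38 good_bot
theorem g37 : Good 23950 c37 := good_L 6144 1896 (by decide +kernel) g38 g39
theorem g36 : Good 23950 c36 := good_step h36 good_bot
theorem g35 : Good 23950 c35 := good_d 4944 (by decide +kernel) g36 g37
theorem g34 : Good 23950 c34 := good_step h34 g35
theorem g33 : Good 23950 c33 := good_step h33 g34
theorem g32 : Good 23950 c32 := good_step h32 good_bot
theorem g31 : Good 23950 c31 := good_c 5560 (by decide +kernel) g32 g33
theorem g29 : Good 23950 c29 := good_L 6144 2448 (by decide +kernel) g31 g30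
theorem g28 : Good 23950 c28 := good_step h28 good_bot
theorem g27 : Good 23950 c27 := good_L 6144 1504 (by decide +kernel) g28 g29
theorem g26 : Good 23950 c26 := good_step h26 good_bot
theorem g25 : Good 23950 c25 := good_d 4768 (by decide +kernel) g26 g27
theorem g24 : Good 23950 c24 := good_step h24 g25
theorem g23 : Good 23950 c23 := good_step h23 good_bot
theorem g22 : Good 23950 c22 := good_c 5464 (by decide +kernel) g23 g24
theorem g20 : Good 23950 c20 := good_L 6144 2560 (by decide +kernel) g22 g21
theorem g18 : Good 23950 c18 := good_d 5992 (by decide +kernel) g20 g19
theorem g17 : Good 23950 c17 := good_step h17 good_bot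
theorem g16 : Good 23950 c16 := good_d 4672 (by decide +kernel) g17 g18
theorem g15 : Good 23950 c15 := good_step h15 g16
theorem g14 : Good 23950 c14 := good_step h14 g15
theorem g13 : Good 23950 c13 := good_step h13 good_bot
theorem g12 : Good 23950 c12 := good_c 5384 (by decide +kernel) g13 g14
theorem g10 : Good 23950 c10 := good_L 6144 2760 (by decide +kernel) g12 g11
theorem g9 : Good 23950 c9 := good_step h9 good_bot
theorem g8 : Good 23950 c8 := good_d 4504 (by decide +kernel) g9 g10
theorem g7 : Good 23950 c7 := good_step h7 g8
theorem g6 : Good 23950 c6 := good_step h6 g7
theorem g5 : Good 23950 c5 := good_step h5 g6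
theorem g4 : Good 23950 c4 := good_step h4 g5
theorem g3 : Good 23950 c3 := good_step h3 good_bot
theorem g2 : Good 23950 c2 := good_c 5064 (by decide +kernel) g3 g4
theorem g0 : Good 23950 c0 := good_L 6144 3232 (by decide +kernel) g2 g1

end Pool.Agent.Lib.MP_9b2593_an
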